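import Pool.Agent.Lib_MP_1eadae_lu.UDefs

/-!
# Piece UB: concentration of additive functions, quantitative
-/

set_option autoImplicit false

namespace Pool.Agent.LogAll

section UBaux

variable {s : Finset ℕ} {μ : Set ℕ → ℝ} {V : Type} [AddCommGroup V]

/-- level set -/
private def ubLev (f : ℕ → V) (c : V) : Set ℕ := {a : ℕ | 0 < a ∧ f a = c}

private theorem ub_empty (hμ : IsMeanOn s μ) : μ ∅ = 0 := by
  have h := hμ.add ∅ ∅ (by simp)
  rw [Set.union_empty] at h
  linarith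

private theorem ub_le_one (hμ : IsMeanOn s μ) (A : Set ℕ) : μ A ≤ 1 := by
  rw [← hμ.univ]; exact hμ.mono _ _ (Set.subset_univ A)

private theorem ub_lev_inter (f : ℕ → V) (hf : ∀ a b, 0 < a → 0 < b → f (a * b) = f a + f b) (c : V) {p : ℕ}
    (hp : 0 < p) : ubLev f c ∩ {a | p ∣ a} = (fun a => p * a) '' ubLev f (c - f p) := by
  ext a
  constructor
  · rintro ⟨⟨h0, h1⟩, ⟨b, rfl⟩⟩
    have hb : 0 < b := Nat.pos_of_ne_zero (by rintro rfl; simp at h0)
    refine ⟨b, ⟨hb, ?_⟩, rfl⟩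
    rw [hf p b hp hb] at h1
    rw [← h1]; abel
  · rintro ⟨b, ⟨hb, h1⟩, rfl⟩
    refine ⟨⟨Nat.mul_pos hp hb, ?_⟩, Dvd.intro b rfl⟩
    change f (p * b) = c
    rw [hf p b hp hb, h1]; abel

private theorem ub_mean_lev_inter (hμ : IsMeanOn s μ) (f : ℕ → V)
    (hf : ∀ a b, 0 < a → 0 < b → f (a * b) = f a + f b) (c : V) {p : ℕ} (hp : 0 < p) (hps : p ∈ s) :
    μ (ubLev f c ∩ {a | p ∣ a}) = μ (ubLev f (c - f p)) / p := by
  rw [ub_lev_inter f hf c hp, hμ.dil p hps]

private theorem ub_mean_dvd (hμ : IsMeanOn s μ) {p : ℕ} (hps : p ∈ s) : μ {a | p ∣ a} = 1 / p := by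
  have h1 : {a : ℕ | p ∣ a} = (fun a => p * a) '' Set.univ := by
    ext a
    constructor
    · rintro ⟨b, rfl⟩; exact ⟨b, trivial, rfl⟩
    · rintro ⟨b, -, rfl⟩; exact Dvd.intro b rfl
  rw [h1, hμ.dil p hps, hμ.univ]

private theorem ub_mean_dvd_dvd (hμ : IsMeanOn s μ) {p q : ℕ} (hp : p.Prime) (hq : q.Prime) (hps : p ∈ s)
    (hqs : q ∈ s) :
    μ ({a | p ∣ a} ∩ {a | q ∣ a}) ≤ (1 / p) * (1 / q) + (if p = q then (1 : ℝ) / p else 0) := by
  by_cases h : p = q
  · subst h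
    rw [if_pos rfl, Set.inter_self, ub_mean_dvd hμ hps]
    have : (0 : ℝ) ≤ (1 / p) * (1 / p) := by positivity
    linarith
  · rw [if_neg h, add_zero]
    have hco : Nat.Coprime q p := (Nat.coprime_primes hq hp).mpr (Ne.symm h)
    have h1 : ({a : ℕ | p ∣ a} ∩ {a | q ∣ a}) = (fun a => p * a) '' {a | q ∣ a} := by
      ext a
      constructor
      · rintro ⟨⟨b, rfl⟩, h2⟩
        exact ⟨b, hco.dvd_of_dvd_mul_left h2, rfl⟩
      · rintro ⟨b, h2, rfl⟩
        exact ⟨Dvd.intro b rfl, Dvd.dvd.mul_left h2 p⟩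
    rw [h1, hμ.dil p hps, ub_mean_dvd hμ hqs, div_eq_mul_one_div, mul_comm]

private theorem ub_second (hμ : IsMeanOn s μ) (hs : ∀ p ∈ s, p.Prime) (f : ℕ → V)
    (hf : ∀ a b, 0 < a → 0 < b → f (a * b) = f a + f b) (c : V) (P : Finset ℕ) (hP : P ⊆ s) (t : ℝ) :
    0 ≤ t ^ 2 * μ (ubLev f c) + ∑ p ∈ P, (1 : ℝ) / p
      + 2 * t * ∑ p ∈ P, (μ (ubLev f (c - f p)) - μ (ubLev f c)) / p := by
  set L : ℝ := ∑ p ∈ P, (1 : ℝ) / p with hL
  have h := hμ.quad P (ubLev f c) t L
  have h1 : ∑ p ∈ P, ∑ q ∈ P, μ ({a | p ∣ a} ∩ {a | q ∣ a}) ≤ L ^ 2 + L := by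
    calc ∑ p ∈ P, ∑ q ∈ P, μ ({a | p ∣ a} ∩ {a | q ∣ a})
        ≤ ∑ p ∈ P, ∑ q ∈ P, ((1 / p) * (1 / q) + (if p = q then (1 : ℝ) / p else 0)) :=
          Finset.sum_le_sum fun p hp => Finset.sum_le_sum fun q hq =>
            ub_mean_dvd_dvd hμ (hs p (hP hp)) (hs q (hP hq)) (hP hp) (hP hq)
      _ = L ^ 2 + L := by
          simp only [Finset.sum_add_distrib]
          congr 1
          · rw [sq, hL, Finset.sum_mul_sum]
          · rw [hL]
            refine Finset.sum_congr rfl fun p hp => ?_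
            rw [Finset.sum_ite_eq]
            simp [hp]
  have h2 : ∑ p ∈ P, μ (ubLev f c ∩ {a | p ∣ a}) =
      ∑ p ∈ P, (μ (ubLev f (c - f p)) - μ (ubLev f c)) / p + μ (ubLev f c) * L := by
    rw [hL, Finset.mul_sum, ← Finset.sum_add_distrib]
    refine Finset.sum_congr rfl fun p hp => ?_
    rw [ub_mean_lev_inter hμ f hf c (hs p (hP hp)).pos (hP hp)]
    ring
  have h3 : ∑ p ∈ P, μ {a | p ∣ a} = L := by
    rw [hL]
    exact Finset.sum_congr rfl fun p hp => ub_mean_dvd hμ (hP hp)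
  rw [h2, h3] at h
  nlinarith [h, h1]

/-- drops by a fixed amount happen on sets of bounded mass -/
private theorem ub_drop (hμ : IsMeanOn s μ) (hs : ∀ p ∈ s, p.Prime) (f : ℕ → V)
    (hf : ∀ a b, 0 < a → 0 < b → f (a * b) = f a + f b) (c : V) (P : Finset ℕ) (hP : P ⊆ s) {g : ℝ} (hg : 0 < g)
    (hd : ∀ p ∈ P, μ (ubLev f (c - f p)) ≤ μ (ubLev f c) - g) : ∑ p ∈ P, (1 : ℝ) / p ≤ 1 / g ^ 2 := by
  set L : ℝ := ∑ p ∈ P, (1 : ℝ) / p with hL
  have h := ub_second hμ hs f hf c P hP (1 / g)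
  have h2 : ∑ p ∈ P, (μ (ubLev f (c - f p)) - μ (ubLev f c)) / p ≤ -g * L := by
    rw [hL, Finset.mul_sum]
    refine Finset.sum_le_sum fun p hp => ?_
    have h3 := hd p hp
    have h4 : (0 : ℝ) < p := by exact_mod_cast (hs p (hP hp)).pos
    rw [div_le_iff₀ h4]
    have : -g * (1 / (p : ℝ)) * p = -g := by field_simp
    rw [this]; linarith
  have h5 : 2 * (1 / g) * ∑ p ∈ P, (μ (ubLev f (c - f p)) - μ (ubLev f c)) / p ≤
      2 * (1 / g) * (-g * L) := mul_le_mul_of_nonneg_left h2 (by positivity)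
  have h6 : 2 * (1 / g) * (-g * L) = -2 * L := by field_simp
  have h7 : (1 / g) ^ 2 * μ (ubLev f c) ≤ (1 / g) ^ 2 * 1 :=
    mul_le_mul_of_nonneg_left (ub_le_one hμ _) (by positivity)
  have h8 : (1 / g) ^ 2 * 1 = 1 / g ^ 2 := by rw [mul_one, one_div_pow]
  rw [← hL] at h
  linarith

private theorem ub_lev_disj (f : ℕ → V) {c d : V} (h : c ≠ d) : Disjoint (ubLev f c) (ubLev f d) := by
  rw [Set.disjoint_left]
  rintro a ⟨-, h1⟩ ⟨-, h2⟩
  exact h (h1.symm.trans h2)

private theorem ub_sum_lev (hμ : IsMeanOn s μ) (f : ℕ → V) (S : Finset V) :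
    ∑ c ∈ S, μ (ubLev f c) = μ (⋃ c ∈ S, ubLev f c) := by
  classical
  induction S using Finset.induction_on with
  | empty => simp [ub_empty hμ]
  | insert c S hc ih =>
    rw [Finset.sum_insert hc, Finset.set_biUnion_insert, hμ.add, ih]
    rw [Set.disjoint_iUnion₂_right]
    intro d hd
    exact ub_lev_disj f (by rintro rfl; exact hc hd)

private theorem ub_card (hμ : IsMeanOn s μ) (f : ℕ → V) (S : Finset V) (η : ℝ)
    (h : ∀ c ∈ S, η ≤ μ (ubLev f c)) : (S.card : ℝ) * η ≤ 1 := by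
  have h1 : (S.card : ℝ) * η ≤ ∑ c ∈ S, μ (ubLev f c) := by
    rw [← nsmul_eq_mul]
    exact Finset.card_nsmul_le_sum _ _ _ fun c hc => h c hc
  rw [ub_sum_lev hμ] at h1
  exact h1.trans (ub_le_one hμ _)

private theorem ub_finite (hμ : IsMeanOn s μ) (f : ℕ → V) {η : ℝ} (hη : 0 < η) :
    {c | η ≤ μ (ubLev f c)}.Finite := by
  by_contra hinf
  have hinf' : {c | η ≤ μ (ubLev f c)}.Infinite := hinf
  obtain ⟨N, hN⟩ := exists_nat_gt (1 / η)
  obtain ⟨S, hS, hcard⟩ := hinf'.exists_subset_card_eq N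
  have h1 := ub_card hμ f S η fun c hc => hS hc
  rw [hcard] at h1
  rw [div_lt_iff₀ hη] at hN
  linarith

/-- a finite nonempty set is not invariant under a nonzero translation -/
private theorem ub_transl [Module ℚ V] (C : Finset V) (hC : C.Nonempty) (v : V)
    (hstep : ∀ d ∈ C, d - v ∈ C) : v = 0 := by
  classical
  have himg : C.image (fun d => d - v) = C := by
    refine Finset.eq_of_subset_of_card_le ?_ ?_
    · intro d hd
      obtain ⟨e, he, rfl⟩ := Finset.mem_image.mp hd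
      exact hstep e he
    · rw [Finset.card_image_of_injective]
      intro a b hab
      exact sub_left_injective hab
  have hsum : ∑ d ∈ C, d = ∑ d ∈ C, (d - v) := by
    conv_lhs => rw [← himg]
    rw [Finset.sum_image]
    intro a _ b _ hab
    exact sub_left_injective hab
  rw [Finset.sum_sub_distrib, Finset.sum_const] at hsum
  have h0 : C.card • v = 0 := by
    have := hsum
    rw [eq_comm, sub_eq_self] at this
    exact this
  have h1 : ((C.card : ℕ) : ℚ) • v = 0 := by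
    rw [Nat.cast_smul_eq_nsmul ℚ]; exact h0
  have hcard : C.card ≠ 0 := Finset.card_ne_zero.mpr hC
  rcases smul_eq_zero.mp h1 with h | h
  · exact absurd (by exact_mod_cast h) hcard
  · exact h

/-- the threshold -/
private theorem ub_threshold (hμ : IsMeanOn s μ) (f : ℕ → V) {q : ℝ} (hq : 0 < q) (N : ℕ) (hN : 2 / q < N) :
    ∃ t : ℝ, q / 2 ≤ t ∧ t ≤ q ∧ ∀ d, μ (ubLev f d) < t → μ (ubLev f d) ≤ t - q / 2 / N := by
  classical
  by_contra hcon
  push Not at hcon
  have hN0 : (0 : ℝ) < N := lt_trans (by positivity) hN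
  set g : ℝ := q / 2 / N with hg
  have hg0 : 0 < g := by positivity
  have hgN : g * N = q / 2 := by rw [hg]; field_simp
  have key : ∀ j : Fin N, ∃ d : V, μ (ubLev f d) < q - j * g ∧ q - j * g - g < μ (ubLev f d) := by
    intro j
    have hj : ((j : ℕ) : ℝ) + 1 ≤ N := by exact_mod_cast j.2
    have h1 : ((j : ℕ) : ℝ) * g + g ≤ q / 2 := by
      rw [← hgN]
      nlinarith
    obtain ⟨d, hd1, hd2⟩ := hcon (q - j * g) (by linarith) (by
      have : (0 : ℝ) ≤ ((j : ℕ) : ℝ) * g := by positivity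
      linarith)
    exact ⟨d, hd1, hd2⟩
  choose d hd1 hd2 using key
  have hlt : ∀ i j : Fin N, (i : ℕ) < j → μ (ubLev f (d j)) < μ (ubLev f (d i)) := by
    intro i j hij
    have h1 : ((i : ℕ) : ℝ) + 1 ≤ (j : ℕ) := by exact_mod_cast hij
    have h2 : ((i : ℕ) : ℝ) * g + g ≤ ((j : ℕ) : ℝ) * g := by nlinarith
    have h3 := hd1 j
    have h4 := hd2 i
    linarith
  have hinj : Function.Injective d := by
    intro i j hij
    rcases lt_trichotomy (i : ℕ) j with h | h | h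
    · have := hlt i j h
      rw [hij] at this
      exact absurd this (lt_irrefl _)
    · exact Fin.ext h
    · have := hlt j i h
      rw [hij] at this
      exact absurd this (lt_irrefl _)
  have hcard := ub_card hμ f (Finset.univ.image d) (q / 2) (by
    intro c hc
    obtain ⟨j, -, rfl⟩ := Finset.mem_image.mp hc
    have hj : ((j : ℕ) : ℝ) + 1 ≤ N := by exact_mod_cast j.2
    have h1 : ((j : ℕ) : ℝ) * g + g ≤ q / 2 := by
      rw [← hgN]
      nlinarith
    have := hd2 j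
    linarith)
  rw [Finset.card_image_of_injective _ hinj, Finset.card_univ, Fintype.card_fin] at hcard
  rw [div_lt_iff₀ hq] at hN
  linarith

end UBaux

open Classical in
/-- Quantitative form of `nlo` (Lib_MP_1eadae_la/NloD.lean, same proof): if an additive function
with values in a rational vector space has a level set of mass at least `q`, then the primes of `s`
on which it is not zero have bounded mass. (f 1 = 0 follows from additivity.)
Proof: values v c := μ {a > 0, f a = c}. The second moment inequality as in NloD.second, for P ⊆ s.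
At most 2 / q values c have v c ≥ q / 2. Some value is ≥ q. Hence there is a threshold: with
g := (q / 2) / (2 / q + 1) there is t in [q / 2, q] such that no value lies in (t - g, t) [the points
q - j g, 0 ≤ j ≤ 2 / q, give more than 2 / q disjoint intervals in (q/2, q]]; C := {c | v c ≥ t} is
finite, nonempty, of size at most 2 / q, and v d ≤ t - g for d not in C. For c in C, the mass of
{p in s | c - f p not in C} is at most 1 / g^2 (NloD.small_drop). If the mass of {p in s | f p ≠ 0}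
exceeded (2 / q) / g^2 there would be p in s with f p ≠ 0 and C - f p ⊆ C, impossible for a finite
nonempty set (sum of the elements). -/
theorem conc {q : ℝ} (hq : 0 < q) : ∃ Λ : ℝ, ∀ (s : Finset ℕ), (∀ p ∈ s, p.Prime) →
    ∀ μ : Set ℕ → ℝ, IsMeanOn s μ →
    ∀ (V : Type) [AddCommGroup V] [Module ℚ V] (f : ℕ → V),
      (∀ a b, 0 < a → 0 < b → f (a * b) = f a + f b) →
      ∀ c : V, q ≤ μ {a | 0 < a ∧ f a = c} →
        ∑ p ∈ s.filter (fun p => f p ≠ 0), (1 : ℝ) / p ≤ Λ := by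
  classical
  obtain ⟨N, hN⟩ := exists_nat_gt (2 / q)
  have hN0 : (0 : ℝ) < N := lt_trans (by positivity) hN
  refine ⟨2 / q * (1 / (q / 2 / N) ^ 2), ?_⟩
  intro s hs μ hμ V _ _ f hf c hc
  set g : ℝ := q / 2 / N with hg
  have hg0 : 0 < g := by positivity
  obtain ⟨t, ht1, ht2, ht3⟩ := ub_threshold hμ f hq N hN
  have ht0 : 0 < t := lt_of_lt_of_le (half_pos hq) ht1
  have hfin := ub_finite hμ f ht0
  set C : Finset V := hfin.toFinset with hC
  have hmem : ∀ d, d ∈ C ↔ t ≤ μ (ubLev f d) := fun d => by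
    rw [hC, Set.Finite.mem_toFinset]; rfl
  have hcC : c ∈ C := (hmem c).mpr (ht2.trans hc)
  have hCcard : (C.card : ℝ) ≤ 2 / q := by
    have h1 := ub_card hμ f C t fun d hd => (hmem d).mp hd
    have h2 : (C.card : ℝ) * (q / 2) ≤ 1 :=
      le_trans (mul_le_mul_of_nonneg_left ht1 (Nat.cast_nonneg _)) h1
    rw [le_div_iff₀ hq]
    linarith
  have hdrop : ∀ d ∈ C, ∑ p ∈ s.filter (fun p => d - f p ∉ C), (1 : ℝ) / p ≤ 1 / g ^ 2 := by
    intro d hd
    refine ub_drop hμ hs f hf d _ (Finset.filter_subset _ _) hg0 fun p hp => ?_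
    have h1 : d - f p ∉ C := (Finset.mem_filter.mp hp).2
    rw [hmem, not_le] at h1
    have h2 := ht3 _ h1
    have h3 := (hmem d).mp hd
    linarith
  have hone : ∀ p ∈ s.filter (fun p => f p ≠ 0),
      (1 : ℝ) / p ≤ ∑ d ∈ C, if d - f p ∉ C then (1 : ℝ) / p else 0 := by
    intro p hp
    have hfp : f p ≠ 0 := (Finset.mem_filter.mp hp).2
    obtain ⟨d, hd, hd2⟩ : ∃ d ∈ C, d - f p ∉ C := by
      by_contra hcon
      push Not at hcon
      exact hfp (ub_transl C ⟨c, hcC⟩ (f p) hcon)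
    have h1 : (if d - f p ∉ C then (1 : ℝ) / p else 0) ≤ ∑ d ∈ C, if d - f p ∉ C then (1 : ℝ) / p else 0 :=
      Finset.single_le_sum (f := fun d => if d - f p ∉ C then (1 : ℝ) / p else 0)
        (fun d _ => by
          change (0 : ℝ) ≤ if d - f p ∉ C then (1 : ℝ) / p else 0
          split_ifs <;> positivity) hd
    rw [if_pos hd2] at h1
    exact h1
  calc ∑ p ∈ s.filter (fun p => f p ≠ 0), (1 : ℝ) / p
      ≤ ∑ p ∈ s.filter (fun p => f p ≠ 0), ∑ d ∈ C, (if d - f p ∉ C then (1 : ℝ) / p else 0) :=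
        Finset.sum_le_sum hone
    _ ≤ ∑ p ∈ s, ∑ d ∈ C, (if d - f p ∉ C then (1 : ℝ) / p else 0) :=
        Finset.sum_le_sum_of_subset_of_nonneg (Finset.filter_subset _ _) fun p _ _ =>
          Finset.sum_nonneg fun d _ => by split_ifs <;> positivity
    _ = ∑ d ∈ C, ∑ p ∈ s, (if d - f p ∉ C then (1 : ℝ) / p else 0) := Finset.sum_comm
    _ = ∑ d ∈ C, ∑ p ∈ s.filter (fun p => d - f p ∉ C), (1 : ℝ) / p :=
        Finset.sum_congr rfl fun d _ => (Finset.sum_filter _ _).symm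
    _ ≤ ∑ d ∈ C, 1 / g ^ 2 := Finset.sum_le_sum hdrop
    _ = (C.card : ℝ) * (1 / g ^ 2) := by rw [Finset.sum_const, nsmul_eq_mul]
    _ ≤ 2 / q * (1 / g ^ 2) := mul_le_mul_of_nonneg_right hCcard (by positivity)

end Pool.Agent.LogAll
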