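import Pool.Agent.Lib_MP_1eadae_lu.UDefs

/-!
# Piece UC: differences of elements of bounded height
-/

set_option autoImplicit false

namespace Pool.Agent.LogAll

open Polynomial

open scoped nonZeroDivisors

/-- the integral closure of a finitely generated domain has a common denominator -/
private theorem conductor {k R : Type*} [Field k] [CharZero k] [CommRing R] [IsDomain R] [Algebra k R]
    [Algebra.FiniteType k R] :
    ∃ h : R, h ≠ 0 ∧ ∀ r s : R, s ≠ 0 →
      (∃ (n : ℕ) (a : ℕ → R), r ^ n + ∑ i ∈ Finset.range n, a i * r ^ i * s ^ (n - i) = 0) →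
      ∃ q : R, h * r = s * q := by
  classical
  obtain ⟨d, g, hg, hfin⟩ := exists_finite_inj_algHom_of_fg k R
  letI : Algebra (MvPolynomial (Fin d) k) R := g.toRingHom.toAlgebra
  haveI : Module.Finite (MvPolynomial (Fin d) k) R := hfin
  haveI : FaithfulSMul (MvPolynomial (Fin d) k) R := (faithfulSMul_iff_algebraMap_injective _ _).2 hg
  haveI : Algebra.IsIntegral (MvPolynomial (Fin d) k) R := Algebra.IsIntegral.of_finite _ _
  letI : Algebra (MvPolynomial (Fin d) k) (FractionRing R) := inferInstance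
  haveI : FaithfulSMul (MvPolynomial (Fin d) k) (FractionRing R) :=
    FaithfulSMul.trans (MvPolynomial (Fin d) k) R (FractionRing R)
  letI : Algebra (FractionRing (MvPolynomial (Fin d) k)) (FractionRing R) := FractionRing.liftAlgebra _ _
  haveI : IsScalarTower (MvPolynomial (Fin d) k) (FractionRing (MvPolynomial (Fin d) k)) (FractionRing R) :=
    FractionRing.isScalarTower_liftAlgebra _ _
  haveI : FiniteDimensional (FractionRing (MvPolynomial (Fin d) k)) (FractionRing R) :=
    Module.Finite.of_isLocalization (MvPolynomial (Fin d) k) R (MvPolynomial (Fin d) k)⁰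
  haveI : CharZero (MvPolynomial (Fin d) k) := inferInstance
  haveI : CharZero (FractionRing (MvPolynomial (Fin d) k)) := inferInstance
  haveI : Algebra.IsSeparable (FractionRing (MvPolynomial (Fin d) k)) (FractionRing R) := inferInstance
  haveI hC : Module.Finite (MvPolynomial (Fin d) k) (integralClosure (MvPolynomial (Fin d) k) (FractionRing R)) :=
    IsIntegralClosure.finite (MvPolynomial (Fin d) k) (FractionRing (MvPolynomial (Fin d) k)) (FractionRing R) _
  obtain ⟨T, hT⟩ := hC.fg_top
  obtain ⟨b, hb⟩ := IsLocalization.exist_integer_multiples_of_finset R⁰ (Finset.image Subtype.val T)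
  have hall : ∀ y : integralClosure (MvPolynomial (Fin d) k) (FractionRing R),
      ∃ q : R, algebraMap R (FractionRing R) (b : R) * (y : FractionRing R) = algebraMap R (FractionRing R) q := by
    intro y
    have hy : y ∈ Submodule.span (MvPolynomial (Fin d) k) (T : Set (integralClosure (MvPolynomial (Fin d) k) (FractionRing R))) := by
      rw [hT]
      exact Submodule.mem_top
    induction hy using Submodule.span_induction with
    | mem x hx =>
      obtain ⟨q, hq⟩ := hb (x : FractionRing R) (Finset.mem_image_of_mem _ hx)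
      refine ⟨q, ?_⟩
      rw [hq, Algebra.smul_def]
    | zero => exact ⟨0, by simp⟩
    | add x y _ _ hx hy =>
      obtain ⟨q1, h1⟩ := hx
      obtain ⟨q2, h2⟩ := hy
      refine ⟨q1 + q2, ?_⟩
      rw [map_add, ← h1, ← h2, ← mul_add]
      rfl
    | smul c x _ hx =>
      obtain ⟨q, h1⟩ := hx
      refine ⟨g c * q, ?_⟩
      have h2 : ((c • x : integralClosure (MvPolynomial (Fin d) k) (FractionRing R)) : FractionRing R)
          = algebraMap R (FractionRing R) (g c) * (x : FractionRing R) := by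
        have h3 : ((c • x : integralClosure (MvPolynomial (Fin d) k) (FractionRing R)) : FractionRing R)
          = c • (x : FractionRing R) := rfl
        rw [h3, Algebra.smul_def]
        rfl
      rw [h2, map_mul, ← h1]
      ring
  refine ⟨b, nonZeroDivisors.ne_zero b.2, ?_⟩
  rintro r s hs ⟨n, a, hra⟩
  have hs' : algebraMap R (FractionRing R) s ≠ 0 := by
    rw [Ne, IsFractionRing.to_map_eq_zero_iff]
    exact hs
  have hdeg : (∑ i ∈ Finset.range n, C (a i) * X ^ i : R[X]).degree < (n : WithBot ℕ) := by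
    refine mem_degreeLT.1 (Submodule.sum_mem _ fun i hi => mem_degreeLT.2 ?_)
    refine (degree_C_mul_X_pow_le i (a i)).trans_lt ?_
    exact_mod_cast Finset.mem_range.1 hi
  have hint : IsIntegral R (algebraMap R (FractionRing R) r / algebraMap R (FractionRing R) s) := by
    refine ⟨X ^ n + ∑ i ∈ Finset.range n, C (a i) * X ^ i, monic_X_pow_add hdeg, ?_⟩
    rw [eval₂_add, eval₂_finset_sum, eval₂_X_pow]
    have h1 := congrArg (algebraMap R (FractionRing R)) hra
    rw [map_add, map_sum, map_pow, map_zero] at h1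
    have h2 : (algebraMap R (FractionRing R) r / algebraMap R (FractionRing R) s) ^ n +
        ∑ i ∈ Finset.range n, eval₂ (algebraMap R (FractionRing R))
          (algebraMap R (FractionRing R) r / algebraMap R (FractionRing R) s) (C (a i) * X ^ i)
        = (algebraMap R (FractionRing R) r ^ n +
          ∑ i ∈ Finset.range n, algebraMap R (FractionRing R) (a i * r ^ i * s ^ (n - i))) /
            algebraMap R (FractionRing R) s ^ n := by
      rw [add_div, div_pow, Finset.sum_div]
      congr 1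
      apply Finset.sum_congr rfl
      intro i hi
      rw [eval₂_mul, eval₂_C, eval₂_X_pow, map_mul, map_mul, map_pow, map_pow, div_pow]
      have h3 : algebraMap R (FractionRing R) s ^ n =
          algebraMap R (FractionRing R) s ^ i * algebraMap R (FractionRing R) s ^ (n - i) := by
        rw [← pow_add, Nat.add_sub_cancel' (Finset.mem_range.1 hi).le]
      rw [h3]
      field_simp
    rw [h2, h1, zero_div]
  have hintA : IsIntegral (MvPolynomial (Fin d) k)
      (algebraMap R (FractionRing R) r / algebraMap R (FractionRing R) s) := isIntegral_trans _ hint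
  obtain ⟨q, hq⟩ := hall ⟨_, hintA⟩
  refine ⟨q, IsFractionRing.injective R (FractionRing R) ?_⟩
  rw [map_mul, map_mul, ← hq]
  field_simp

section

variable {k K : Type*} [Field k] [Field K] [Algebra k K]

private theorem pow_mono' {M : Submodule k K} (h1 : (1 : K) ∈ M) {i j : ℕ} (hij : i ≤ j) : M ^ i ≤ M ^ j := by
  induction j, hij using Nat.le_induction with
  | base => exact le_rfl
  | succ j _ ih =>
    refine ih.trans fun x hx => ?_
    rw [pow_succ]
    have h2 := Submodule.mul_mem_mul hx h1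
    rwa [mul_one] at h2

private theorem adjoin_pow {M : Submodule k K} (h1 : (1 : K) ∈ M) {x : K} (hx : x ∈ Algebra.adjoin k (M : Set K)) :
    ∃ e : ℕ, x ∈ M ^ e := by
  induction hx using Algebra.adjoin_induction with
  | mem x hx => exact ⟨1, by rw [pow_one]; exact hx⟩
  | algebraMap c =>
    refine ⟨0, ?_⟩
    rw [pow_zero]
    exact Submodule.algebraMap_mem c
  | add x y _ _ hx hy =>
    obtain ⟨e1, h1'⟩ := hx
    obtain ⟨e2, h2'⟩ := hy
    exact ⟨max e1 e2, add_mem (pow_mono' h1 (le_max_left _ _) h1') (pow_mono' h1 (le_max_right _ _) h2')⟩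
  | mul x y _ _ hx hy =>
    obtain ⟨e1, h1'⟩ := hx
    obtain ⟨e2, h2'⟩ := hy
    refine ⟨e1 + e2, ?_⟩
    rw [pow_add]
    exact Submodule.mul_mem_mul h1' h2'

private theorem field_pow {M : Submodule k K} (h1 : (1 : K) ∈ M) {x : K} (hx : x ∈ IntermediateField.adjoin k (M : Set K)) :
    ∃ e : ℕ, ∃ r ∈ M ^ e, ∃ s ∈ M ^ e, s ≠ 0 ∧ x * s = r := by
  rw [IntermediateField.mem_adjoin_iff_div] at hx
  obtain ⟨r, hr, s, hs, rfl⟩ := hx
  by_cases h0 : s = 0
  · refine ⟨0, 0, zero_mem _, 1, ?_, one_ne_zero, by rw [h0, div_zero, zero_mul]⟩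
    rw [pow_zero]
    exact Submodule.mem_one.2 ⟨1, map_one _⟩
  · obtain ⟨e1, h1'⟩ := adjoin_pow h1 hr
    obtain ⟨e2, h2'⟩ := adjoin_pow h1 hs
    exact ⟨max e1 e2, r, pow_mono' h1 (le_max_left _ _) h1', s, pow_mono' h1 (le_max_right _ _) h2', h0,
      div_mul_cancel₀ r h0⟩

/-- the ring generated by the `m X` -/
private noncomputable def RX (k : Type*) {K : Type*} [Field k] [Field K] [Algebra k K] (S : Finset K) : Subalgebra k K[X] :=
  Algebra.adjoin k ((fun m => C m * X) '' (S : Set K))

private theorem RX_ft (S : Finset K) : Algebra.FiniteType k (RX k S) := by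
  classical
  rw [← Subalgebra.fg_iff_finiteType]
  refine ⟨S.image (fun m => C m * X), ?_⟩
  rw [Finset.coe_image]
  rfl

private theorem RX_gen {M : Submodule k K} {S : Finset K} (hS : Submodule.span k (S : Set K) = M) {m : K} (hm : m ∈ M) :
    C m * X ∈ RX k S := by
  rw [← hS] at hm
  induction hm using Submodule.span_induction with
  | mem x hx => exact Algebra.subset_adjoin ⟨x, hx, rfl⟩
  | zero =>
    rw [C_0, zero_mul]
    exact zero_mem _
  | add x y _ _ hx hy =>
    rw [C_add, add_mul]
    exact add_mem hx hy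
  | smul c x _ hx =>
    have h1 : C (c • x) * X = c • (C x * X : K[X]) := by
      rw [← smul_C, smul_mul_assoc]
    rw [h1]
    exact Subalgebra.smul_mem _ hx c

private theorem RX_pow {M : Submodule k K} {S : Finset K} (hS : Submodule.span k (S : Set K) = M) (j : ℕ) :
    ∀ c ∈ M ^ j, C c * X ^ j ∈ RX k S := by
  induction j with
  | zero =>
    intro c hc
    rw [pow_zero] at hc
    obtain ⟨c', rfl⟩ := Submodule.mem_one.1 hc
    rw [pow_zero, mul_one]
    exact Subalgebra.algebraMap_mem (RX k S) c'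
  | succ j ih =>
    intro c hc
    rw [pow_succ] at hc
    induction hc using Submodule.mul_induction_on' with
    | mem_mul_mem m hm n hn =>
      have h1 : C (m * n) * X ^ (j + 1) = (C m * X ^ j) * (C n * X : K[X]) := by
        rw [C_mul, pow_succ]
        ring
      rw [h1]
      exact mul_mem (ih m hm) (RX_gen hS hn)
    | add x _ y _ hx hy =>
      rw [C_add, add_mul]
      exact add_mem hx hy

private theorem RX_coeff {M : Submodule k K} {S : Finset K} (hS : Submodule.span k (S : Set K) = M) {f : K[X]}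
    (hf : f ∈ RX k S) : ∀ i, f.coeff i ∈ M ^ i := by
  induction hf using Algebra.adjoin_induction with
  | mem x hx =>
    obtain ⟨m, hm, rfl⟩ := hx
    intro i
    have hm' : m ∈ M := by
      rw [← hS]
      exact Submodule.subset_span hm
    simp only [coeff_C_mul, coeff_X]
    by_cases h : 1 = i
    · rw [if_pos h, mul_one, ← h, pow_one]
      exact hm'
    · rw [if_neg h, mul_zero]
      exact zero_mem _
  | algebraMap c =>
    intro i
    have h1 : algebraMap k K[X] c = C (algebraMap k K c) := rfl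
    rw [h1, coeff_C]
    by_cases h : i = 0
    · rw [if_pos h, h, pow_zero]
      exact Submodule.algebraMap_mem c
    · rw [if_neg h]
      exact zero_mem _
  | add x y _ _ hx hy =>
    intro i
    rw [coeff_add]
    exact add_mem (hx i) (hy i)
  | mul x y _ _ hx hy =>
    intro i
    rw [coeff_mul]
    refine sum_mem fun c hc => ?_
    rw [← Finset.HasAntidiagonal.mem_antidiagonal.mp hc, pow_add]
    exact Submodule.mul_mem_mul (hx _) (hy _)

end

section

variable {k K : Type*} [Field k] [Field K] [Algebra k K]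

/-- `lead(P) z X` is integral over the ring generated by the `m X` when `P(z) = 0` -/
private theorem bad_integral {M : Submodule k K} {S : Finset K} (hS : Submodule.span k (S : Set K) = M)
    {z : K} {P : K[X]} (hP0 : P ≠ 0) (hPM : ∀ i, P.coeff i ∈ M) (hPz : P.eval z = 0) :
    IsIntegral (RX k S) (C (P.leadingCoeff * z) * X : K[X]) := by
  have hn : P.natDegree ≠ 0 := by
    intro hn
    rw [eq_C_of_natDegree_eq_zero hn, eval_C] at hPz
    apply hP0
    rw [eq_C_of_natDegree_eq_zero hn, hPz, C_0]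
  obtain ⟨n, hn'⟩ : ∃ n, P.natDegree = n + 1 := ⟨P.natDegree - 1, by omega⟩
  have hlcP : P.leadingCoeff ∈ M := hPM _
  have ha : ∀ i, i < n + 1 → C (P.coeff i * P.leadingCoeff ^ (n - i)) * X ^ (n + 1 - i) ∈ RX k S := by
    intro i hi
    apply RX_pow hS
    have h2 : n + 1 - i = (n - i) + 1 := by omega
    rw [h2, pow_succ']
    exact Submodule.mul_mem_mul (hPM i) (Submodule.pow_mem_pow M hlcP _)
  obtain ⟨a, haa⟩ : ∃ a : ℕ → RX k S, ∀ i, i < n + 1 →
      (a i : K[X]) = C (P.coeff i * P.leadingCoeff ^ (n - i)) * X ^ (n + 1 - i) := by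
    refine ⟨fun i => if hi : i < n + 1 then ⟨_, ha i hi⟩ else 0, ?_⟩
    intro i hi
    simp only [dif_pos hi]
  have hdeg : (∑ i ∈ Finset.range (n + 1), C (a i) * X ^ i : (RX k S)[X]).degree < ((n + 1 : ℕ) : WithBot ℕ) := by
    refine mem_degreeLT.1 (Submodule.sum_mem _ fun i hi => mem_degreeLT.2 ?_)
    refine (degree_C_mul_X_pow_le i (a i)).trans_lt ?_
    exact_mod_cast Finset.mem_range.1 hi
  refine ⟨X ^ (n + 1) + ∑ i ∈ Finset.range (n + 1), C (a i) * X ^ i, monic_X_pow_add hdeg, ?_⟩
  rw [eval₂_add, eval₂_finset_sum, eval₂_X_pow]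
  have hsum : ∀ i ∈ Finset.range (n + 1),
      eval₂ (algebraMap (RX k S) K[X]) (C (P.leadingCoeff * z) * X : K[X]) (C (a i) * X ^ i)
      = C (P.leadingCoeff ^ n * (P.coeff i * z ^ i)) * X ^ (n + 1) := by
    intro i hi
    have hi' : i < n + 1 := Finset.mem_range.1 hi
    rw [eval₂_mul, eval₂_C, eval₂_X_pow]
    have h3 : algebraMap (RX k S) K[X] (a i) = (a i : K[X]) := rfl
    rw [h3, haa i hi']
    have e4 : P.leadingCoeff ^ n = P.leadingCoeff ^ (n - i) * P.leadingCoeff ^ i := by
      rw [← pow_add]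
      congr 1
      omega
    have e5 : (X : K[X]) ^ (n + 1) = X ^ (n + 1 - i) * X ^ i := by
      rw [← pow_add]
      congr 1
      omega
    rw [e4, e5]
    simp only [mul_pow, C_mul, C_pow]
    ring
  rw [Finset.sum_congr rfl hsum, ← Finset.sum_mul, ← map_sum, ← Finset.mul_sum]
  have hlast : (C (P.leadingCoeff * z) * X : K[X]) ^ (n + 1) =
      C (P.leadingCoeff ^ n * (P.coeff (n + 1) * z ^ (n + 1))) * X ^ (n + 1) := by
    have e2 : P.leadingCoeff ^ n * (P.coeff (n + 1) * z ^ (n + 1)) = (P.leadingCoeff * z) ^ (n + 1) := by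
      rw [← hn', coeff_natDegree]
      rw [hn']
      ring
    rw [e2, mul_pow, ← C_pow]
  rw [hlast, ← add_mul, ← C_add, ← mul_add]
  have e3 : P.coeff (n + 1) * z ^ (n + 1) + ∑ i ∈ Finset.range (n + 1), P.coeff i * z ^ i = 0 := by
    rw [eval_eq_sum_range, hn', Finset.sum_range_succ] at hPz
    rw [← hPz]
    ring
  rw [e3, mul_zero, C_0, zero_mul]

/-- an integral relation with the denominators cleared -/
private theorem int_rel {A : Subalgebra k K[X]} {y : K[X]} (hy : IsIntegral A y) {r s : A}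
    (hrs : y * (s : K[X]) = (r : K[X])) :
    ∃ (n : ℕ) (a : ℕ → A), r ^ n + ∑ i ∈ Finset.range n, a i * r ^ i * s ^ (n - i) = 0 := by
  obtain ⟨p, hp, hpy⟩ := hy
  refine ⟨p.natDegree, p.coeff, ?_⟩
  apply Subtype.ext
  rw [Subalgebra.coe_add, Subalgebra.coe_pow, AddSubmonoidClass.coe_finsetSum, Subalgebra.coe_zero]
  rw [eval₂_eq_sum_range, Finset.sum_range_succ, hp.coeff_natDegree, map_one, one_mul] at hpy
  have h1 : (y ^ p.natDegree + ∑ i ∈ Finset.range p.natDegree, (algebraMap A K[X]) (p.coeff i) * y ^ i)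
      * (s : K[X]) ^ p.natDegree = 0 := by
    rw [add_comm (y ^ p.natDegree), hpy, zero_mul]
  rw [← h1, add_mul, Finset.sum_mul, ← mul_pow, hrs]
  congr 1
  apply Finset.sum_congr rfl
  intro i hi
  have hi' : i < p.natDegree := Finset.mem_range.1 hi
  have e3 : (s : K[X]) ^ p.natDegree = (s : K[X]) ^ i * (s : K[X]) ^ (p.natDegree - i) := by
    rw [← pow_add]
    congr 1
    omega
  rw [e3, Subalgebra.coe_mul, Subalgebra.coe_mul, Subalgebra.coe_pow, Subalgebra.coe_pow, ← hrs]
  have h4 : (algebraMap A K[X]) (p.coeff i) = ((p.coeff i : A) : K[X]) := rfl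
  rw [h4]
  ring

end

/-- As `height_fd` (Lib_MP_1eadae_la/HtB.lean) for the difference of two elements `z`, `w` of bounded
height, when only `z - w` lies in the finitely generated field `k(M₁)`.
Proof. R₁ = the k-subalgebra of K[X] generated by the m X, m in M₁, contains R₀ (same with M₀). If
P(z) = 0, P with coefficients in M₀, leading coefficient m, then C (m z) X is integral over R₀;
the same for w with leading coefficient m'. Hence C (m m' (z - w)) X^2 = (m' X)(m z X) - (m X)(m' w X)
is integral over R₁, and m m' (z - w) lies in k(M₁), so it lies in Frac R₁ (times X^2), and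
h C (m m' (z - w)) X^2 ∈ R₁ for the conductor element h: the coefficient of X^(e + 2), e = deg h,
gives lead(h) m m' (z - w) ∈ M₁^(e+2). -/
theorem height_diff {k K : Type*} [Field k] [Field K] [Algebra k K] [CharZero k]
    (M₀ M₁ : Submodule k K) (h01 : M₀ ≤ M₁) (hM₁ : FiniteDimensional k M₁) (h1 : (1 : K) ∈ M₀) :
    ∃ N : Submodule k K, FiniteDimensional k N ∧
      ∀ (D : ℕ) (z w : K), z - w ∈ IntermediateField.adjoin k (M₁ : Set K) →
        BadK M₀ D z → BadK M₀ D w → ∃ m ∈ M₀ * M₀, m ≠ 0 ∧ m * (z - w) ∈ N := by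
  obtain ⟨S, hS⟩ : ∃ S : Finset K, Submodule.span k (S : Set K) = M₁ := (Submodule.fg_iff_finiteDimensional M₁).2 hM₁
  have h1' : (1 : K) ∈ M₁ := h01 h1
  haveI := RX_ft (k := k) S
  obtain ⟨⟨h, hR⟩, h0, hcond⟩ := conductor (k := k) (R := RX k S)
  have h0' : h ≠ 0 := fun e => h0 (Subtype.ext e)
  have hlc : h.leadingCoeff ≠ 0 := leadingCoeff_ne_zero.2 h0'
  refine ⟨(M₁ ^ (h.natDegree + 2)).map (LinearMap.mulLeft k h.leadingCoeff⁻¹), ?_, ?_⟩
  · have : FiniteDimensional k (M₁ ^ (h.natDegree + 2) : Submodule k K) := by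
      rw [← Submodule.fg_iff_finiteDimensional]
      exact Submodule.FG.pow ((Submodule.fg_iff_finiteDimensional M₁).2 hM₁) _
    infer_instance
  · rintro D z w hzw ⟨P, hP0, _, hPM, hPz⟩ ⟨Q, hQ0, _, hQM, hQw⟩
    have hlP : P.leadingCoeff ∈ M₀ := hPM _
    have hlQ : Q.leadingCoeff ∈ M₀ := hQM _
    refine ⟨P.leadingCoeff * Q.leadingCoeff, Submodule.mul_mem_mul hlP hlQ,
      mul_ne_zero (leadingCoeff_ne_zero.2 hP0) (leadingCoeff_ne_zero.2 hQ0), ?_⟩
    have hmem : P.leadingCoeff * Q.leadingCoeff * (z - w) ∈ IntermediateField.adjoin k (M₁ : Set K) :=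
      mul_mem (mul_mem (IntermediateField.subset_adjoin k _ (h01 hlP))
        (IntermediateField.subset_adjoin k _ (h01 hlQ))) hzw
    obtain ⟨e, r, hr, s, hs, hs0, hrs⟩ := field_pow h1' hmem
    have hr' : C r * X ^ (e + 2) ∈ RX k S := RX_pow hS (e + 2) r (pow_mono' h1' (by omega) hr)
    have hs' : C s * X ^ e ∈ RX k S := RX_pow hS e s hs
    have hI1 : IsIntegral (RX k S) (C (P.leadingCoeff * z) * X : K[X]) :=
      bad_integral hS hP0 (fun i => h01 (hPM i)) hPz
    have hI2 : IsIntegral (RX k S) (C (Q.leadingCoeff * w) * X : K[X]) :=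
      bad_integral hS hQ0 (fun i => h01 (hQM i)) hQw
    have hA1 : IsIntegral (RX k S) (C P.leadingCoeff * X : K[X]) :=
      isIntegral_algebraMap (x := (⟨_, RX_gen hS (h01 hlP)⟩ : RX k S))
    have hA2 : IsIntegral (RX k S) (C Q.leadingCoeff * X : K[X]) :=
      isIntegral_algebraMap (x := (⟨_, RX_gen hS (h01 hlQ)⟩ : RX k S))
    have hI : IsIntegral (RX k S) (C (P.leadingCoeff * Q.leadingCoeff * (z - w)) * X ^ 2 : K[X]) := by
      have h3 := (hA2.mul hI1).sub (hA1.mul hI2)
      have h4 : (C Q.leadingCoeff * X : K[X]) * (C (P.leadingCoeff * z) * X) -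
          (C P.leadingCoeff * X) * (C (Q.leadingCoeff * w) * X)
          = C (P.leadingCoeff * Q.leadingCoeff * (z - w)) * X ^ 2 := by
        simp only [C_mul, C_sub]
        ring
      rwa [h4] at h3
    have hys : (C (P.leadingCoeff * Q.leadingCoeff * (z - w)) * X ^ 2 : K[X]) * (C s * X ^ e)
        = C r * X ^ (e + 2) := by
      rw [← hrs, C_mul (b := s), pow_add]
      ring
    have hkey := int_rel (r := (⟨_, hr'⟩ : RX k S)) (s := (⟨_, hs'⟩ : RX k S)) hI hys
    obtain ⟨⟨q, hq⟩, hq2⟩ := hcond ⟨_, hr'⟩ ⟨_, hs'⟩ (fun e' => by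
        have e2 : C s * X ^ e = 0 := congrArg Subtype.val e'
        rw [mul_eq_zero] at e2
        rcases e2 with e2 | e2
        · exact hs0 (C_eq_zero.1 e2)
        · exact pow_ne_zero _ X_ne_zero e2) hkey
    have hq3 : h * (C r * X ^ (e + 2)) = C s * X ^ e * q := congrArg Subtype.val hq2
    have hq4 : C s * X ^ e * (h * (C (P.leadingCoeff * Q.leadingCoeff * (z - w)) * X ^ 2)) = C s * X ^ e * q := by
      rw [← hq3, ← hys]
      ring
    have hne : C s * X ^ e ≠ 0 := mul_ne_zero (fun e2 => hs0 (C_eq_zero.1 e2)) (pow_ne_zero _ X_ne_zero)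
    have hq5 := mul_left_cancel₀ hne hq4
    have hq6 := RX_coeff hS hq (h.natDegree + 2)
    rw [← hq5, ← mul_assoc, coeff_mul_X_pow, coeff_mul_C] at hq6
    refine ⟨_, hq6, ?_⟩
    rw [LinearMap.mulLeft_apply]
    exact inv_mul_cancel_left₀ hlc _

end Pool.Agent.LogAll
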