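import Pool.Agent.Lib_MP_1eadae_lu.UA
import Pool.Agent.Lib_MP_1eadae_lu.UB
import Pool.Agent.Lib_MP_1eadae_lu.UC
import Pool.Agent.Lib_MP_1eadae_la.GalE
import Pool.Agent.Lib_MP_1eadae_la.Defs

/-!
# Piece UZ: the main theorem for an abstract field
-/

set_option autoImplicit false

namespace Pool.Agent.LogAll

open Polynomial Filter Topology

/-! ### means -/

theorem IsMeanOn.empty {s : Finset ℕ} {μ : Set ℕ → ℝ} (hμ : IsMeanOn s μ) : μ ∅ = 0 := by
  have := hμ.add ∅ ∅ disjoint_bot_left
  rw [Set.union_empty] at this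
  linarith

theorem IsMeanOn.union_le {s : Finset ℕ} {μ : Set ℕ → ℝ} (hμ : IsMeanOn s μ) (A B : Set ℕ) :
    μ (A ∪ B) ≤ μ A + μ B := by
  have h1 : μ (A ∪ (B \ A)) = μ A + μ (B \ A) := hμ.add _ _ disjoint_sdiff_self_right
  rw [Set.union_sdiff_self] at h1
  have h2 := hμ.mono (B \ A) B Set.sdiff_subset
  linarith

theorem IsMeanOn.le_diff {s : Finset ℕ} {μ : Set ℕ → ℝ} (hμ : IsMeanOn s μ) (A B : Set ℕ) :
    μ A ≤ μ (A \ B) + μ B := by
  have h1 := hμ.union_le (A \ B) B
  have h2 := hμ.mono A ((A \ B) ∪ B) (by rw [Set.sdiff_union_self]; exact Set.subset_union_left)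
  linarith

theorem IsMeanOn.biUnion_le {s : Finset ℕ} {μ : Set ℕ → ℝ} (hμ : IsMeanOn s μ) {ι : Type*}
    (t : Finset ι) (A : ι → Set ℕ) : μ (⋃ i ∈ t, A i) ≤ ∑ i ∈ t, μ (A i) := by
  classical
  induction t using Finset.induction_on with
  | empty => simp [hμ.empty]
  | insert i t hit ih =>
    rw [Finset.set_biUnion_insert, Finset.sum_insert hit]
    have h1 := hμ.union_le (A i) (⋃ j ∈ t, A j)
    linarith

theorem IsMeanOn.dvd {s : Finset ℕ} {μ : Set ℕ → ℝ} (hμ : IsMeanOn s μ) {p : ℕ} (hp : p ∈ s) :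
    μ {a | p ∣ a} = 1 / p := by
  have h1 : {a : ℕ | p ∣ a} = (fun a => p * a) '' Set.univ := by
    ext a
    constructor
    · rintro ⟨b, rfl⟩; exact ⟨b, trivial, rfl⟩
    · rintro ⟨b, -, rfl⟩; exact Dvd.intro b rfl
  rw [h1, hμ.dil p hp, hμ.univ]

/-- integers with a prime factor in `T` -/
theorem IsMeanOn.primes {s : Finset ℕ} {μ : Set ℕ → ℝ} (hμ : IsMeanOn s μ) (T : Set ℕ)
    [DecidablePred (· ∈ T)] (hT : ∀ p ∈ T, p.Prime) :
    μ {a | ∃ p ∈ T, p ∣ a} ≤ ∑ p ∈ s.filter (· ∈ T), (1 : ℝ) / p := by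
  have h1 : {a : ℕ | ∃ p ∈ T, p ∣ a} ⊆
      (Nat.factoredNumbers s)ᶜ ∪ ⋃ p ∈ s.filter (· ∈ T), {a | p ∣ a} := by
    rintro a ⟨p, hp, hpa⟩
    by_cases ha : a ∈ Nat.factoredNumbers s
    · refine Or.inr ?_
      have hps : p ∈ s := by
        have := Nat.primeFactors_subset_of_mem_factoredNumbers ha
        exact this (Nat.mem_primeFactors.2 ⟨hT p hp, hpa, Nat.ne_zero_of_mem_factoredNumbers ha⟩)
      exact Set.mem_biUnion (show p ∈ s.filter (· ∈ T) from Finset.mem_filter.2 ⟨hps, hp⟩) hpa
    · exact Or.inl ha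
  have h2 := hμ.mono _ _ h1
  have h3 := hμ.union_le (Nat.factoredNumbers s)ᶜ (⋃ p ∈ s.filter (· ∈ T), {a | p ∣ a})
  have h4 := hμ.biUnion_le (s.filter (· ∈ T)) (fun p => {a | p ∣ a})
  have h5 : ∑ p ∈ s.filter (· ∈ T), μ {a | p ∣ a} = ∑ p ∈ s.filter (· ∈ T), (1 : ℝ) / p :=
    Finset.sum_congr rfl fun p hp => hμ.dvd (Finset.mem_filter.1 hp).1
  rw [hμ.supp] at h3
  linarith

/-! ### masses of sets of primes -/

open Classical in
/-- mass of the primes below `z` in `T` -/
noncomputable def mass (z : ℕ) (T : Set ℕ) : ℝ :=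
  ∑ p ∈ (Nat.primesBelow z).filter (· ∈ T), (1 : ℝ) / p

theorem small_of_mass_le {T : Set ℕ} {C : ℝ} (h : ∀ z, mass z T ≤ C) : Small T := by
  classical
  unfold Small
  refine summable_of_sum_le (c := C)
    (fun p => Set.indicator_nonneg (fun p _ => by positivity) p) fun F => ?_
  refine le_trans ?_ (h (F.sup id + 1))
  unfold mass
  have h1 : ∑ p ∈ F, ({p : ℕ | p.Prime ∧ p ∈ T}.indicator (fun p : ℕ => (1 : ℝ) / p)) p =
      ∑ p ∈ F.filter (fun p => p.Prime ∧ p ∈ T), (1 : ℝ) / p := by
    rw [Finset.sum_filter]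
    exact Finset.sum_congr rfl fun p _ => by rw [Set.indicator_apply]; rfl
  rw [h1]
  refine Finset.sum_le_sum_of_subset_of_nonneg ?_ (fun p _ _ => by positivity)
  intro p hp
  rw [Finset.mem_filter] at hp ⊢
  refine ⟨?_, hp.2.2⟩
  rw [Nat.mem_primesBelow]
  refine ⟨?_, hp.2.1⟩
  have : p ≤ F.sup id := Finset.le_sup (f := id) hp.1
  omega

theorem mass_mono {T : Set ℕ} {z z' : ℕ} (h : z ≤ z') : mass z T ≤ mass z' T := by
  classical
  unfold mass
  refine Finset.sum_le_sum_of_subset_of_nonneg ?_ (fun p _ _ => by positivity)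
  intro p hp
  rw [Finset.mem_filter, Nat.mem_primesBelow] at hp ⊢
  exact ⟨⟨lt_of_lt_of_le hp.1.1 h, hp.1.2⟩, hp.2⟩

theorem eventually_mass_gt {T : Set ℕ} (h : ¬ Small T) (C : ℝ) :
    ∀ᶠ z in atTop, C < mass z T := by
  have h1 : ∃ z, C < mass z T := by
    by_contra hcon
    push Not at hcon
    exact h (small_of_mass_le hcon)
  obtain ⟨z₀, hz₀⟩ := h1
  filter_upwards [eventually_ge_atTop z₀] with z hz
  exact lt_of_lt_of_le hz₀ (mass_mono hz)

theorem prime_below (z : ℕ) : ∀ p ∈ Nat.primesBelow z, p.Prime := fun p hp =>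
  Nat.prime_of_mem_primesBelow hp

/-- additive functions which are nonzero on a set of primes of infinite mass are spread -/
theorem not_small_lt {V : Type} [AddCommGroup V] [Module ℚ V] (f : ℕ → V)
    (hf : ∀ a b, 0 < a → 0 < b → f (a * b) = f a + f b) (hS : ¬ Small {p | f p ≠ 0})
    {q : ℝ} (hq : 0 < q) :
    ∀ᶠ z in atTop, ∀ c : V, SM (Nat.primesBelow z) {v | 0 < v ∧ f v = c} < q := by
  classical
  obtain ⟨Λ, hΛ⟩ := conc hq
  filter_upwards [eventually_mass_gt hS Λ] with z hz c
  by_contra hcon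
  push Not at hcon
  have h1 := hΛ (Nat.primesBelow z) (prime_below z) (SM (Nat.primesBelow z))
    (sm_mean _ (prime_below z)) V f hf c hcon
  refine absurd (lt_of_lt_of_le hz (le_trans (le_of_eq ?_) h1)) (lt_irrefl _)
  unfold mass
  refine Finset.sum_congr ?_ fun _ _ => rfl
  ext p
  simp

/-! ### rational subspaces of a field -/

section

variable {k K : Type} [Field k] [Field K] [Algebra k K] [CharZero k] [CharZero K]

/-- a subfield as a rational vector space -/
def qsubK (S : Subfield K) : Submodule ℚ K where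
  carrier := S
  add_mem' := S.add_mem
  zero_mem' := S.zero_mem
  smul_mem' := fun q z hz => by
    rw [Rat.smul_def]
    exact S.mul_mem (SubfieldClass.ratCast_mem S q) hz

theorem finite_spanK (Z : Set K) (n₀ : ℕ)
    (h : ∀ (n : ℕ) (lam : Fin n → K), LinearIndependent ℚ lam → (∀ j, lam j ∈ Z) → n ≤ n₀) :
    FiniteDimensional ℚ (Submodule.span ℚ Z) ∧ Module.finrank ℚ (Submodule.span ℚ Z) ≤ n₀ := by
  obtain ⟨b, hbZ, hspan, hli⟩ := exists_linearIndependent ℚ Z
  have hfin : b.Finite := by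
    by_contra hinf
    have hinf' : b.Infinite := hinf
    let e := hinf'.natEmbedding
    let lam : Fin (n₀ + 1) → K := fun j => (e (j : ℕ) : K)
    have h1 : LinearIndependent ℚ lam :=
      hli.comp (fun j : Fin (n₀ + 1) => e (j : ℕ))
        (fun i j hij => Fin.ext (e.injective hij))
    have h2 := h (n₀ + 1) lam h1 fun j => hbZ (e (j : ℕ)).2
    omega
  rw [← hspan]
  refine ⟨FiniteDimensional.span_of_finite ℚ hfin, ?_⟩
  have := hfin.fintype
  rw [finrank_span_set_eq_card hli, Set.toFinset_card]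
  let e := Fintype.equivFin b
  refine h _ (fun j => ((e.symm j : b) : K)) (hli.comp e.symm e.symm.injective)
    (fun j => hbZ (e.symm j).2)

theorem card_primes_le (lam : ℕ → K)
    (hind : LinearIndependent ℚ (fun p : Nat.Primes => lam (p : ℕ)))
    (H : Submodule ℚ K) (hH : FiniteDimensional ℚ H) (S : Finset ℕ)
    (hS : ∀ p ∈ S, p.Prime ∧ lam p ∈ H) : S.card ≤ Module.finrank ℚ H := by
  let v : S → H := fun p => ⟨lam p, (hS p p.2).2⟩
  have hv : LinearIndependent ℚ v := by
    have h2 : LinearIndependent ℚ (H.subtype ∘ v) := by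
      have h3 : Function.Injective
          (fun p : S => (⟨(p : ℕ), (hS p p.2).1⟩ : Nat.Primes)) := by
        intro p q hpq
        exact Subtype.ext (congrArg (fun r : Nat.Primes => (r : ℕ)) hpq)
      exact hind.comp _ h3
    exact h2.of_comp
  have := hv.fintype_card_le_finrank
  simpa using this

theorem log_mem_supK (lam : ℕ → K) (hlam : ∀ a b, 0 < a → 0 < b → lam (a * b) = lam a + lam b)
    (X : Submodule ℚ K) (n : ℕ) (hn : 0 < n)
    (h : ∀ p : ℕ, p.Prime → p ∣ n → lam p ∈ X) : lam n ∈ X := by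
  induction n using induction_on_primes with
  | zero => exact absurd hn (lt_irrefl _)
  | one =>
    have h1 := hlam 1 1 one_pos one_pos
    rw [mul_one] at h1
    have h2 : lam 1 = 0 := by
      have := sub_eq_zero.2 h1
      simpa using this
    rw [h2]; exact X.zero_mem
  | prime_mul p a hp ih =>
    have ha : 0 < a := Nat.pos_of_ne_zero fun h => by simp [h] at hn
    rw [hlam p a hp.pos ha]
    exact X.add_mem (h p hp (Dvd.intro _ rfl))
      (ih ha fun q hq hqa => h q hq (hqa.mul_left p))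

end

/-- bounded degree, for all shifts, gives one finite extension -/
theorem exists_extK {k K : Type} [Field k] [Field K] [Algebra k K] [CharZero k] [CharZero K]
    [IsAlgClosed K] (lam : ℕ → K)
    (hlam : ∀ a b, 0 < a → 0 < b → lam (a * b) = lam a + lam b)
    (F : IntermediateField k K) (D : ℕ) {ε : ℝ} (hε : 0 < ε) (u : ℕ → K) (V : ℕ → Set ℕ)
    (hV : ∀ z, ε ≤ SM (Nat.primesBelow z) (V z))
    (hB : ∀ z, ∀ v ∈ V z, 0 < v ∧ ∃ P : F[X], P ≠ 0 ∧ P.natDegree ≤ D ∧
      aeval (lam v + u z) P = 0) :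
    ∃ E : IntermediateField F K, FiniteDimensional F E ∧ Small {p : ℕ | lam p ∉ E} := by
  classical
  have hΩ : ∀ z, ∀ v ∈ V z, lam v + u z ∈ algebraicClosure F K := by
    intro z v hv
    obtain ⟨_, P, hP, _, hP2⟩ := hB z v hv
    exact mem_algebraicClosure_iff.2 ⟨P, hP, hP2⟩
  have hS0 : Small {p : ℕ | lam p ∉ qsubK (algebraicClosure F K).toSubfield} := by
    by_contra hns
    let f : ℕ → K ⧸ qsubK (algebraicClosure F K).toSubfield := fun a => Submodule.mkQ _ (lam a)
    have hf : ∀ a b, 0 < a → 0 < b → f (a * b) = f a + f b := by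
      intro a b ha hb
      simp only [f]
      rw [hlam a b ha hb, map_add]
    have hns' : ¬ Small {p | f p ≠ 0} := by
      have : {p | f p ≠ 0} = {p : ℕ | lam p ∉ qsubK (algebraicClosure F K).toSubfield} := by
        ext p
        simp [f]
      rw [this]
      exact hns
    obtain ⟨z, hz⟩ := (not_small_lt f hf hns' hε).exists
    have h1 := hz (-(Submodule.mkQ _ (u z)))
    have h2 : SM (Nat.primesBelow z) (V z) ≤
        SM (Nat.primesBelow z) {v | 0 < v ∧ f v = -(Submodule.mkQ _ (u z))} := by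
      refine (sm_mean _ (prime_below z)).mono _ _ fun v hv => ⟨(hB z v hv).1, ?_⟩
      have h3 := hΩ z v hv
      have h4 : Submodule.mkQ (qsubK (algebraicClosure F K).toSubfield) (lam v + u z) = 0 := by
        rw [Submodule.mkQ_apply, Submodule.Quotient.mk_eq_zero]
        exact h3
      rw [map_add] at h4
      exact eq_neg_of_add_eq_zero_left h4
    have h3 := hV z
    linarith
  have : IsGalois F (algebraicClosure F K) := by
    have : Normal F (algebraicClosure F K) := IsAlgClosure.normal F _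
    exact {}
  let x : ℕ → algebraicClosure F K := fun p =>
    if h : lam p ∈ algebraicClosure F K then ⟨_, h⟩ else 0
  let w : ℕ → ℝ := fun p => if p.Prime then (1 : ℝ) / p else 0
  have hw : ∀ p, 0 ≤ w p := by
    intro p
    by_cases hp : p.Prime
    · simp only [w, if_pos hp]; positivity
    · simp only [w, if_neg hp]; exact le_rfl
  have key : ∀ σ : Fin (D + 1) → (algebraicClosure F K ≃ₐ[F] algebraicClosure F K),
      ∃ i j, i ≠ j ∧ Summable ({p | σ i (x p) ≠ σ j (x p)}.indicator w) := by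
    intro σ
    by_contra hcon
    push Not at hcon
    have hφ : ∀ i j : Fin (D + 1), ∃ φ : K →ₗ[ℚ] K,
        ∀ z : algebraicClosure F K, φ (z : K) = (σ i z : K) - (σ j z : K) := by
      intro i j
      let g0 : (qsubK (algebraicClosure F K).toSubfield) →+ K :=
        { toFun := fun z => ((σ i ⟨z.1, z.2⟩ : algebraicClosure F K) : K) -
            ((σ j ⟨z.1, z.2⟩ : algebraicClosure F K) : K)
          map_zero' := by
            have : (⟨0, (algebraicClosure F K).zero_mem⟩ : algebraicClosure F K) = 0 := rfl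
            simp only [ZeroMemClass.coe_zero]
            rw [this]
            simp
          map_add' := by
            intro y z
            have : (⟨((y + z : qsubK (algebraicClosure F K).toSubfield) : K), (y + z).2⟩ :
                algebraicClosure F K) = ⟨y.1, y.2⟩ + ⟨z.1, z.2⟩ := rfl
            rw [this, map_add, map_add]
            push_cast
            ring }
      obtain ⟨φ, hφ⟩ := LinearMap.exists_extend (g0.toRatLinearMap)
      refine ⟨φ, fun z => ?_⟩
      have := LinearMap.congr_fun hφ (⟨z.1, z.2⟩ : qsubK (algebraicClosure F K).toSubfield)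
      exact this
    choose φ hφ using hφ
    have hns : ∀ i j : Fin (D + 1), i ≠ j → ¬ Small {p : ℕ | φ i j (lam p) ≠ 0} := by
      intro i j hij h1
      refine hcon i j hij ?_
      unfold Small at h1
      refine Summable.of_nonneg_of_le (fun p => Set.indicator_nonneg (fun p _ => hw p) p)
        (fun p => ?_) h1
      by_cases hp : p ∈ {p | σ i (x p) ≠ σ j (x p)}
      · rw [Set.indicator_of_mem hp]
        by_cases hpr : p.Prime
        · have hmem : p ∈ {p : ℕ | p.Prime ∧ p ∈ {p : ℕ | φ i j (lam p) ≠ 0}} := by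
            refine ⟨hpr, ?_⟩
            by_cases hlog : lam p ∈ algebraicClosure F K
            · have hx : x p = ⟨_, hlog⟩ := dif_pos hlog
              have h2 := hφ i j (x p)
              have h3 : ((x p : algebraicClosure F K) : K) = lam p := by rw [hx]
              rw [h3] at h2
              change φ i j (lam p) ≠ 0
              rw [h2]
              intro h4
              exact hp (Subtype.ext (sub_eq_zero.1 h4))
            · have hx : x p = 0 := dif_neg hlog
              exfalso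
              apply hp
              rw [hx]
              simp
          rw [Set.indicator_of_mem hmem]
          simp only [w, if_pos hpr]
          exact le_rfl
        · simp only [w, if_neg hpr]
          exact Set.indicator_nonneg (fun p _ => by positivity) p
      · rw [Set.indicator_of_notMem hp]
        exact Set.indicator_nonneg (fun p _ => by positivity) p
    let s : Finset (Fin (D + 1) × Fin (D + 1)) := Finset.univ.filter fun t => t.1 ≠ t.2
    have hq : 0 < ε / (s.card + 1) := by positivity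
    have hev : ∀ᶠ z in atTop, ∀ t ∈ s, ∀ c : K,
        SM (Nat.primesBelow z) {v | 0 < v ∧ φ t.1 t.2 (lam v) = c} < ε / (s.card + 1) := by
      rw [Filter.eventually_all_finset]
      intro t ht
      have ht' : t.1 ≠ t.2 := by simpa [s] using ht
      exact not_small_lt (fun a => φ t.1 t.2 (lam a))
        (fun a b ha hb => by rw [hlam a b ha hb, map_add]) (hns _ _ ht') hq
    obtain ⟨z, hz⟩ := hev.exists
    let A : Fin (D + 1) × Fin (D + 1) → Set ℕ := fun t =>
      {v : ℕ | 0 < v ∧ φ t.1 t.2 (lam v) = -(φ t.1 t.2 (u z))}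
    have hsub : V z ⊆ ⋃ t ∈ s, A t := by
      intro a haB
      by_contra haN
      obtain ⟨ha0, P, hP, hPD, hPa⟩ := hB z a haB
      let y : algebraicClosure F K := ⟨_, hΩ z a haB⟩
      have hPy : aeval y P = 0 := by
        have h1 : aeval ((algebraicClosure F K).val y) P =
            (algebraicClosure F K).val (aeval y P) := Polynomial.aeval_algHom_apply _ _ _
        have h2 : (algebraicClosure F K).val (aeval y P) = 0 := by
          rw [← h1]; exact hPa
        exact (map_eq_zero _).1 h2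
      have hroot : ∀ i, aeval (σ i y) P = 0 := by
        intro i
        have h1 : aeval ((σ i).toAlgHom y) P = (σ i).toAlgHom (aeval y P) :=
          Polynomial.aeval_algHom_apply _ _ _
        rw [hPy, map_zero] at h1
        exact h1
      have hinj : Function.Injective fun i => σ i y := by
        intro i j hij
        by_contra hne
        apply haN
        have hmem : ((i, j) : Fin (D + 1) × Fin (D + 1)) ∈ s := by simp [s, hne]
        refine Set.mem_biUnion hmem ?_
        refine ⟨ha0, ?_⟩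
        have h5 := hφ i j y
        have hij' : σ i y = σ j y := hij
        rw [hij', sub_self] at h5
        have h6 : ((y : algebraicClosure F K) : K) = lam a + u z := rfl
        rw [h6, map_add] at h5
        exact eq_neg_of_add_eq_zero_left h5
      have hcard : D + 1 ≤ (P.aroots (algebraicClosure F K)).toFinset.card := by
        have h1 : (Finset.univ.image fun i => σ i y) ⊆
            (P.aroots (algebraicClosure F K)).toFinset := by
          intro z hz
          rw [Finset.mem_image] at hz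
          obtain ⟨i, _, rfl⟩ := hz
          rw [Multiset.mem_toFinset, Polynomial.mem_aroots]
          exact ⟨hP, hroot i⟩
        have h2 := Finset.card_le_card h1
        rw [Finset.card_image_of_injective _ hinj, Finset.card_univ, Fintype.card_fin] at h2
        exact h2
      have hcard2 : (P.aroots (algebraicClosure F K)).toFinset.card ≤ D := by
        refine le_trans (Multiset.toFinset_card_le _) ?_
        refine le_trans (Polynomial.card_roots' _) ?_
        rw [Polynomial.natDegree_map]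
        exact hPD
      omega
    have hm := sm_mean _ (prime_below z)
    have h1 := hm.mono _ _ hsub
    have h2 := hm.biUnion_le s A
    have h3 : ∑ t ∈ s, SM (Nat.primesBelow z) (A t) ≤ ∑ t ∈ s, ε / (s.card + 1) :=
      Finset.sum_le_sum fun t ht => (hz t ht _).le
    have h4 : ∑ t ∈ s, ε / ((s.card : ℝ) + 1) < ε := by
      rw [Finset.sum_const, nsmul_eq_mul, mul_div_assoc', div_lt_iff₀ (by positivity)]
      nlinarith
    have h5 := hV z
    linarith
  obtain ⟨E, hE, hsum⟩ := galois_piece x w hw D key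
  refine ⟨E.map (algebraicClosure F K).val, ?_, ?_⟩
  · have e : E ≃ₐ[F] E.map (algebraicClosure F K).val := IntermediateField.equivMap E _
    exact LinearEquiv.finiteDimensional e.toLinearEquiv
  · have h2 : Small {p : ℕ | x p ∉ E} := by
      unfold Small
      refine Summable.of_nonneg_of_le (fun p => Set.indicator_nonneg (fun p _ => by positivity) p)
        (fun p => ?_) hsum
      by_cases hp : p ∈ {p : ℕ | p.Prime ∧ p ∈ {p : ℕ | x p ∉ E}}
      · rw [Set.indicator_of_mem hp, Set.indicator_of_mem hp.2]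
        simp only [w, if_pos hp.1]
        exact le_rfl
      · rw [Set.indicator_of_notMem hp]
        exact Set.indicator_nonneg (fun p _ => hw p) p
    refine (hS0.union h2).mono ?_
    intro p hp
    by_cases hlog : lam p ∈ algebraicClosure F K
    · refine Or.inr ?_
      intro hxE
      apply hp
      have hx : x p = ⟨_, hlog⟩ := dif_pos hlog
      exact ⟨x p, hxE, by rw [hx]; rfl⟩
    · exact Or.inl hlog

theorem mainZ {k K : Type} [Field k] [Field K] [Algebra k K] [CharZero k] [CharZero K]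
    [IsAlgClosed K] (lam : ℕ → K)
    (hlam : ∀ a b, 0 < a → 0 < b → lam (a * b) = lam a + lam b)
    (hind : LinearIndependent ℚ (fun p : Nat.Primes => lam (p : ℕ)))
    (hrank : ∀ A B : Submodule k K, FiniteDimensional k A → FiniteDimensional k B →
      ∃ n₀ : ℕ, ∀ (n : ℕ) (v v' : Fin n → ℕ), (∀ j, 0 < v j) → (∀ j, 0 < v' j) →
        LinearIndependent ℚ (fun j => lam (v j) - lam (v' j)) →
        (∀ j, ∃ a ∈ A, a ≠ 0 ∧ a * (lam (v j) - lam (v' j)) ∈ B) → n ≤ n₀)
    (M : Submodule k K) (hM : FiniteDimensional k M) (D : ℕ) {ε : ℝ} (hε : 0 < ε) :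
    ∃ z : ℕ, ∀ u : K, SM (Nat.primesBelow z) {v | 0 < v ∧ BadK M D (lam v + u)} < ε := by
  classical
  by_contra hcon
  push Not at hcon
  choose u hu using hcon
  set M₀ : Submodule k K := M ⊔ Submodule.span k {1} with hM₀
  have hM₀fd : FiniteDimensional k M₀ := by
    have := hM
    infer_instance
  have h1M₀ : (1 : K) ∈ M₀ := Submodule.mem_sup_right (Submodule.mem_span_singleton_self 1)
  let V : ℕ → Set ℕ := fun z => {v | 0 < v ∧ BadK M D (lam v + u z)}
  let F : IntermediateField k K := IntermediateField.adjoin k (M₀ : Set K)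
  have hMF : ∀ z ∈ M, z ∈ F := fun z hz =>
    IntermediateField.subset_adjoin _ _ (show z ∈ (M₀ : Set K) from Submodule.mem_sup_left hz)
  have hB : ∀ z, ∀ v ∈ V z, 0 < v ∧ ∃ P : F[X], P ≠ 0 ∧ P.natDegree ≤ D ∧
      aeval (lam v + u z) P = 0 := by
    rintro z a ⟨ha, P, hP, hPD, hPW, hPa⟩
    refine ⟨ha, ?_⟩
    obtain ⟨Q, hQ⟩ : ∃ Q : F[X], Q.map (algebraMap F K) = P := by
      have : P ∈ Polynomial.lifts (algebraMap F K) := by
        rw [Polynomial.lifts_iff_coeff_lifts]
        intro i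
        exact ⟨⟨_, hMF _ (hPW i)⟩, rfl⟩
      exact (Polynomial.mem_lifts _).1 this
    refine ⟨Q, ?_, ?_, ?_⟩
    · rintro rfl
      rw [Polynomial.map_zero] at hQ
      exact hP hQ.symm
    · rw [← hQ, Polynomial.natDegree_map] at hPD
      exact hPD
    · rw [Polynomial.aeval_def, ← Polynomial.eval_map, hQ]
      exact hPa
  obtain ⟨E, hE, hES⟩ := exists_extK lam hlam F D hε u V hu hB
  -- a finite set of primes carrying almost all of the mass
  set T' : Set ℕ := {p : ℕ | p.Prime ∧ p ∈ {p : ℕ | lam p ∉ E}} with hT'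
  obtain ⟨s, hs⟩ : ∃ s : Finset ℕ, ∀ F : Finset ℕ,
      ∑ p ∈ F.filter (· ∈ T' \ (s : Set ℕ)), (1 : ℝ) / p < ε / 2 := by
    have h0 : Summable (T'.indicator fun p : ℕ => (1 : ℝ) / p) := hES
    obtain ⟨s, hs⟩ := summable_iff_vanishing_norm.1 h0 (ε / 2) (half_pos hε)
    refine ⟨s, fun G => ?_⟩
    have h1 := hs (G.filter (· ∈ T' \ (s : Set ℕ))) (by
      rw [Finset.disjoint_left]
      intro p hp hps
      exact (Finset.mem_filter.1 hp).2.2 hps)
    have h2 : ∑ p ∈ G.filter (· ∈ T' \ (s : Set ℕ)), T'.indicator (fun p : ℕ => (1 : ℝ) / p) p =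
        ∑ p ∈ G.filter (· ∈ T' \ (s : Set ℕ)), (1 : ℝ) / p :=
      Finset.sum_congr rfl fun p hp => Set.indicator_of_mem (Finset.mem_filter.1 hp).2.1 _
    rw [h2, Real.norm_eq_abs] at h1
    exact lt_of_le_of_lt (le_abs_self _) h1
  let V' : ℕ → Set ℕ := fun z => V z \ {a | ∃ p ∈ T' \ (s : Set ℕ), p ∣ a}
  have hV' : ∀ z, ε / 2 ≤ SM (Nat.primesBelow z) (V' z) := by
    intro z
    have hm := sm_mean _ (prime_below z)
    have h1 := hm.le_diff (V z) {a | ∃ p ∈ T' \ (s : Set ℕ), p ∣ a}
    have h2 := hm.primes (T' \ (s : Set ℕ)) (fun p hp => hp.1.1)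
    have h3 := hs (Nat.primesBelow z)
    have h4 : ε ≤ SM (Nat.primesBelow z) (V z) := hu z
    change ε / 2 ≤ SM (Nat.primesBelow z) (V z \ {a | ∃ p ∈ T' \ (s : Set ℕ), p ∣ a})
    linarith
  have hne : ∀ z, (V' z).Nonempty := by
    intro z
    rw [Set.nonempty_iff_ne_empty]
    intro h
    have h1 := hV' z
    rw [h, (sm_mean _ (prime_below z)).empty] at h1
    linarith
  choose v₀ hv₀ using hne
  -- the fixed finitely generated field
  let Ω := algebraicClosure F K
  let Ls : Submodule ℚ K := Submodule.span ℚ (lam '' (s : Set ℕ))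
  have hLs : FiniteDimensional ℚ Ls := FiniteDimensional.span_of_finite ℚ (s.finite_toSet.image _)
  let Q1 : Submodule ℚ K := Ls ⊓ qsubK Ω.toSubfield
  have hQ1 : FiniteDimensional ℚ Q1 := by
    have := hLs
    exact Submodule.finiteDimensional_inf_left _ _
  obtain ⟨S1, hS1⟩ := (Submodule.fg_iff_finiteDimensional Q1).2 hQ1
  obtain ⟨S2, hS2⟩ : (⊤ : Submodule F E).FG := Module.Finite.fg_top
  let M₁ : Submodule k K := M₀ ⊔ Submodule.span k ((S1 : Set K) ∪ ((↑) : E → K) '' (S2 : Set E))
  have hM₁fd : FiniteDimensional k M₁ := by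
    have := hM₀fd
    have : FiniteDimensional k
        (Submodule.span k ((S1 : Set K) ∪ ((↑) : E → K) '' (S2 : Set E))) :=
      FiniteDimensional.span_of_finite k
        (S1.finite_toSet.union (S2.finite_toSet.image _))
    infer_instance
  let F₁ : IntermediateField k K := IntermediateField.adjoin k (M₁ : Set K)
  have hmem1 : ∀ z ∈ M₁, z ∈ F₁ := fun z hz => IntermediateField.subset_adjoin _ _ hz
  have hFF1 : F ≤ F₁ :=
    IntermediateField.adjoin.mono k _ _ fun z hz => Submodule.mem_sup_left hz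
  have hS1F : ∀ z ∈ S1, z ∈ F₁ := fun z hz =>
    hmem1 z (Submodule.mem_sup_right (Submodule.subset_span (Or.inl hz)))
  have hEF : ∀ y : E, (y : K) ∈ F₁ := by
    intro y
    have hy : y ∈ Submodule.span F (S2 : Set E) := by rw [hS2]; trivial
    induction hy using Submodule.span_induction with
    | mem y hy =>
      exact hmem1 _ (Submodule.mem_sup_right (Submodule.subset_span (Or.inr ⟨y, hy, rfl⟩)))
    | zero => exact F₁.zero_mem
    | add y z _ _ hy hz => exact F₁.add_mem hy hz
    | smul c y _ hy =>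
      have : ((c • y : E) : K) = (c : K) * (y : K) := rfl
      rw [this]
      exact F₁.mul_mem (hFF1 c.2) hy
  have hQ1F : ∀ z ∈ Q1, z ∈ F₁ := by
    have : Q1 ≤ qsubK F₁.toSubfield := by
      rw [← hS1, Submodule.span_le]
      exact hS1F
    exact this
  have hEΩ : ∀ e : K, e ∈ E → e ∈ Ω := by
    intro e he
    have h2 : IsAlgebraic F (⟨e, he⟩ : E) := Algebra.IsAlgebraic.isAlgebraic _
    have h3 : IsAlgebraic F ((⟨e, he⟩ : E) : K) := h2.algHom E.val
    exact mem_algebraicClosure_iff.2 h3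
  have hVΩ : ∀ z, ∀ v ∈ V z, lam v + u z ∈ Ω := by
    intro z v hv
    obtain ⟨_, P, hP, _, hPa⟩ := hB z v hv
    exact mem_algebraicClosure_iff.2 ⟨P, hP, hPa⟩
  have hdec : ∀ z, ∀ v ∈ V' z, ∃ a ∈ Ls, ∃ e ∈ E, lam v = a + e := by
    rintro z v ⟨hvB, hvT⟩
    have h1 : lam v ∈ Ls ⊔ qsubK E.toSubfield := by
      refine log_mem_supK lam hlam _ v hvB.1 fun p hp hpa => ?_
      by_cases hpE : lam p ∈ E
      · exact Submodule.mem_sup_right hpE
      · have hps : p ∈ s := by
          by_contra hps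
          exact hvT ⟨p, ⟨⟨hp, hpE⟩, hps⟩, hpa⟩
        exact Submodule.mem_sup_left (Submodule.subset_span ⟨p, hps, rfl⟩)
    obtain ⟨a, ha, e, he, hae⟩ := Submodule.mem_sup.1 h1
    exact ⟨a, ha, e, he, hae.symm⟩
  have hdiff : ∀ z, ∀ v ∈ V' z, lam v - lam (v₀ z) ∈ F₁ := by
    intro z v hv
    obtain ⟨a, ha, e, he, hae⟩ := hdec z v hv
    obtain ⟨a', ha', e', he', hae'⟩ := hdec z (v₀ z) (hv₀ z)
    have h1 : lam v - lam (v₀ z) = (a - a') + (e - e') := by rw [hae, hae']; ring
    have h2 : a - a' ∈ Ω := by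
      have h3 : a - a' = ((lam v + u z) - (lam (v₀ z) + u z)) - (e - e') := by
        rw [hae, hae']; ring
      rw [h3]
      exact Ω.sub_mem (Ω.sub_mem (hVΩ z v hv.1) (hVΩ z _ (hv₀ z).1))
        (Ω.sub_mem (hEΩ e he) (hEΩ e' he'))
    rw [h1]
    exact F₁.add_mem (hQ1F _ ⟨Ls.sub_mem ha ha', h2⟩) (hEF ⟨e - e', E.sub_mem he he'⟩)
  -- bounded height of the differences
  obtain ⟨N, hNfd, hN⟩ := height_diff M₀ M₁ le_sup_left hM₁fd h1M₀
  have hAfd : FiniteDimensional k (M₀ * M₀ : Submodule k K) := by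
    have h2 : M₀.FG := (Submodule.fg_iff_finiteDimensional _).2 hM₀fd
    exact (Submodule.fg_iff_finiteDimensional _).1 (h2.mul h2)
  obtain ⟨n₀, hn₀⟩ := hrank (M₀ * M₀) N hAfd hNfd
  have hbad : ∀ z, ∀ v ∈ V' z, BadK M₀ D (lam v + u z) := by
    rintro z v ⟨⟨_, P, hP, hPD, hPM, hPe⟩, _⟩
    exact ⟨P, hP, hPD, fun i => Submodule.mem_sup_left (hPM i), hPe⟩
  have hH : ∀ z, FiniteDimensional ℚ
        (Submodule.span ℚ ((fun v => lam v - lam (v₀ z)) '' V' z)) ∧
      Module.finrank ℚ (Submodule.span ℚ ((fun v => lam v - lam (v₀ z)) '' V' z)) ≤ n₀ := by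
    intro z
    refine finite_spanK _ n₀ fun n mu hl hmu => ?_
    choose v hv hvmu using hmu
    have hmu' : mu = fun j => lam (v j) - lam (v₀ z) := by
      funext j; exact (hvmu j).symm
    rw [hmu'] at hl
    refine hn₀ n v (fun _ => v₀ z) (fun j => (hv j).1.1) (fun _ => (hv₀ z).1.1) hl fun j => ?_
    have h1 : (lam (v j) + u z) - (lam (v₀ z) + u z) = lam (v j) - lam (v₀ z) := by ring
    obtain ⟨m, hm, hm0, hmN⟩ := hN D (lam (v j) + u z) (lam (v₀ z) + u z)
      (by rw [h1]; exact hdiff z _ (hv j)) (hbad z _ (hv j)) (hbad z _ (hv₀ z))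
    rw [h1] at hmN
    exact ⟨m, hm, hm0, hmN⟩
  -- concentration
  obtain ⟨Λ, hΛ⟩ := conc (half_pos hε)
  refine not_small_univ (small_of_mass_le (C := Λ + n₀) fun z => ?_)
  obtain ⟨hHfd, hHle⟩ := hH z
  set H : Submodule ℚ K := Submodule.span ℚ ((fun v => lam v - lam (v₀ z)) '' V' z) with hHdef
  let f : ℕ → K ⧸ H := fun a => H.mkQ (lam a)
  have hf : ∀ a b, 0 < a → 0 < b → f (a * b) = f a + f b := by
    intro a b ha hb
    simp only [f]
    rw [hlam a b ha hb, map_add]
  have hsub : V' z ⊆ {a | 0 < a ∧ f a = f (v₀ z)} := by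
    intro v hv
    refine ⟨hv.1.1, ?_⟩
    simp only [f]
    rw [← sub_eq_zero, ← map_sub, Submodule.mkQ_apply, Submodule.Quotient.mk_eq_zero]
    exact Submodule.subset_span ⟨v, hv, rfl⟩
  have h1 : ε / 2 ≤ SM (Nat.primesBelow z) {a | 0 < a ∧ f a = f (v₀ z)} :=
    le_trans (hV' z) ((sm_mean _ (prime_below z)).mono _ _ hsub)
  have h2 := hΛ (Nat.primesBelow z) (prime_below z) (SM (Nat.primesBelow z))
    (sm_mean _ (prime_below z)) (K ⧸ H) f hf (f (v₀ z)) h1
  have h3 : mass z Set.univ = ∑ p ∈ Nat.primesBelow z, (1 : ℝ) / p := by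
    unfold mass
    refine Finset.sum_congr ?_ fun _ _ => rfl
    ext p
    simp
  have h4 : ∑ p ∈ Nat.primesBelow z, (1 : ℝ) / p =
      ∑ p ∈ (Nat.primesBelow z).filter (fun p => f p ≠ 0), (1 : ℝ) / p +
      ∑ p ∈ (Nat.primesBelow z).filter (fun p => ¬ f p ≠ 0), (1 : ℝ) / p :=
    (Finset.sum_filter_add_sum_filter_not _ _ _).symm
  have h5 : ∑ p ∈ (Nat.primesBelow z).filter (fun p => ¬ f p ≠ 0), (1 : ℝ) / p ≤
      ((Nat.primesBelow z).filter (fun p => ¬ f p ≠ 0)).card := by
    rw [Finset.card_eq_sum_ones, Nat.cast_sum]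
    refine Finset.sum_le_sum fun p hp => ?_
    have hp1 : 1 ≤ p := (prime_below z p (Finset.mem_filter.1 hp).1).one_lt.le
    have hp2 : (1 : ℝ) ≤ p := by exact_mod_cast hp1
    rw [Nat.cast_one, div_le_one (by linarith)]
    exact hp2
  have h6 : ((Nat.primesBelow z).filter (fun p => ¬ f p ≠ 0)).card ≤ Module.finrank ℚ H := by
    refine card_primes_le lam hind H hHfd _ fun p hp => ?_
    rw [Finset.mem_filter, not_not] at hp
    refine ⟨prime_below z p hp.1, ?_⟩
    have h7 := hp.2
    simp only [f] at h7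
    rw [Submodule.mkQ_apply, Submodule.Quotient.mk_eq_zero] at h7
    exact h7
  have h7 : ((((Nat.primesBelow z).filter (fun p => ¬ f p ≠ 0)).card : ℕ) : ℝ) ≤ n₀ := by
    exact_mod_cast h6.trans hHle
  rw [h3, h4]
  linarith

end Pool.Agent.LogAll
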