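import Pool.Agent.Lib_MP_1eadae_lu.UDefs

/-!
# Piece UF: from `SM` to logarithmic windows
-/

set_option autoImplicit false

namespace Pool.Agent.LogAll

/-- no prime factor in `s` -/
private def Rough (s : Finset ℕ) (r : ℕ) : Prop := ∀ p ∈ s, ¬ p ∣ r

private theorem log_sum_le (a b : ℕ) (ha : 1 ≤ a) (hab : a ≤ b) :
    ∑ r ∈ Finset.Ioc a b, (1 : ℝ) / r ≤ Real.log ((b : ℝ) / a) := by
  induction b, hab using Nat.le_induction with
  | base =>
    rw [Finset.Ioc_self, Finset.sum_empty, div_self (by positivity), Real.log_one]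
  | succ b hab ih =>
    have ha' : (0 : ℝ) < a := by exact_mod_cast ha
    have hb' : (0 : ℝ) < b := by exact_mod_cast (lt_of_lt_of_le ha hab)
    rw [← Finset.insert_Ioc_right_eq_Ioc_add_one hab, Finset.sum_insert (by simp)]
    have h1 : Real.log (((b + 1 : ℕ) : ℝ) / a) =
        Real.log (((b + 1 : ℕ) : ℝ) / b) + Real.log ((b : ℝ) / a) := by
      rw [← Real.log_mul (by positivity) (by positivity)]
      congr 1
      field_simp
    have h2 : (1 : ℝ) / ((b + 1 : ℕ) : ℝ) ≤ Real.log (((b + 1 : ℕ) : ℝ) / b) := by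
      have h3 := Real.one_sub_inv_le_log_of_pos (x := ((b + 1 : ℕ) : ℝ) / b) (by positivity)
      refine le_trans (le_of_eq ?_) h3
      rw [inv_div]
      push_cast
      field_simp
      ring
    rw [h1]
    linarith

private theorem log_sum_le' (m y : ℕ) (c : ℝ) (hc : 1 ≤ c) (h : (y : ℝ) ≤ c * (m + 1)) :
    ∑ r ∈ Finset.Ioc m y, (1 : ℝ) / r ≤ 1 + Real.log c := by
  have hlc : 0 ≤ Real.log c := Real.log_nonneg hc
  rcases lt_or_ge m y with hmy | hmy
  · have h1 : Finset.Ioc m y = insert (m + 1) (Finset.Ioc (m + 1) y) := by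
      ext r
      simp only [Finset.mem_Ioc, Finset.mem_insert]
      omega
    rw [h1, Finset.sum_insert (by simp)]
    have h2 := log_sum_le (m + 1) y (by omega) hmy
    have h3 : Real.log ((y : ℝ) / ((m + 1 : ℕ) : ℝ)) ≤ Real.log c := by
      refine Real.log_le_log (by
        have : (0 : ℝ) < y := by exact_mod_cast (lt_of_le_of_lt (Nat.zero_le _) hmy)
        positivity) ?_
      rw [div_le_iff₀ (by positivity)]
      push_cast
      exact h
    have h4 : (1 : ℝ) / ((m + 1 : ℕ) : ℝ) ≤ 1 := by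
      rw [div_le_one (by positivity)]
      push_cast
      have : (0 : ℝ) ≤ m := Nat.cast_nonneg m
      linarith
    linarith
  · rw [Finset.Ioc_eq_empty_of_le hmy, Finset.sum_empty]
    linarith

private theorem dec (s : Finset ℕ) (hs : ∀ p ∈ s, p.Prime) {a : ℕ} (ha : a ≠ 0) :
    ∃ q : ℕ × ℕ, Rough s q.1 ∧ q.2 ∈ Nat.factoredNumbers s ∧ q.2 * q.1 = a := by
  refine ⟨((a.primeFactorsList.filter (fun p => !decide (p ∈ s))).prod,
    (a.primeFactorsList.filter (fun p => decide (p ∈ s))).prod), ?_,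
    Nat.prod_mem_factoredNumbers s a, ?_⟩
  · intro p hp hpd
    have hpp := (hs p hp).prime
    obtain ⟨q, hq, hpq⟩ := (Prime.dvd_prod_iff hpp).1 hpd
    rw [List.mem_filter] at hq
    have hqp := Nat.prime_of_mem_primeFactorsList hq.1
    have h1 : p = q := (Nat.prime_dvd_prime_iff_eq (hs p hp) hqp).1 hpq
    rw [← h1] at hq
    simp [hp] at hq
  · have h1 := (List.filter_append_perm (fun p => decide (p ∈ s)) a.primeFactorsList).prod_eq
    rw [List.prod_append, Nat.prod_primeFactorsList ha] at h1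
    exact h1

private theorem cop {s : Finset ℕ} {v r : ℕ} (hv : v ∈ Nat.factoredNumbers s) (hr : Rough s r) :
    Nat.Coprime v r := by
  refine Nat.coprime_of_dvd fun p hp hpv hpr => ?_
  exact hr p (Nat.mem_factoredNumbers'.1 hv p hp hpv) hpr

private theorem uniq {s : Finset ℕ} {v r v' r' : ℕ} (hv : v ∈ Nat.factoredNumbers s)
    (hr : Rough s r) (hv' : v' ∈ Nat.factoredNumbers s) (hr' : Rough s r')
    (h : v * r = v' * r') : v = v' ∧ r = r' := by
  have h1 : v ∣ v' := (cop hv hr').dvd_of_dvd_mul_right (Dvd.intro r h)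
  have h2 : v' ∣ v := (cop hv' hr).dvd_of_dvd_mul_right (Dvd.intro r' h.symm)
  have h3 : v = v' := Nat.dvd_antisymm h1 h2
  refine ⟨h3, ?_⟩
  rw [h3] at h
  exact Nat.eq_of_mul_eq_mul_left
    (Nat.pos_of_ne_zero (Nat.ne_zero_of_mem_factoredNumbers hv')) h

private theorem summ_half (s : Finset ℕ) :
    Summable ((Nat.factoredNumbers s).indicator (fun m : ℕ => (Real.sqrt m)⁻¹)) := by
  let f : ℕ →* ℝ :=
    { toFun := fun m => (Real.sqrt m)⁻¹
      map_one' := by simp
      map_mul' := fun a b => by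
        rw [Nat.cast_mul, Real.sqrt_mul (Nat.cast_nonneg a), mul_inv] }
  have h := (EulerProduct.summable_and_hasSum_factoredNumbers_prod_filter_prime_geometric
    (f := f) (fun {p} hp => ?_) s).1
  · rw [← summable_subtype_iff_indicator]
    refine h.congr fun m => ?_
    change ‖(Real.sqrt ((m : ℕ) : ℝ))⁻¹‖ = (Real.sqrt ((m : ℕ) : ℝ))⁻¹
    rw [Real.norm_eq_abs, abs_of_nonneg (inv_nonneg.2 (Real.sqrt_nonneg _))]
  · change ‖(Real.sqrt (p : ℝ))⁻¹‖ < 1
    rw [Real.norm_eq_abs, abs_of_nonneg (inv_nonneg.2 (Real.sqrt_nonneg _))]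
    refine inv_lt_one_of_one_lt₀ ?_
    rw [Real.lt_sqrt (by norm_num)]
    have : (1 : ℝ) < p := by exact_mod_cast hp.one_lt
    linarith

private theorem summ_log (s : Finset ℕ) :
    Summable ((Nat.factoredNumbers s).indicator
      (fun m : ℕ => (1 : ℝ) / m * (1 + Real.log m))) := by
  refine Summable.of_nonneg_of_le (fun m => ?_) (fun m => ?_) ((summ_half s).mul_left 2)
  · refine Set.indicator_nonneg (fun m hm => ?_) m
    have h1 : 0 ≤ Real.log (m : ℝ) := Real.log_natCast_nonneg m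
    positivity
  · by_cases hm : m ∈ Nat.factoredNumbers s
    · rw [Set.indicator_of_mem hm, Set.indicator_of_mem hm]
      have hm0 : m ≠ 0 := Nat.ne_zero_of_mem_factoredNumbers hm
      have hm1 : (0 : ℝ) < m := by exact_mod_cast Nat.pos_of_ne_zero hm0
      have hs : 0 < Real.sqrt m := Real.sqrt_pos.2 hm1
      have h1 := Real.log_le_sub_one_of_pos hs
      have h2 : Real.log (m : ℝ) = 2 * Real.log (Real.sqrt m) := by
        rw [Real.log_sqrt hm1.le]
        ring
      have h3 : (1 : ℝ) / m = (Real.sqrt m)⁻¹ * (Real.sqrt m)⁻¹ := by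
        rw [← mul_inv, Real.mul_self_sqrt hm1.le, one_div]
      rw [h3]
      have h4 : 1 + Real.log (m : ℝ) ≤ 2 * Real.sqrt m := by rw [h2]; linarith
      calc (Real.sqrt m)⁻¹ * (Real.sqrt m)⁻¹ * (1 + Real.log (m : ℝ))
          ≤ (Real.sqrt m)⁻¹ * (Real.sqrt m)⁻¹ * (2 * Real.sqrt m) :=
            mul_le_mul_of_nonneg_left h4 (by positivity)
        _ = 2 * (Real.sqrt m)⁻¹ := by field_simp
    · rw [Set.indicator_of_notMem hm, Set.indicator_of_notMem hm, mul_zero]

private theorem summ_one (s : Finset ℕ) :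
    Summable ((Nat.factoredNumbers s).indicator (fun m : ℕ => (1 : ℝ) / m)) := by
  refine Summable.of_nonneg_of_le (fun m => ?_) (fun m => ?_) (summ_log s)
  · exact Set.indicator_nonneg (fun m _ => by positivity) m
  · refine Set.indicator_le_indicator ?_
    have h1 : 0 ≤ Real.log (m : ℝ) := Real.log_natCast_nonneg m
    have h2 : (0 : ℝ) ≤ 1 / m := by positivity
    nlinarith

private theorem sm_eq (s : Finset ℕ) (A : Set ℕ) : SM s A =
    (∑' m : ℕ, (Nat.factoredNumbers s).indicator (A.indicator (fun m : ℕ => (1 : ℝ) / m)) m) /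
      (∑' m : ℕ, (Nat.factoredNumbers s).indicator (fun m : ℕ => (1 : ℝ) / m) m) := by
  unfold SM
  rw [← tsum_subtype, ← tsum_subtype]

private theorem one_mem (s : Finset ℕ) : 1 ∈ Nat.factoredNumbers s := by
  rw [Nat.mem_factoredNumbers']
  intro p hp hp1
  exact absurd (Nat.dvd_one.1 hp1) hp.one_lt.ne'

private theorem window_gen (s : Finset ℕ) (hs : ∀ p ∈ s, p.Prime) {ε : ℝ} (hε : 0 < ε) :
    ∃ R : ℕ, ∀ (B : Set ℕ) (β : ℝ), (∀ r, 0 < r → SM s {v | v * r ∈ B} ≤ β) →
    ∀ y x : ℕ, 1 ≤ y → R * y ≤ x →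
      ∑ a ∈ Finset.Ioc y x, B.indicator (fun a : ℕ => (1 : ℝ) / a) a ≤
        (β + ε) * Real.log ((x : ℝ) / y) := by
  classical
  set F := Nat.factoredNumbers s with hF
  set u : ℕ → ℝ := F.indicator (fun m : ℕ => (1 : ℝ) / m) with hu
  have hu0 : ∀ m, 0 ≤ u m := fun m => Set.indicator_nonneg (fun m _ => by positivity) m
  set Z : ℝ := ∑' m, u m with hZ
  have hZ1 : 1 ≤ Z := by
    have h := (summ_one s).sum_le_tsum {1} (fun m _ => hu0 m)
    rw [Finset.sum_singleton] at h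
    have h1 : u 1 = 1 := by
      rw [hu, Set.indicator_of_mem (one_mem s)]
      norm_num
    rw [h1] at h
    exact h
  set C1 : ℝ := ∑' m, F.indicator (fun m : ℕ => (1 : ℝ) / m * (1 + Real.log m)) m with hC1
  -- a finite set `T` which carries almost all of `Z`
  obtain ⟨T, hT⟩ : ∃ T : Finset ℕ, Z < (1 + ε / 2) * ∑ m ∈ T, u m := by
    have h1 : Z / (1 + ε / 2) < Z := by
      rw [div_lt_iff₀ (by positivity)]
      nlinarith
    have h2 := (summ_one s).hasSum.eventually (lt_mem_nhds h1)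
    obtain ⟨T, hT⟩ := h2.exists
    refine ⟨T, ?_⟩
    rw [div_lt_iff₀ (by positivity)] at hT
    linarith
  set ZT : ℝ := ∑ m ∈ T, u m with hZT
  have hZT0 : 0 < ZT := by
    by_contra h
    push Not at h
    have : (1 + ε / 2) * ZT ≤ 0 := mul_nonpos_of_nonneg_of_nonpos (by positivity) h
    linarith
  obtain ⟨K, hK1, hK⟩ : ∃ K : ℕ, 1 ≤ K ∧ ∀ m ∈ T, m ≤ K :=
    ⟨T.sup id + 1, by omega, fun m hm => (Finset.le_sup (f := id) hm).trans (Nat.le_succ _)⟩
  set C2 : ℝ := Z * (1 + Real.log K) + C1 with hC2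
  obtain ⟨R, hR⟩ : ∃ R : ℕ, Real.exp (2 / ε * C2) ≤ R := exists_nat_ge _
  refine ⟨R, fun B β hB y x hy hx => ?_⟩
  have hy0 : (0 : ℝ) < y := by exact_mod_cast hy
  have hR0 : (0 : ℝ) < R := lt_of_lt_of_le (Real.exp_pos _) hR
  have hRN : 1 ≤ R := by exact_mod_cast hR0
  have hyx : y ≤ x := le_trans (by nlinarith) hx
  have hx0 : (0 : ℝ) < x := by exact_mod_cast lt_of_lt_of_le hy hyx
  have hRx : (R : ℝ) ≤ x / y := by
    rw [le_div_iff₀ hy0]
    exact_mod_cast hx
  have hlogR : 2 / ε * C2 ≤ Real.log ((x : ℝ) / y) := by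
    rw [Real.le_log_iff_exp_le (by positivity)]
    exact hR.trans hRx
  have hlog0 : 0 ≤ Real.log ((x : ℝ) / y) := by
    refine Real.log_nonneg ?_
    rw [le_div_iff₀ hy0, one_mul]
    exact_mod_cast hyx
  have hfull := log_sum_le y x hy hyx
  -- `β ≥ 0`
  have hβ0 : 0 ≤ β := by
    refine le_trans ?_ (hB 1 one_pos)
    rw [sm_eq]
    refine div_nonneg (tsum_nonneg fun m => ?_) (tsum_nonneg fun m => hu0 m)
    exact Set.indicator_nonneg (fun m _ => Set.indicator_nonneg (fun m _ => by positivity) m) m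
  -- the case `β ≥ 1`
  rcases le_or_gt 1 β with hβ1 | hβ1
  · have h1 : ∑ a ∈ Finset.Ioc y x, B.indicator (fun a : ℕ => (1 : ℝ) / a) a ≤
        ∑ a ∈ Finset.Ioc y x, (1 : ℝ) / a :=
      Finset.sum_le_sum fun a _ => Set.indicator_le_self' (fun a _ => by positivity) a
    calc _ ≤ _ := h1
      _ ≤ _ := hfull
      _ ≤ (β + ε) * Real.log ((x : ℝ) / y) := by nlinarith
  -- the pairs
  have hdec : ∀ a : ℕ, ∃ q : ℕ × ℕ, a ≠ 0 → Rough s q.1 ∧ q.2 ∈ F ∧ q.2 * q.1 = a := by
    intro a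
    by_cases ha : a = 0
    · exact ⟨(0, 0), fun h => absurd ha h⟩
    · obtain ⟨q, hq⟩ := dec s hs ha
      exact ⟨q, fun _ => hq⟩
  choose φ hφ using hdec
  let g : ℕ × ℕ → ℝ := fun q => B.indicator (fun _ => (1 : ℝ) / (q.2 * q.1)) (q.2 * q.1)
  have hg0 : ∀ q, 0 ≤ g q := fun q => Set.indicator_nonneg (fun m _ => by positivity) _
  let R1 : Finset ℕ := (Finset.Icc 1 x).filter (Rough s)
  let V1 : Finset ℕ := (Finset.Icc 1 x).filter (· ∈ F)
  let P : Finset (ℕ × ℕ) := (R1 ×ˢ V1).filter (fun q => y < q.2 * q.1 ∧ q.2 * q.1 ≤ x)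
  have hA : ∑ a ∈ Finset.Ioc y x, B.indicator (fun a : ℕ => (1 : ℝ) / a) a ≤ ∑ q ∈ P, g q := by
    have hne : ∀ a ∈ Finset.Ioc y x, a ≠ 0 := fun a ha => by
      rw [Finset.mem_Ioc] at ha
      omega
    have h1 : ∑ a ∈ Finset.Ioc y x, B.indicator (fun a : ℕ => (1 : ℝ) / a) a =
        ∑ a ∈ Finset.Ioc y x, g (φ a) := by
      refine Finset.sum_congr rfl fun a ha => ?_
      have h2 := (hφ a (hne a ha)).2.2
      have h3 : ((φ a).2 : ℝ) * (φ a).1 = a := by exact_mod_cast h2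
      change _ = B.indicator (fun _ => (1 : ℝ) / ((φ a).2 * (φ a).1)) ((φ a).2 * (φ a).1)
      rw [h2, h3]
      by_cases haB : a ∈ B
      · rw [Set.indicator_of_mem haB, Set.indicator_of_mem haB]
      · rw [Set.indicator_of_notMem haB, Set.indicator_of_notMem haB]
    have hinj : Set.InjOn φ (Finset.Ioc y x : Finset ℕ) := by
      intro a ha b hb hab
      have h2 := (hφ a (hne a ha)).2.2
      have h3 := (hφ b (hne b hb)).2.2
      rw [← h2, ← h3, hab]
    rw [h1, ← Finset.sum_image hinj]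
    refine Finset.sum_le_sum_of_subset_of_nonneg ?_ fun q _ _ => hg0 q
    intro q hq
    rw [Finset.mem_image] at hq
    obtain ⟨a, ha, rfl⟩ := hq
    obtain ⟨k1, k2, k3⟩ := hφ a (hne a ha)
    rw [Finset.mem_Ioc] at ha
    have hpos1 : 0 < (φ a).1 := Nat.pos_of_ne_zero fun h => by
      rw [h, mul_zero] at k3
      omega
    have hpos2 : 0 < (φ a).2 := Nat.pos_of_ne_zero fun h => by
      rw [h, zero_mul] at k3
      omega
    have hle1 : (φ a).1 ≤ x := le_trans (Nat.le_mul_of_pos_left _ hpos2) (k3.le.trans ha.2)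
    have hle2 : (φ a).2 ≤ x := le_trans (Nat.le_mul_of_pos_right _ hpos1) (k3.le.trans ha.2)
    rw [Finset.mem_filter, Finset.mem_product, Finset.mem_filter, Finset.mem_filter,
      Finset.mem_Icc, Finset.mem_Icc, k3]
    exact ⟨⟨⟨⟨hpos1, hle1⟩, k1⟩, ⟨⟨hpos2, hle2⟩, k2⟩⟩, ha⟩
  -- the pairs with `r > y`
  set S : ℝ := ∑ r ∈ R1.filter (fun r => y < r), (1 : ℝ) / r with hS
  have hP1 : ∑ q ∈ P.filter (fun q => y < q.1), g q ≤ Z * β * S := by
    have h1 : ∑ q ∈ P.filter (fun q => y < q.1), g q ≤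
        ∑ q ∈ (R1.filter (fun r => y < r)) ×ˢ V1, g q := by
      refine Finset.sum_le_sum_of_subset_of_nonneg ?_ fun q _ _ => hg0 q
      intro q hq
      rw [Finset.mem_filter, Finset.mem_filter, Finset.mem_product] at hq
      rw [Finset.mem_product, Finset.mem_filter]
      exact ⟨⟨hq.1.1.1, hq.2⟩, hq.1.1.2⟩
    refine h1.trans ?_
    rw [Finset.sum_product, hS, Finset.mul_sum]
    refine Finset.sum_le_sum fun r hr => ?_
    rw [Finset.mem_filter, Finset.mem_filter, Finset.mem_Icc] at hr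
    have hr0 : (0 : ℝ) < r := by exact_mod_cast hr.1.1.1
    have h2 := hB r hr.1.1.1
    rw [sm_eq, div_le_iff₀ (lt_of_lt_of_le one_pos hZ1)] at h2
    set w : ℕ → ℝ := F.indicator ({v | v * r ∈ B}.indicator (fun m : ℕ => (1 : ℝ) / m)) with hw
    have hw0 : ∀ m, 0 ≤ w m := fun m => Set.indicator_nonneg (fun m _ =>
      Set.indicator_nonneg (fun m _ => by positivity) m) m
    have hwu : ∀ m, w m ≤ u m := fun m => Set.indicator_le_indicator
      (Set.indicator_le_self' (fun a _ => by positivity) m)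
    have hws : Summable w := Summable.of_nonneg_of_le hw0 hwu (summ_one s)
    have h3 : ∑ v ∈ V1, g (r, v) ≤ (∑ v ∈ V1, w v) * (1 / r) := by
      rw [Finset.sum_mul]
      refine Finset.sum_le_sum fun v hv => ?_
      rw [Finset.mem_filter] at hv
      change B.indicator (fun _ => (1 : ℝ) / (v * r)) (v * r) ≤ w v * (1 / r)
      rw [hw, Set.indicator_of_mem hv.2]
      by_cases hvB : v * r ∈ B
      · have hvB' : v ∈ {v | v * r ∈ B} := hvB
        rw [Set.indicator_of_mem hvB, Set.indicator_of_mem hvB', one_div_mul_one_div]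
      · have hvB' : v ∉ {v | v * r ∈ B} := hvB
        rw [Set.indicator_of_notMem hvB, Set.indicator_of_notMem hvB', zero_mul]
    have h4 := hws.sum_le_tsum V1 (fun m _ => hw0 m)
    calc ∑ v ∈ V1, g (r, v) ≤ (∑ v ∈ V1, w v) * (1 / r) := h3
      _ ≤ (β * Z) * (1 / r) := mul_le_mul_of_nonneg_right (h4.trans h2) (by positivity)
      _ = Z * β * (1 / r) := by ring
  -- the pairs with `r ≤ y`
  have hP2 : ∑ q ∈ P.filter (fun q => ¬ y < q.1), g q ≤ C1 := by
    let Q : Finset (ℕ × ℕ) := (Finset.Ioc 0 y ×ˢ V1).filter (fun q => y / q.2 < q.1)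
    have h1 : ∑ q ∈ P.filter (fun q => ¬ y < q.1), g q ≤
        ∑ q ∈ P.filter (fun q => ¬ y < q.1), (1 : ℝ) / q.2 * (1 / q.1) := by
      refine Finset.sum_le_sum fun q _ => ?_
      refine (Set.indicator_le_self' (fun a _ => by positivity) _).trans (le_of_eq ?_)
      rw [one_div_mul_one_div]
    have h2 : ∑ q ∈ P.filter (fun q => ¬ y < q.1), (1 : ℝ) / q.2 * (1 / q.1) ≤
        ∑ q ∈ Q, (1 : ℝ) / q.2 * (1 / q.1) := by
      refine Finset.sum_le_sum_of_subset_of_nonneg ?_ fun q _ _ => by positivity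
      intro q hq
      rw [Finset.mem_filter, Finset.mem_filter, Finset.mem_product] at hq
      have hq1 := hq.1.1.1
      have hq2 := hq.1.1.2
      rw [Finset.mem_filter, Finset.mem_Icc] at hq1
      have hq2' := hq2
      rw [Finset.mem_filter, Finset.mem_Icc] at hq2'
      rw [Finset.mem_filter, Finset.mem_product, Finset.mem_Ioc]
      refine ⟨⟨⟨hq1.1.1, not_lt.1 hq.2⟩, hq2⟩, ?_⟩
      rw [Nat.div_lt_iff_lt_mul hq2'.1.1, mul_comm]
      exact hq.1.2.1
    have h3 : ∑ q ∈ Q, (1 : ℝ) / q.2 * (1 / q.1) ≤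
        ∑ v ∈ V1, F.indicator (fun m : ℕ => (1 : ℝ) / m * (1 + Real.log m)) v := by
      rw [Finset.sum_filter, Finset.sum_product_right]
      refine Finset.sum_le_sum fun v hv => ?_
      rw [Finset.mem_filter, Finset.mem_Icc] at hv
      have hv1 : (1 : ℝ) ≤ v := by exact_mod_cast hv.1.1
      rw [← Finset.sum_filter, Set.indicator_of_mem hv.2]
      have h4 : (Finset.Ioc 0 y).filter (fun r => y / v < r) = Finset.Ioc (y / v) y := by
        ext r
        rw [Finset.mem_filter, Finset.mem_Ioc, Finset.mem_Ioc]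
        exact ⟨fun h => ⟨h.2, h.1.2⟩,
          fun h => ⟨⟨Nat.lt_of_le_of_lt (Nat.zero_le _) h.1, h.2⟩, h.1⟩⟩
      change ∑ r ∈ (Finset.Ioc 0 y).filter (fun r => y / v < r), (1 : ℝ) / v * (1 / r) ≤ _
      rw [h4, ← Finset.mul_sum]
      refine mul_le_mul_of_nonneg_left ?_ (by positivity)
      refine log_sum_le' (y / v) y v hv1 ?_
      have h5 := (Nat.lt_mul_div_succ y hv.1.1).le
      exact_mod_cast h5
    have h6 := (summ_log s).sum_le_tsum V1 (fun m _ => Set.indicator_nonneg (fun m _ => by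
      have h1 : 0 ≤ Real.log (m : ℝ) := Real.log_natCast_nonneg m
      positivity) m)
    exact ((h1.trans h2).trans h3).trans h6
  -- the sum over rough `r`
  have hSle : S ≤ Real.log ((x : ℝ) / y) / ZT + (1 + Real.log K) := by
    let S1 : Finset ℕ := (Finset.Ioc y (x / K)).filter (Rough s)
    have h1 : S ≤ ∑ r ∈ S1, (1 : ℝ) / r + ∑ r ∈ Finset.Ioc (x / K) x, (1 : ℝ) / r := by
      have h2 : R1.filter (fun r => y < r) ⊆ S1 ∪ Finset.Ioc (x / K) x := by
        intro r hr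
        rw [Finset.mem_filter, Finset.mem_filter, Finset.mem_Icc] at hr
        rw [Finset.mem_union, Finset.mem_filter, Finset.mem_Ioc, Finset.mem_Ioc]
        rcases le_or_gt r (x / K) with h | h
        · exact Or.inl ⟨⟨hr.2, h⟩, hr.1.2⟩
        · exact Or.inr ⟨h, hr.1.1.2⟩
      refine (Finset.sum_le_sum_of_subset_of_nonneg h2 fun r _ _ => by positivity).trans ?_
      refine (Finset.sum_union_inter (s₁ := S1) (s₂ := Finset.Ioc (x / K) x)
        (f := fun r : ℕ => (1 : ℝ) / r)) ▸ ?_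
      have h3 : 0 ≤ ∑ r ∈ S1 ∩ Finset.Ioc (x / K) x, (1 : ℝ) / r :=
        Finset.sum_nonneg fun r _ => by positivity
      linarith
    have h2 : ∑ r ∈ Finset.Ioc (x / K) x, (1 : ℝ) / r ≤ 1 + Real.log K := by
      refine log_sum_le' (x / K) x K (by exact_mod_cast hK1) ?_
      have h5 := (Nat.lt_mul_div_succ x (Nat.lt_of_lt_of_le Nat.zero_lt_one hK1)).le
      exact_mod_cast h5
    have h3 : ZT * ∑ r ∈ S1, (1 : ℝ) / r ≤ Real.log ((x : ℝ) / y) := by
      have h4 : ZT = ∑ v ∈ T.filter (· ∈ F), (1 : ℝ) / v := by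
        rw [hZT, Finset.sum_filter]
        refine Finset.sum_congr rfl fun v _ => ?_
        rw [hu]
        exact Set.indicator_apply _ _ _
      have hinj : Set.InjOn (fun q : ℕ × ℕ => q.1 * q.2)
          ((T.filter (· ∈ F)) ×ˢ S1 : Finset (ℕ × ℕ)) := by
        intro q hq q' hq' h
        rw [Finset.mem_coe, Finset.mem_product, Finset.mem_filter, Finset.mem_filter] at hq hq'
        have h5 := uniq hq.1.2 hq.2.2 hq'.1.2 hq'.2.2 h
        exact Prod.ext h5.1 h5.2
      have h5 : ZT * ∑ r ∈ S1, (1 : ℝ) / r =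
          ∑ a ∈ ((T.filter (· ∈ F)) ×ˢ S1).image (fun q : ℕ × ℕ => q.1 * q.2), (1 : ℝ) / a := by
        rw [Finset.sum_image hinj, h4, Finset.sum_mul_sum, ← Finset.sum_product']
        refine Finset.sum_congr rfl fun q _ => ?_
        rw [one_div_mul_one_div, Nat.cast_mul]
      rw [h5]
      refine le_trans ?_ hfull
      refine Finset.sum_le_sum_of_subset_of_nonneg ?_ fun a _ _ => by positivity
      intro a ha
      rw [Finset.mem_image] at ha
      obtain ⟨q, hq, rfl⟩ := ha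
      rw [Finset.mem_product, Finset.mem_filter, Finset.mem_filter, Finset.mem_Ioc] at hq
      have hq1 : 0 < q.1 := Nat.pos_of_ne_zero (Nat.ne_zero_of_mem_factoredNumbers hq.1.2)
      rw [Finset.mem_Ioc]
      refine ⟨lt_of_lt_of_le hq.2.1.1 (Nat.le_mul_of_pos_left _ hq1), ?_⟩
      calc q.1 * q.2 ≤ K * (x / K) := Nat.mul_le_mul (hK _ hq.1.1) hq.2.1.2
        _ ≤ x := Nat.mul_div_le x K
    have h4 : ∑ r ∈ S1, (1 : ℝ) / r ≤ Real.log ((x : ℝ) / y) / ZT := by
      rw [le_div_iff₀ hZT0, mul_comm]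
      exact h3
    linarith
  have hsplit : ∑ q ∈ P, g q = ∑ q ∈ P.filter (fun q => y < q.1), g q +
      ∑ q ∈ P.filter (fun q => ¬ y < q.1), g q :=
    (Finset.sum_filter_add_sum_filter_not P (fun q => y < q.1) g).symm
  have hKlog : 0 ≤ Real.log (K : ℝ) := Real.log_natCast_nonneg K
  set L : ℝ := Real.log ((x : ℝ) / y) with hL
  have hZpos : 0 < Z := lt_of_lt_of_le one_pos hZ1
  have e1 : Z * β * S ≤ Z * β * (L / ZT + (1 + Real.log K)) :=
    mul_le_mul_of_nonneg_left hSle (mul_nonneg hZpos.le hβ0)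
  have e2 : Z * β * (L / ZT) ≤ (β + ε / 2) * L := by
    have h1 : Z / ZT ≤ 1 + ε / 2 := by
      rw [div_le_iff₀ hZT0]
      exact hT.le
    have h2 : Z * β * (L / ZT) = (Z / ZT) * (β * L) := by field_simp
    rw [h2]
    have h3 : 0 ≤ β * L := mul_nonneg hβ0 hlog0
    have h4 : β * L * ε ≤ L * ε := by nlinarith [mul_nonneg hlog0 hε.le]
    nlinarith [mul_le_mul_of_nonneg_right h1 h3]
  have e3 : Z * β * (1 + Real.log K) ≤ Z * (1 + Real.log K) := by
    have h1 : 0 ≤ Z * (1 + Real.log K) := mul_nonneg hZpos.le (by linarith)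
    nlinarith
  have e4 : C2 ≤ ε / 2 * L := by
    have h1 : ε / 2 * (2 / ε * C2) ≤ ε / 2 * L := mul_le_mul_of_nonneg_left hlogR (by positivity)
    have h2 : ε / 2 * (2 / ε * C2) = C2 := by field_simp
    linarith
  calc ∑ a ∈ Finset.Ioc y x, B.indicator (fun a : ℕ => (1 : ℝ) / a) a
      ≤ ∑ q ∈ P, g q := hA
    _ ≤ Z * β * S + C1 := by rw [hsplit]; exact add_le_add hP1 hP2
    _ ≤ Z * β * (L / ZT + (1 + Real.log K)) + C1 := by linarith
    _ = Z * β * (L / ZT) + (Z * β * (1 + Real.log K)) + C1 := by ring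
    _ ≤ (β + ε / 2) * L + Z * (1 + Real.log K) + C1 := by linarith
    _ ≤ (β + ε) * L := by linarith

/-- Proof. Write s = primesBelow z, Z = sum of 1/v over the s-factored v, a = v r with v s-factored
and r free of primes of s (rough). Sum over a in (y, x] ∩ B of 1/a
= sum over r of (1/r) sum over v, y < v r ≤ x, v r ∈ B of 1/v.
For r in (y, x] the inner sum is ≤ Z β. For r ≤ y exchange: sum over v of (1/v) times the sum of 1/r
over y/v < r ≤ y, which is ≤ log v + 1: total ≤ C1 = sum over v of (log v + 1)/v < ∞.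
Let S = sum of 1/r over rough r in (y, x]. For K, Z_K = sum over v ≤ K of 1/v: the products v r with
v ≤ K, y < r ≤ x/K are distinct integers in (y, x], so Z_K S(y, x/K) ≤ 1 + log (x/y), and
S(x/K, x) ≤ log K + 1. Hence total ≤ β Z ((1 + log (x/y)) / Z_K + log K + 1) + C1, with K such that
Z / Z_K ≤ 1 + ε / 2, and R large (β ≤ 1 may be assumed: replace β by min β 1, SM ≤ 1; β ≥ 0 since
SM ≥ 0). -/
theorem window (z : ℕ) {ε : ℝ} (hε : 0 < ε) : ∃ R : ℕ, ∀ (B : Set ℕ) (β : ℝ),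
    (∀ r, 0 < r → SM (Nat.primesBelow z) {v | v * r ∈ B} ≤ β) →
    ∀ y x : ℕ, 1 ≤ y → R * y ≤ x →
      ∑ a ∈ Finset.Ioc y x, B.indicator (fun a : ℕ => (1 : ℝ) / a) a ≤
        (β + ε) * Real.log ((x : ℝ) / y) :=
  window_gen (Nat.primesBelow z) (fun _ hp => Nat.prime_of_mem_primesBelow hp) hε

end Pool.Agent.LogAll
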