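import Pool.Agent.Lib_MP_1eadae_lu.UDefs
import Pool.Agent.Lib_LogRel.DC

/-!
# Piece UG: tuples
-/

set_option autoImplicit false

namespace Pool.Agent.LogAll

open Polynomial Pool.Agent.LogRel

/-- if `log a` is not a root of a polynomial with coefficients in the span of the family, then the
products with its powers are independent -/
theorem ug_indep {ι : Type} [Fintype ι] (w : ι → ℂ) (hw : LinearIndependent Qb w) (D : ℕ)
    (a : ℕ) (hbad : ¬ BadK (Submodule.span Qb (Set.range w)) D (Complex.log (a : ℂ))) :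
    LinearIndependent Qb (fun be : ι × Fin (D + 1) =>
      w be.1 * Complex.log (a : ℂ) ^ (be.2 : ℕ)) := by
  classical
  rw [Fintype.linearIndependent_iff]
  intro c hc
  let P : ℂ[X] := ∑ e : Fin (D + 1), Polynomial.C (∑ b, c (b, e) • w b) * X ^ (e : ℕ)
  have hcoeff : ∀ e : Fin (D + 1), P.coeff e = ∑ b, c (b, e) • w b := by
    intro e
    simp only [P, Polynomial.finsetSum_coeff, Polynomial.coeff_C_mul, Polynomial.coeff_X_pow]
    rw [Finset.sum_eq_single e]
    · simp
    · intro f _ hf
      have : (e : ℕ) ≠ (f : ℕ) := fun h => hf (Fin.ext h.symm)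
      simp [this]
    · intro h; exact absurd (Finset.mem_univ _) h
  have hmem : ∀ e : Fin (D + 1), (∑ b, c (b, e) • w b) ∈ Submodule.span Qb (Set.range w) :=
    fun e => Submodule.sum_mem _ fun b _ =>
      Submodule.smul_mem _ _ (Submodule.subset_span ⟨b, rfl⟩)
  have hdeg : P.natDegree ≤ D := by
    refine Polynomial.natDegree_sum_le_of_forall_le _ _ fun e _ => ?_
    refine le_trans (Polynomial.natDegree_C_mul_X_pow_le _ _) ?_
    have := e.2
    omega
  have hcoeff' : ∀ i, P.coeff i ∈ Submodule.span Qb (Set.range w) := by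
    intro i
    by_cases hi : i < D + 1
    · have := hcoeff ⟨i, hi⟩
      simp only at this
      rw [this]
      exact hmem _
    · rw [Polynomial.coeff_eq_zero_of_natDegree_lt (by omega)]
      exact Submodule.zero_mem _
  have heval : P.eval (Complex.log (a : ℂ)) = 0 := by
    simp only [P, Polynomial.eval_finsetSum, Polynomial.eval_mul, Polynomial.eval_C,
      Polynomial.eval_pow, Polynomial.eval_X]
    rw [Fintype.sum_prod_type_right] at hc
    rw [← hc]
    refine Finset.sum_congr rfl fun e _ => ?_
    rw [Finset.sum_mul]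
    refine Finset.sum_congr rfl fun b _ => ?_
    rw [smul_mul_assoc]
  have hP0 : P = 0 := by
    by_contra hP
    exact hbad ⟨P, hP, hdeg, hcoeff', heval⟩
  rintro ⟨b, e⟩
  have h1 := hcoeff e
  rw [hP0, Polynomial.coeff_zero] at h1
  exact (Fintype.linearIndependent_iff.1 hw (fun b => c (b, e)) h1.symm) b

/-- summation over the first coordinate and over the others -/
theorem ug_sum_piFinset_succ {r : ℕ} (s : Fin (r + 1) → Finset ℕ) (F : (Fin (r + 1) → ℕ) → ℝ) :
    ∑ a ∈ Fintype.piFinset s, F a =
      ∑ a0 ∈ s 0, ∑ v ∈ Fintype.piFinset (fun i : Fin r => s i.succ),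
        F (Fin.cons (α := fun _ => ℕ) a0 v) := by
  rw [← Finset.sum_product' (f := fun a0 v => F (Fin.cons (α := fun _ => ℕ) a0 v))]
  refine Finset.sum_nbij' (fun a => (a 0, fun i : Fin r => a i.succ))
    (fun p => Fin.cons (α := fun _ => ℕ) p.1 p.2) ?_ ?_ ?_ ?_ ?_
  · intro a ha
    rw [Fintype.mem_piFinset] at ha
    rw [Finset.mem_product]
    exact ⟨ha 0, Fintype.mem_piFinset.2 fun i => ha i.succ⟩
  · intro p hp
    rw [Finset.mem_product] at hp
    rw [Fintype.mem_piFinset]
    intro i
    refine Fin.cases ?_ (fun j => ?_) i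
    · exact hp.1
    · exact (Fintype.mem_piFinset.1 hp.2) j
  · intro a _
    funext i
    refine Fin.cases ?_ (fun j => ?_) i <;> rfl
  · intro p _
    rfl
  · intro a _
    congr 1
    funext i
    refine Fin.cases ?_ (fun j => ?_) i <;> rfl

/-- the sum of `1 / a` over `(y, x]` -/
theorem ug_sum_inv_le {y x : ℕ} (hy : 1 ≤ y) (hyx : y ≤ x) :
    ∑ a ∈ Finset.Ioc y x, (1 : ℝ) / a ≤ Real.log ((x : ℝ) / y) := by
  induction x, hyx using Nat.le_induction with
  | base =>
    rw [Finset.Ioc_self, Finset.sum_empty]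
    have : (y : ℝ) ≠ 0 := by positivity
    rw [div_self this, Real.log_one]
  | succ n hn ih =>
    rw [← Finset.insert_Ioc_right_eq_Ioc_add_one (by omega), Finset.sum_insert (by simp)]
    have hn0 : (0 : ℝ) < n := by
      have : 0 < n := by omega
      exact_mod_cast this
    have hy0 : (0 : ℝ) < y := by exact_mod_cast hy
    have h1 : (1 : ℝ) / ((n + 1 : ℕ) : ℝ) ≤ Real.log (((n : ℝ) + 1) / n) := by
      have h2 := Real.one_sub_inv_le_log_of_pos (x := ((n : ℝ) + 1) / n) (by positivity)
      refine le_trans (le_of_eq ?_) h2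
      push_cast
      field_simp
      ring
    have h3 : Real.log (((n + 1 : ℕ) : ℝ) / y) =
        Real.log (((n : ℝ) + 1) / n) + Real.log ((n : ℝ) / y) := by
      rw [← Real.log_mul (by positivity) (by positivity)]
      congr 1
      push_cast
      field_simp
    rw [h3]
    exact add_le_add h1 ih

theorem ug_prod_sum_le {r : ℕ} (y x : Fin r → ℕ) (hy : ∀ i, 1 ≤ y i) (hyx : ∀ i, y i ≤ x i) :
    ∑ a ∈ Fintype.piFinset (fun i => Finset.Ioc (y i) (x i)), ∏ i, (1 : ℝ) / (a i) ≤
      ∏ i, Real.log ((x i : ℝ) / (y i)) := by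
  rw [← Finset.prod_univ_sum (fun i => Finset.Ioc (y i) (x i)) (fun _ (a : ℕ) => (1 : ℝ) / a)]
  refine Finset.prod_le_prod (fun i _ => Finset.sum_nonneg fun a _ => by positivity) fun i _ => ?_
  exact ug_sum_inv_le (hy i) (hyx i)

/-- Induction on r (with d, D, ε general): for good (a_0, ..., a_(r-1)) the d (D+1)^r numbers
w_b ∏ log(a_i)^(e_i) are linearly independent, and if log a is not a root of a nonzero polynomial of
degree ≤ D with coefficients in their span then (a_0, ..., a_(r-1), a) is good (see
`indep_of_not_bad`, `tuples` in Lib_MP_1eadae_la/Tup.lean; here the sum over the last (or the first)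
coordinate is estimated by hU for the good tuples, uniformly, and the bad tuples by induction; the sum
of 1/a over (y, x] is at most log (x/y)). -/
theorem joint (hU : ∀ (d D : ℕ) (ε : ℝ), 0 < ε → ∃ R : ℕ, ∀ (w : Fin d → ℂ) (y x : ℕ), 1 ≤ y →
      R * y ≤ x →
      ∑ a ∈ Finset.Ioc y x, {a : ℕ | BadK (Submodule.span Qb (Set.range w)) D
        (Complex.log (a : ℂ))}.indicator (fun a : ℕ => (1 : ℝ) / a) a ≤
          ε * Real.log ((x : ℝ) / y))
    (d D r : ℕ) {ε : ℝ} (hε : 0 < ε) : ∃ R : ℕ, ∀ w : Fin d → ℂ, LinearIndependent Qb w →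
      ∀ y x : Fin r → ℕ, (∀ i, 1 ≤ y i) → (∀ i, R * y i ≤ x i) →
      ∑ a ∈ Fintype.piFinset (fun i => Finset.Ioc (y i) (x i)),
        {a : Fin r → ℕ | ¬ LinearIndependent Qb (fun be : Fin d × (Fin r → Fin (D + 1)) =>
          w be.1 * ∏ i, Complex.log (a i : ℂ) ^ (be.2 i : ℕ))}.indicator
            (fun a => ∏ i, (1 : ℝ) / (a i)) a ≤
        ε * ∏ i, Real.log ((x i : ℝ) / (y i)) := by
  classical
  induction r generalizing d ε with
  | zero =>
    refine ⟨0, fun w hw y x _ _ => ?_⟩
    have hgood : ∀ a : Fin 0 → ℕ, LinearIndependent Qb (fun be : Fin d × (Fin 0 → Fin (D + 1)) =>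
        w be.1 * ∏ i, Complex.log (a i : ℂ) ^ (be.2 i : ℕ)) := by
      intro a
      have h1 : (fun be : Fin d × (Fin 0 → Fin (D + 1)) =>
          w be.1 * ∏ i, Complex.log (a i : ℂ) ^ (be.2 i : ℕ)) = w ∘ Prod.fst := by
        funext be
        simp
      rw [h1]
      refine hw.comp Prod.fst ?_
      rintro ⟨a, e⟩ ⟨b, f⟩ hab
      exact Prod.ext hab (Subsingleton.elim _ _)
    rw [Finset.sum_eq_zero]
    · rw [Finset.univ_eq_empty, Finset.prod_empty, mul_one]
      exact hε.le
    · intro a _
      refine Set.indicator_of_notMem ?_ _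
      intro h
      exact h (hgood a)
  | succ r ih =>
    obtain ⟨R1, hR1⟩ := hU d D (ε / 2) (by positivity)
    obtain ⟨R2, hR2⟩ := ih (d * (D + 1)) (ε := ε / 2) (by positivity)
    refine ⟨R1 + R2 + 1, fun w hw y x hy hx => ?_⟩
    have hyx : ∀ i, y i ≤ x i := fun i => by
      refine le_trans ?_ (hx i)
      nlinarith [hy i, Nat.zero_le ((R1 + R2) * y i)]
    have hx1 : ∀ i, R1 * y i ≤ x i := fun i => by
      refine le_trans ?_ (hx i)
      exact Nat.mul_le_mul_right _ (by omega)
    have hx2 : ∀ i, R2 * y i ≤ x i := fun i => by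
      refine le_trans ?_ (hx i)
      exact Nat.mul_le_mul_right _ (by omega)
    have hL : ∀ i, 0 ≤ Real.log ((x i : ℝ) / (y i)) := fun i => by
      refine Real.log_nonneg ?_
      have h1 : (0 : ℝ) < y i := by exact_mod_cast hy i
      rw [le_div_iff₀ h1, one_mul]
      exact_mod_cast hyx i
    set PL : ℝ := ∏ i : Fin r, Real.log ((x i.succ : ℝ) / (y i.succ)) with hPL
    have hPL0 : 0 ≤ PL := Finset.prod_nonneg fun i _ => hL i.succ
    rw [ug_sum_piFinset_succ, Fin.prod_univ_succ, ← hPL]
    set B : Set ℕ := {a : ℕ | BadK (Submodule.span Qb (Set.range w)) D (Complex.log (a : ℂ))}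
      with hB
    have hin : ∀ a0 ∈ Finset.Ioc (y 0) (x 0),
        ∑ v ∈ Fintype.piFinset (fun i : Fin r => Finset.Ioc (y i.succ) (x i.succ)),
          {a : Fin (r + 1) → ℕ | ¬ LinearIndependent Qb
            (fun be : Fin d × (Fin (r + 1) → Fin (D + 1)) =>
              w be.1 * ∏ i, Complex.log (a i : ℂ) ^ (be.2 i : ℕ))}.indicator
                (fun a => ∏ i, (1 : ℝ) / (a i)) (Fin.cons (α := fun _ => ℕ) a0 v) ≤
          B.indicator (fun a : ℕ => (1 : ℝ) / a) a0 * PL + (1 : ℝ) / a0 * (ε / 2 * PL) := by
      intro a0 _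
      have hprod : ∀ v : Fin r → ℕ,
          ∏ i, (1 : ℝ) / ((Fin.cons (α := fun _ => ℕ) a0 v : Fin (r + 1) → ℕ) i : ℝ) =
            (1 : ℝ) / a0 * ∏ i, (1 : ℝ) / (v i) := by
        intro v
        rw [Fin.prod_univ_succ, Fin.cons_zero]
        simp only [Fin.cons_succ]
      by_cases ha0 : a0 ∈ B
      · have h1 : ∑ v ∈ Fintype.piFinset (fun i : Fin r => Finset.Ioc (y i.succ) (x i.succ)),
          {a : Fin (r + 1) → ℕ | ¬ LinearIndependent Qb
            (fun be : Fin d × (Fin (r + 1) → Fin (D + 1)) =>
              w be.1 * ∏ i, Complex.log (a i : ℂ) ^ (be.2 i : ℕ))}.indicator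
                (fun a => ∏ i, (1 : ℝ) / (a i)) (Fin.cons (α := fun _ => ℕ) a0 v) ≤
            ∑ v ∈ Fintype.piFinset (fun i : Fin r => Finset.Ioc (y i.succ) (x i.succ)),
              (1 : ℝ) / a0 * ∏ i, (1 : ℝ) / (v i) := by
          refine Finset.sum_le_sum fun v _ => ?_
          refine le_trans (Set.indicator_le_self' (fun a _ => ?_) _) (le_of_eq (hprod v))
          exact Finset.prod_nonneg fun i _ => by positivity
        rw [← Finset.mul_sum] at h1
        have h2 := ug_prod_sum_le (fun i : Fin r => y i.succ) (fun i => x i.succ)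
          (fun i => hy i.succ) (fun i => hyx i.succ)
        rw [Set.indicator_of_mem ha0]
        have h3 : (1 : ℝ) / a0 * ∑ v ∈ Fintype.piFinset
            (fun i : Fin r => Finset.Ioc (y i.succ) (x i.succ)), ∏ i, (1 : ℝ) / (v i) ≤
            (1 : ℝ) / a0 * PL := mul_le_mul_of_nonneg_left h2 (by positivity)
        have h4 : (0 : ℝ) ≤ (1 : ℝ) / a0 * (ε / 2 * PL) := by positivity
        linarith
      · rw [Set.indicator_of_notMem ha0, zero_mul, zero_add]
        have hli := ug_indep w hw D a0 ha0
        have hli2 := hli.comp (finProdFinEquiv (m := d) (n := D + 1)).symm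
          (finProdFinEquiv (m := d) (n := D + 1)).symm.injective
        have h1 := hR2 _ hli2 (fun i => y i.succ) (fun i => x i.succ) (fun i => hy i.succ)
          (fun i => hx2 i.succ)
        have h2 : ∑ v ∈ Fintype.piFinset (fun i : Fin r => Finset.Ioc (y i.succ) (x i.succ)),
          {a : Fin (r + 1) → ℕ | ¬ LinearIndependent Qb
            (fun be : Fin d × (Fin (r + 1) → Fin (D + 1)) =>
              w be.1 * ∏ i, Complex.log (a i : ℂ) ^ (be.2 i : ℕ))}.indicator
                (fun a => ∏ i, (1 : ℝ) / (a i)) (Fin.cons (α := fun _ => ℕ) a0 v) ≤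
            ∑ v ∈ Fintype.piFinset (fun i : Fin r => Finset.Ioc (y i.succ) (x i.succ)),
              (1 : ℝ) / a0 * {a : Fin r → ℕ | ¬ LinearIndependent Qb
                (fun be : Fin (d * (D + 1)) × (Fin r → Fin (D + 1)) =>
                  ((fun be : Fin d × Fin (D + 1) => w be.1 * Complex.log (a0 : ℂ) ^ (be.2 : ℕ)) ∘
                    (finProdFinEquiv (m := d) (n := D + 1)).symm) be.1 *
                      ∏ i, Complex.log (a i : ℂ) ^ (be.2 i : ℕ))}.indicator
                (fun a => ∏ i, (1 : ℝ) / (a i)) v := by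
          refine Finset.sum_le_sum fun v _ => ?_
          by_cases hv : LinearIndependent Qb
            (fun be : Fin (d * (D + 1)) × (Fin r → Fin (D + 1)) =>
                  ((fun be : Fin d × Fin (D + 1) => w be.1 * Complex.log (a0 : ℂ) ^ (be.2 : ℕ)) ∘
                    (finProdFinEquiv (m := d) (n := D + 1)).symm) be.1 *
                      ∏ i, Complex.log (v i : ℂ) ^ (be.2 i : ℕ))
          · rw [Set.indicator_of_notMem]
            · refine mul_nonneg (by positivity) (Set.indicator_nonneg (fun a _ => ?_) _)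
              exact Finset.prod_nonneg fun i _ => by positivity
            · intro hcon
              refine hcon ?_
              let e : Fin d × (Fin (r + 1) → Fin (D + 1)) →
                  Fin (d * (D + 1)) × (Fin r → Fin (D + 1)) :=
                fun be => (finProdFinEquiv (be.1, be.2 0), fun i => be.2 i.succ)
              have he : Function.Injective e := by
                rintro ⟨b, f⟩ ⟨b', f'⟩ h
                simp only [e, Prod.mk.injEq, EmbeddingLike.apply_eq_iff_eq] at h
                obtain ⟨⟨h1, h2⟩, h3⟩ := h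
                refine Prod.ext h1 ?_
                funext i
                refine Fin.cases ?_ (fun j => ?_) i
                · exact h2
                · exact congrFun h3 j
              have h3 := hv.comp e he
              have h4 : (fun be : Fin d × (Fin (r + 1) → Fin (D + 1)) =>
                  w be.1 * ∏ i, Complex.log
                    (((Fin.cons (α := fun _ => ℕ) a0 v : Fin (r + 1) → ℕ) i : ℕ) : ℂ) ^
                      (be.2 i : ℕ)) =
                  (fun be : Fin (d * (D + 1)) × (Fin r → Fin (D + 1)) =>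
                  ((fun be : Fin d × Fin (D + 1) => w be.1 * Complex.log (a0 : ℂ) ^ (be.2 : ℕ)) ∘
                    (finProdFinEquiv (m := d) (n := D + 1)).symm) be.1 *
                      ∏ i, Complex.log (v i : ℂ) ^ (be.2 i : ℕ)) ∘ e := by
                funext be
                simp only [Function.comp_apply, e, Fin.prod_univ_succ, Fin.cons_zero,
                  Fin.cons_succ, Equiv.symm_apply_apply]
                ring
              rw [h4]
              exact h3
          · have hv' : v ∈ {a : Fin r → ℕ | ¬ LinearIndependent Qb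
                (fun be : Fin (d * (D + 1)) × (Fin r → Fin (D + 1)) =>
                  ((fun be : Fin d × Fin (D + 1) => w be.1 * Complex.log (a0 : ℂ) ^ (be.2 : ℕ)) ∘
                    (finProdFinEquiv (m := d) (n := D + 1)).symm) be.1 *
                      ∏ i, Complex.log (a i : ℂ) ^ (be.2 i : ℕ))} := hv
            rw [Set.indicator_of_mem hv']
            refine le_trans (Set.indicator_le_self' (fun a _ => ?_) _) (le_of_eq (hprod v))
            exact Finset.prod_nonneg fun i _ => by positivity
        rw [← Finset.mul_sum] at h2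
        refine le_trans h2 (mul_le_mul_of_nonneg_left h1 (by positivity))
    refine le_trans (Finset.sum_le_sum hin) ?_
    rw [Finset.sum_add_distrib, ← Finset.sum_mul, ← Finset.sum_mul]
    have h1 := hR1 w (y 0) (x 0) (hy 0) (hx1 0)
    have h2 := ug_sum_inv_le (hy 0) (hyx 0)
    have h3 := mul_le_mul_of_nonneg_right h1 hPL0
    have h4 : 0 ≤ ε / 2 * PL := by positivity
    have h5 := mul_le_mul_of_nonneg_right h2 h4
    calc _ ≤ ε / 2 * Real.log ((x 0 : ℝ) / (y 0)) * PL +
          Real.log ((x 0 : ℝ) / (y 0)) * (ε / 2 * PL) := add_le_add h3 h5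
      _ = ε * (Real.log ((x 0 : ℝ) / (y 0)) * PL) := by ring

end Pool.Agent.LogAll
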