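import Pool.Agent.Lib_MP_1eadae_lu.UU
import Pool.Agent.Lib_MP_1eadae_lu.UF
import Pool.Agent.Lib_MP_1eadae_lu.UG

/-!
# The uniform theorem for tuples of integers
-/

set_option autoImplicit false

namespace Pool.Agent.LogAll

open Polynomial Pool.Agent.LogRel

theorem window_bad (d D : ℕ) (ε : ℝ) (hε : 0 < ε) : ∃ R : ℕ, ∀ (w : Fin d → ℂ) (y x : ℕ),
    1 ≤ y → R * y ≤ x →
      ∑ a ∈ Finset.Ioc y x, {a : ℕ | BadK (Submodule.span Qb (Set.range w)) D
        (Complex.log (a : ℂ))}.indicator (fun a : ℕ => (1 : ℝ) / a) a ≤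
          ε * Real.log ((x : ℝ) / y) := by
  obtain ⟨z, hz⟩ := uni d D (half_pos hε)
  obtain ⟨R, hR⟩ := window z (half_pos hε)
  refine ⟨R, fun w y x hy hx => ?_⟩
  have h1 := hR {a : ℕ | BadK (Submodule.span Qb (Set.range w)) D (Complex.log (a : ℂ))} (ε / 2)
    (fun r hr => ?_) y x hy hx
  · rw [add_halves] at h1
    exact h1
  · refine le_trans ?_ (hz w (Complex.log (r : ℂ)))
    have hm := sm_mean (Nat.primesBelow z) (prime_below z)
    have h2 : {v : ℕ | v * r ∈ {a : ℕ | BadK (Submodule.span Qb (Set.range w)) D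
        (Complex.log (a : ℂ))}} ⊆ {v : ℕ | 0 < v ∧
          BadK (Submodule.span Qb (Set.range w)) D (Complex.log (v : ℂ) + Complex.log (r : ℂ))} ∪
          (Nat.factoredNumbers (Nat.primesBelow z))ᶜ := by
      intro v hv
      rcases Nat.eq_zero_or_pos v with h0 | h0
      · refine Or.inr fun h3 => ?_
        exact Nat.ne_zero_of_mem_factoredNumbers h3 h0
      · refine Or.inl ⟨h0, ?_⟩
        have h3 : BadK (Submodule.span Qb (Set.range w)) D (Complex.log ((v * r : ℕ) : ℂ)) := hv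
        rw [clog_mul h0 hr] at h3
        exact h3
    have h3 := hm.mono _ _ h2
    have h4 := hm.union_le {v : ℕ | 0 < v ∧
          BadK (Submodule.span Qb (Set.range w)) D (Complex.log (v : ℂ) + Complex.log (r : ℂ))}
          (Nat.factoredNumbers (Nat.primesBelow z))ᶜ
    rw [hm.supp, add_zero] at h4
    exact h3.trans h4

/-- the uniform theorem for tuples of integers -/
theorem tuples_uniform (d D r : ℕ) {ε : ℝ} (hε : 0 < ε) : ∃ R : ℕ, ∀ w : Fin d → ℂ,
      LinearIndependent Qb w →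
      ∀ y x : Fin r → ℕ, (∀ i, 1 ≤ y i) → (∀ i, R * y i ≤ x i) →
      ∑ a ∈ Fintype.piFinset (fun i => Finset.Ioc (y i) (x i)),
        {a : Fin r → ℕ | ¬ LinearIndependent Qb (fun be : Fin d × (Fin r → Fin (D + 1)) =>
          w be.1 * ∏ i, Complex.log (a i : ℂ) ^ (be.2 i : ℕ))}.indicator
            (fun a => ∏ i, (1 : ℝ) / (a i)) a ≤
        ε * ∏ i, Real.log ((x i : ℝ) / (y i)) :=
  joint window_bad d D r hε

end Pool.Agent.LogAll
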