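import Pool.Agent.Lib_MP_1eadae_lu.UDefs

/-!
# Piece UA: properties of `SM`
-/

set_option autoImplicit false

namespace Pool.Agent.LogAll

open Classical in
private noncomputable def uaChi (A : Set ℕ) (m : ℕ) : ℝ := if m ∈ A then 1 else 0

private theorem uaChi_nonneg (A : Set ℕ) (m : ℕ) : 0 ≤ uaChi A m := by
  unfold uaChi
  split_ifs <;> norm_num

private theorem uaChi_le_one (A : Set ℕ) (m : ℕ) : uaChi A m ≤ 1 := by
  unfold uaChi
  split_ifs <;> norm_num

private theorem uaChi_sq (A : Set ℕ) (m : ℕ) : uaChi A m * uaChi A m = uaChi A m := by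
  unfold uaChi
  split_ifs <;> norm_num

private theorem uaChi_inter (A B : Set ℕ) (m : ℕ) :
    uaChi (A ∩ B) m = uaChi A m * uaChi B m := by
  unfold uaChi
  by_cases hA : m ∈ A <;> by_cases hB : m ∈ B <;> simp [hA, hB]

private theorem uaChi_mono {A B : Set ℕ} (h : A ⊆ B) (m : ℕ) : uaChi A m ≤ uaChi B m := by
  unfold uaChi
  by_cases hA : m ∈ A
  · rw [if_pos hA, if_pos (h hA)]
  · rw [if_neg hA]
    split_ifs <;> norm_num

private theorem uaChi_union {A B : Set ℕ} (h : Disjoint A B) (m : ℕ) :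
    uaChi (A ∪ B) m = uaChi A m + uaChi B m := by
  unfold uaChi
  by_cases hA : m ∈ A
  · have hB : m ∉ B := fun hB => Set.disjoint_left.1 h hA hB
    simp [hA, hB]
  · by_cases hB : m ∈ B <;> simp [hA, hB]

private theorem ua_ind (A : Set ℕ) (m : ℕ) :
    A.indicator (fun m : ℕ => (1 : ℝ) / m) m = uaChi A m * (1 / (m : ℝ)) := by
  unfold uaChi
  by_cases hA : m ∈ A
  · rw [Set.indicator_of_mem hA, if_pos hA, one_mul]
  · rw [Set.indicator_of_notMem hA, if_neg hA, zero_mul]

private theorem ua_summable (s : Finset ℕ) :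
    Summable (fun m : Nat.factoredNumbers s => (1 : ℝ) / ((m : ℕ) : ℝ)) := by
  let f : ℕ →* ℝ :=
    { toFun := fun m => ((m : ℕ) : ℝ)⁻¹
      map_one' := by simp
      map_mul' := by
        intro a b
        rw [Nat.cast_mul, mul_inv] }
  have h := (EulerProduct.summable_and_hasSum_factoredNumbers_prod_filter_prime_geometric
    (f := f) (fun {p} hp => by
      show ‖((p : ℕ) : ℝ)⁻¹‖ < 1
      have h2 : (2 : ℝ) ≤ p := by exact_mod_cast hp.two_le
      rw [norm_inv, Real.norm_eq_abs, abs_of_nonneg (by linarith)]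
      exact inv_lt_one_of_one_lt₀ (by linarith)) s).1
  refine h.congr fun m => ?_
  show ‖((m : ℕ) : ℝ)⁻¹‖ = 1 / ((m : ℕ) : ℝ)
  rw [norm_inv, Real.norm_eq_abs, abs_of_nonneg (Nat.cast_nonneg _), one_div]

/-- the normalising constant -/
private noncomputable def uaZ (s : Finset ℕ) : ℝ :=
  ∑' m : Nat.factoredNumbers s, (1 : ℝ) / ((m : ℕ) : ℝ)

private theorem ua_one_mem (s : Finset ℕ) : 1 ∈ Nat.factoredNumbers s := by
  rw [Nat.mem_factoredNumbers]
  simp

private theorem uaZ_pos (s : Finset ℕ) : 0 < uaZ s := by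
  refine (ua_summable s).tsum_pos (fun m => by positivity) ⟨1, ua_one_mem s⟩ ?_
  simp

private theorem ua_summable_chi (s : Finset ℕ) (A : Set ℕ) :
    Summable (fun m : Nat.factoredNumbers s => uaChi A m * (1 / ((m : ℕ) : ℝ))) := by
  refine Summable.of_nonneg_of_le (fun m => ?_) (fun m => ?_) (ua_summable s)
  · exact mul_nonneg (uaChi_nonneg A m) (by positivity)
  · exact mul_le_of_le_one_left (by positivity) (uaChi_le_one A m)

private theorem ua_SM (s : Finset ℕ) (A : Set ℕ) :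
    SM s A = (∑' m : Nat.factoredNumbers s, uaChi A m * (1 / ((m : ℕ) : ℝ))) / uaZ s := by
  unfold SM uaZ
  congr 1
  exact tsum_congr fun m => ua_ind A m

private theorem ua_hasSum (s : Finset ℕ) (A : Set ℕ) :
    HasSum (fun m : Nat.factoredNumbers s => uaChi A m * (1 / ((m : ℕ) : ℝ))) (uaZ s * SM s A) := by
  rw [ua_SM, mul_div_cancel₀ _ (uaZ_pos s).ne']
  exact (ua_summable_chi s A).hasSum

/-- `SM s` is a mean. Summability: `EulerProduct.summable_and_hasSum_factoredNumbers_prod_filter_prime_geometric`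
for m ↦ 1 / m, or by induction on s. dil: p A inside the s-factored numbers is the image under
multiplication by p of A inside the s-factored numbers (p in s prime). quad: expand the sum over m of
(t 1_A(m) + #{p in P, p | m} - c)^2 / m (all functions are bounded). -/
theorem sm_mean (s : Finset ℕ) (hs : ∀ p ∈ s, p.Prime) : IsMeanOn s (SM s) := by
  have hZ := uaZ_pos s
  have hmono : ∀ A B : Set ℕ, A ⊆ B → SM s A ≤ SM s B := by
    intro A B h
    rw [ua_SM, ua_SM]
    refine div_le_div_of_nonneg_right ?_ hZ.le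
    refine (ua_summable_chi s A).tsum_le_tsum (fun m => ?_) (ua_summable_chi s B)
    exact mul_le_mul_of_nonneg_right (uaChi_mono h m) (by positivity)
  refine ⟨?_, hmono, ?_, ?_, ?_, ?_, ?_⟩
  · intro A
    rw [ua_SM]
    exact div_nonneg (tsum_nonneg fun m => mul_nonneg (uaChi_nonneg A m) (by positivity)) hZ.le
  · intro A B h
    rw [ua_SM, ua_SM, ua_SM, ← add_div, ← (ua_summable_chi s A).tsum_add (ua_summable_chi s B)]
    congr 1
    refine tsum_congr fun m => ?_
    rw [uaChi_union h, add_mul]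
  · rw [ua_SM]
    have h1 : ∑' m : Nat.factoredNumbers s, uaChi Set.univ m * (1 / ((m : ℕ) : ℝ)) = uaZ s := by
      unfold uaZ
      refine tsum_congr fun m => ?_
      unfold uaChi
      rw [if_pos (Set.mem_univ _), one_mul]
    rw [h1, div_self hZ.ne']
  · rw [ua_SM]
    have h1 : ∑' m : Nat.factoredNumbers s, uaChi (Nat.factoredNumbers s)ᶜ m * (1 / ((m : ℕ) : ℝ)) =
        ∑' _ : Nat.factoredNumbers s, (0 : ℝ) := by
      refine tsum_congr fun m => ?_
      unfold uaChi
      rw [if_neg (fun h => h m.2), zero_mul]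
    rw [h1, tsum_zero, zero_div]
  · intro p hp A
    have hpp := hs p hp
    have hp0 : (p : ℝ) ≠ 0 := by exact_mod_cast hpp.ne_zero
    have hpm : p ∈ Nat.factoredNumbers s := by
      rw [Nat.mem_factoredNumbers', ]
      intro q hq hqp
      rw [(Nat.prime_dvd_prime_iff_eq hq hpp).1 hqp]
      exact hp
    let φ : Nat.factoredNumbers s → Nat.factoredNumbers s := fun m =>
      ⟨p * m, Nat.mul_mem_factoredNumbers hpm m.2⟩
    have hφ : Function.Injective φ := by
      intro a b hab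
      have h1 : p * (a : ℕ) = p * (b : ℕ) := congrArg Subtype.val hab
      exact Subtype.ext (Nat.eq_of_mul_eq_mul_left hpp.pos h1)
    rw [ua_SM, ua_SM, div_right_comm]
    congr 1
    have h1 : ∑' m : Nat.factoredNumbers s, uaChi ((fun a => p * a) '' A) m * (1 / ((m : ℕ) : ℝ)) =
        ∑' m : Nat.factoredNumbers s,
          uaChi ((fun a => p * a) '' A) (φ m) * (1 / ((φ m : ℕ) : ℝ)) := by
      refine (hφ.tsum_eq (f := fun m : Nat.factoredNumbers s =>
        uaChi ((fun a => p * a) '' A) m * (1 / ((m : ℕ) : ℝ))) ?_).symm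
      intro m hm
      have h2 : (m : ℕ) ∈ (fun a => p * a) '' A := by
        by_contra h3
        apply hm
        show uaChi ((fun a => p * a) '' A) m * (1 / ((m : ℕ) : ℝ)) = 0
        unfold uaChi
        rw [if_neg h3, zero_mul]
      obtain ⟨a, _, ha⟩ := h2
      have ha' : p * a = (m : ℕ) := ha
      have ham : a ∈ Nat.factoredNumbers s :=
        Nat.mem_factoredNumbers_of_dvd m.2 ⟨p, by rw [← ha', mul_comm]⟩
      exact ⟨⟨a, ham⟩, Subtype.ext ha'⟩
    rw [h1, ← tsum_div_const]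
    refine tsum_congr fun m => ?_
    have h2 : uaChi ((fun a => p * a) '' A) (φ m) = uaChi A m := by
      unfold uaChi
      by_cases hm : (m : ℕ) ∈ A
      · rw [if_pos hm, if_pos ⟨m, hm, rfl⟩]
      · rw [if_neg hm, if_neg]
        rintro ⟨a, ha, hab⟩
        have h3 : p * a = p * (m : ℕ) := hab
        rw [Nat.eq_of_mul_eq_mul_left hpp.pos h3] at ha
        exact hm ha
    rw [h2]
    show uaChi A m * (1 / ((p * (m : ℕ) : ℕ) : ℝ)) = uaChi A m * (1 / ((m : ℕ) : ℝ)) / p
    rw [Nat.cast_mul]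
    field_simp
  · intro P A t c
    have h0 := ua_hasSum s
    have hU : HasSum (fun m : Nat.factoredNumbers s => (1 / ((m : ℕ) : ℝ))) (uaZ s) :=
      (ua_summable s).hasSum
    have key := ((((((h0 A).mul_left (t ^ 2)).add
      (hasSum_sum (s := P) fun p _ => hasSum_sum (s := P) fun q _ =>
        h0 ({a | p ∣ a} ∩ {a | q ∣ a}))).add (hU.mul_left (c ^ 2))).add
      ((hasSum_sum (s := P) fun p _ => h0 (A ∩ {a | p ∣ a})).mul_left (2 * t))).sub
      ((h0 A).mul_left (2 * t * c))).sub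
      ((hasSum_sum (s := P) fun p _ => h0 {a | p ∣ a}).mul_left (2 * c))
    have hpt : ∀ m : Nat.factoredNumbers s, 0 ≤
        t ^ 2 * (uaChi A m * (1 / ((m : ℕ) : ℝ))) +
          ∑ p ∈ P, ∑ q ∈ P, uaChi ({a | p ∣ a} ∩ {a | q ∣ a}) m * (1 / ((m : ℕ) : ℝ)) +
          c ^ 2 * (1 / ((m : ℕ) : ℝ)) +
          2 * t * ∑ p ∈ P, uaChi (A ∩ {a | p ∣ a}) m * (1 / ((m : ℕ) : ℝ)) -
          2 * t * c * (uaChi A m * (1 / ((m : ℕ) : ℝ))) -
          2 * c * ∑ p ∈ P, uaChi {a | p ∣ a} m * (1 / ((m : ℕ) : ℝ)) := by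
      intro m
      have e1 : t ^ 2 * (uaChi A m * (1 / ((m : ℕ) : ℝ))) +
          ∑ p ∈ P, ∑ q ∈ P, uaChi ({a | p ∣ a} ∩ {a | q ∣ a}) m * (1 / ((m : ℕ) : ℝ)) +
          c ^ 2 * (1 / ((m : ℕ) : ℝ)) +
          2 * t * ∑ p ∈ P, uaChi (A ∩ {a | p ∣ a}) m * (1 / ((m : ℕ) : ℝ)) -
          2 * t * c * (uaChi A m * (1 / ((m : ℕ) : ℝ))) -
          2 * c * ∑ p ∈ P, uaChi {a | p ∣ a} m * (1 / ((m : ℕ) : ℝ)) =
          (t * uaChi A m + ∑ p ∈ P, uaChi {a | p ∣ a} m - c) ^ 2 * (1 / ((m : ℕ) : ℝ)) := by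
        have e2 : ∑ p ∈ P, ∑ q ∈ P, uaChi ({a | p ∣ a} ∩ {a | q ∣ a}) m * (1 / ((m : ℕ) : ℝ)) =
            (∑ p ∈ P, uaChi {a | p ∣ a} m) * (∑ p ∈ P, uaChi {a | p ∣ a} m) *
              (1 / ((m : ℕ) : ℝ)) := by
          rw [Finset.sum_mul_sum, Finset.sum_mul]
          refine Finset.sum_congr rfl fun p _ => ?_
          rw [Finset.sum_mul]
          refine Finset.sum_congr rfl fun q _ => ?_
          rw [uaChi_inter]
        have e3 : ∑ p ∈ P, uaChi (A ∩ {a | p ∣ a}) m * (1 / ((m : ℕ) : ℝ)) =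
            uaChi A m * (∑ p ∈ P, uaChi {a | p ∣ a} m) * (1 / ((m : ℕ) : ℝ)) := by
          rw [Finset.mul_sum, Finset.sum_mul]
          refine Finset.sum_congr rfl fun p _ => ?_
          rw [uaChi_inter]
        have e4 := uaChi_sq A m
        rw [e2, e3, ← Finset.sum_mul]
        linear_combination (-(t ^ 2) * (1 / ((m : ℕ) : ℝ))) * e4
      rw [e1]
      positivity
    have h1 := HasSum.nonneg hpt key
    refine nonneg_of_mul_nonneg_right (?_ : 0 ≤ uaZ s * _) hZ
    refine h1.trans (le_of_eq ?_)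
    simp only [← Finset.mul_sum]
    ring

end Pool.Agent.LogAll
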