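import Pool.Agent.Lib_MP_1eadae_lu.UDefs

/-!
# Piece UA2: conditioning and tails of `SM`
-/

set_option autoImplicit false

namespace Pool.Agent.LogAll

private theorem fn_summable (s : Finset ℕ) : Summable (fun m : Nat.factoredNumbers s => (1 : ℝ) / ((m : ℕ) : ℝ)) := by
  have h := (EulerProduct.summable_and_hasSum_factoredNumbers_prod_filter_prime_geometric
    (f := (⟨⟨fun m : ℕ => (1 : ℝ) / (m : ℝ), by simp⟩, by
      intro a b
      show (1 : ℝ) / ((a * b : ℕ) : ℝ) = 1 / (a : ℝ) * (1 / (b : ℝ))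
      push_cast
      rw [one_div_mul_one_div]⟩ : ℕ →* ℝ)) (by
      intro p hp
      show ‖(1 : ℝ) / (p : ℝ)‖ < 1
      rw [norm_div, norm_one, Real.norm_natCast]
      exact (div_lt_one (by exact_mod_cast hp.pos)).2 (by exact_mod_cast hp.one_lt)) s).1
  refine h.congr fun m => ?_
  show ‖(1 : ℝ) / ((m : ℕ) : ℝ)‖ = (1 : ℝ) / ((m : ℕ) : ℝ)
  rw [Real.norm_of_nonneg (by positivity)]

private theorem ind_nonneg (A : Set ℕ) (m : ℕ) : 0 ≤ A.indicator (fun m : ℕ => (1 : ℝ) / m) m :=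
  Set.indicator_nonneg (fun _ _ => by positivity) _

private theorem ind_le (A : Set ℕ) (m : ℕ) : A.indicator (fun m : ℕ => (1 : ℝ) / m) m ≤ (1 : ℝ) / (m : ℝ) :=
  Set.indicator_le_self' (fun _ _ => by positivity) _

private theorem ind_summable (s : Finset ℕ) (A : Set ℕ) :
    Summable (fun m : Nat.factoredNumbers s => A.indicator (fun m : ℕ => (1 : ℝ) / m) (m : ℕ)) :=
  Summable.of_nonneg_of_le (fun _ => ind_nonneg A _) (fun _ => ind_le A _) (fn_summable s)

private theorem one_mem (s : Finset ℕ) : 1 ∈ Nat.factoredNumbers s := by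
  rw [Nat.mem_factoredNumbers']
  intro p hp h
  exact absurd (Nat.dvd_one.1 h) hp.ne_one

private theorem W_pos (s : Finset ℕ) : 0 < ∑' m : Nat.factoredNumbers s, (1 : ℝ) / ((m : ℕ) : ℝ) := by
  have h := (fn_summable s).sum_le_tsum {⟨1, one_mem s⟩} (fun _ _ => by positivity)
  rw [Finset.sum_singleton] at h
  have h1 : (1 : ℝ) / (((⟨1, one_mem s⟩ : Nat.factoredNumbers s) : ℕ) : ℝ) = 1 := by simp
  rw [h1] at h
  linarith

private theorem SM_mul (s : Finset ℕ) (A : Set ℕ) :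
    ∑' m : Nat.factoredNumbers s, A.indicator (fun m : ℕ => (1 : ℝ) / m) (m : ℕ) =
      SM s A * ∑' m : Nat.factoredNumbers s, (1 : ℝ) / ((m : ℕ) : ℝ) := by
  unfold SM
  rw [div_mul_cancel₀ _ (W_pos s).ne']

private theorem SM_nonneg (s : Finset ℕ) (A : Set ℕ) : 0 ≤ SM s A := by
  unfold SM
  exact div_nonneg (tsum_nonneg fun _ => ind_nonneg A _) (W_pos s).le

private theorem SM_le_one (s : Finset ℕ) (A : Set ℕ) : SM s A ≤ 1 := by
  unfold SM
  rw [div_le_one (W_pos s)]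
  exact (ind_summable s A).tsum_le_tsum (fun _ => ind_le A _) (fn_summable s)

private theorem fn_prime {s : Finset ℕ} {p : ℕ} (hp : p.Prime) (hps : p ∈ s) : p ∈ Nat.factoredNumbers s := by
  rw [Nat.mem_factoredNumbers']
  intro q hq h
  rwa [(Nat.prime_dvd_prime_iff_eq hq hp).1 h]

private theorem fn_split (s t : Finset ℕ) (m : ℕ) :
    m ∈ Nat.factoredNumbers (s ∪ t) → ∃ r ∈ Nat.factoredNumbers t, ∃ v ∈ Nat.factoredNumbers s, v * r = m := by
  induction m using induction_on_primes with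
  | zero => exact fun h => absurd rfl (Nat.ne_zero_of_mem_factoredNumbers h)
  | one => exact fun _ => ⟨1, one_mem t, 1, one_mem s, rfl⟩
  | prime_mul p a hp ih =>
    intro h
    obtain ⟨r, hr, v, hv, hvr⟩ := ih (Nat.mem_factoredNumbers_of_dvd h (Dvd.intro_left p rfl))
    have h1 : p ∈ s ∪ t := Nat.mem_factoredNumbers'.1 h p hp (Dvd.intro a rfl)
    rw [Finset.mem_union] at h1
    rcases h1 with h1 | h1
    · exact ⟨r, hr, p * v, Nat.mul_mem_factoredNumbers (fn_prime hp h1) hv, by rw [← hvr, mul_assoc]⟩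
    · exact ⟨p * r, Nat.mul_mem_factoredNumbers (fn_prime hp h1) hr, v, hv, by rw [← hvr]; ring⟩

private theorem fn_coprime {s t : Finset ℕ} (hst : Disjoint s t) {v r : ℕ} (hv : v ∈ Nat.factoredNumbers s)
    (hr : r ∈ Nat.factoredNumbers t) : v.Coprime r := by
  rw [Nat.coprime_iff_gcd_eq_one]
  by_contra h
  obtain ⟨p, hp, hpd⟩ := Nat.exists_prime_and_dvd h
  have h1 := Nat.mem_factoredNumbers'.1 hv p hp (hpd.trans (Nat.gcd_dvd_left v r))
  have h2 := Nat.mem_factoredNumbers'.1 hr p hp (hpd.trans (Nat.gcd_dvd_right v r))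
  exact Finset.disjoint_left.1 hst h1 h2

/-- multiplication `(r, v) ↦ v * r` -/
private noncomputable def fnE (s t : Finset ℕ) (hst : Disjoint s t) :
    Nat.factoredNumbers t × Nat.factoredNumbers s ≃ Nat.factoredNumbers (s ∪ t) :=
  Equiv.ofBijective (fun x => ⟨(x.2 : ℕ) * (x.1 : ℕ), Nat.mul_mem_factoredNumbers
    (Nat.factoredNumbers_mono Finset.subset_union_left x.2.2) (Nat.factoredNumbers_mono Finset.subset_union_right x.1.2)⟩) (by
    constructor
    · rintro ⟨⟨r, hr⟩, ⟨v, hv⟩⟩ ⟨⟨r', hr'⟩, ⟨v', hv'⟩⟩ h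
      have h1 : v * r = v' * r' := congrArg Subtype.val h
      have h2 : v ∣ v' := (fn_coprime hst hv hr').dvd_of_dvd_mul_right (h1 ▸ Dvd.intro r rfl)
      have h3 : v' ∣ v := (fn_coprime hst hv' hr).dvd_of_dvd_mul_right (h1 ▸ Dvd.intro r' rfl)
      have h4 : v = v' := Nat.dvd_antisymm h2 h3
      subst h4
      have h5 : r = r' := Nat.eq_of_mul_eq_mul_left (Nat.pos_of_ne_zero (Nat.ne_zero_of_mem_factoredNumbers hv)) h1
      subst h5
      rfl
    · rintro ⟨m, hm⟩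
      obtain ⟨r, hr, v, hv, hvr⟩ := fn_split s t m hm
      exact ⟨(⟨r, hr⟩, ⟨v, hv⟩), Subtype.ext hvr⟩)

private theorem fnE_apply (s t : Finset ℕ) (hst : Disjoint s t) (x : Nat.factoredNumbers t × Nat.factoredNumbers s) :
    ((fnE s t hst x : Nat.factoredNumbers (s ∪ t)) : ℕ) = (x.2 : ℕ) * (x.1 : ℕ) := rfl

private theorem num_split (s t : Finset ℕ) (hst : Disjoint s t) (A : Set ℕ) :
    ∑' m : Nat.factoredNumbers (s ∪ t), A.indicator (fun m : ℕ => (1 : ℝ) / m) (m : ℕ) =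
      (∑' r : Nat.factoredNumbers t, (1 : ℝ) / ((r : ℕ) : ℝ) * SM s {v | v * (r : ℕ) ∈ A}) *
        ∑' m : Nat.factoredNumbers s, (1 : ℝ) / ((m : ℕ) : ℝ) := by
  rw [← (fnE s t hst).tsum_eq (fun m : Nat.factoredNumbers (s ∪ t) => A.indicator (fun m : ℕ => (1 : ℝ) / m) (m : ℕ))]
  have hsum : Summable (fun x : Nat.factoredNumbers t × Nat.factoredNumbers s =>
      A.indicator (fun m : ℕ => (1 : ℝ) / m) ((fnE s t hst x : Nat.factoredNumbers (s ∪ t)) : ℕ)) :=
    (fnE s t hst).summable_iff.2 (ind_summable (s ∪ t) A)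
  rw [hsum.tsum_prod, ← tsum_mul_right]
  apply tsum_congr
  intro r
  rw [mul_assoc, ← SM_mul, ← tsum_mul_left]
  apply tsum_congr
  intro v
  rw [fnE_apply]
  by_cases h : (v : ℕ) * (r : ℕ) ∈ A
  · have h' : (v : ℕ) ∈ {v | v * (r : ℕ) ∈ A} := h
    rw [Set.indicator_of_mem h, Set.indicator_of_mem h', one_div_mul_one_div]
    push_cast
    rw [mul_comm]
  · have h' : (v : ℕ) ∉ {v | v * (r : ℕ) ∈ A} := h
    rw [Set.indicator_of_notMem h, Set.indicator_of_notMem h', mul_zero]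

/-- Conditioning: for disjoint sets of primes every (s ∪ t)-factored number is uniquely `v * r` with
`v` s-factored and `r` t-factored, so SM (s ∪ t) A is an average over r of SM s {v | v r ∈ A}. -/
theorem sm_split (s t : Finset ℕ) (hs : ∀ p ∈ s, p.Prime) (ht : ∀ p ∈ t, p.Prime)
    (hst : Disjoint s t) (A : Set ℕ) :
    ∃ r ∈ Nat.factoredNumbers t, SM (s ∪ t) A ≤ SM s {v | v * r ∈ A} := by
  by_contra hcon
  push Not at hcon
  have h1 := num_split s t hst A
  have h2 := num_split s t hst Set.univ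
  have hone : ∀ u : Finset ℕ, SM u Set.univ = 1 := by
    intro u
    unfold SM
    have h3 : ∀ m : Nat.factoredNumbers u, (Set.univ : Set ℕ).indicator (fun m : ℕ => (1 : ℝ) / m) (m : ℕ) = 1 / ((m : ℕ) : ℝ) :=
      fun m => Set.indicator_of_mem (Set.mem_univ _) _
    rw [tsum_congr h3, div_self (W_pos u).ne']
  rw [SM_mul, hone, one_mul] at h2
  have h3 : ∀ r : Nat.factoredNumbers t, (1 : ℝ) / ((r : ℕ) : ℝ) * SM s {v | v * (r : ℕ) ∈ (Set.univ : Set ℕ)} =
      1 / ((r : ℕ) : ℝ) := by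
    intro r
    have h4 : {v | v * (r : ℕ) ∈ (Set.univ : Set ℕ)} = Set.univ := Set.eq_univ_of_forall fun _ => Set.mem_univ _
    rw [h4, hone, mul_one]
  rw [tsum_congr h3] at h2
  rw [SM_mul, h2, ← mul_assoc] at h1
  have h5 := mul_right_cancel₀ (W_pos s).ne' h1
  have h6 : (∑' r : Nat.factoredNumbers t, (1 : ℝ) / ((r : ℕ) : ℝ) * SM s {v | v * (r : ℕ) ∈ A}) <
      ∑' r : Nat.factoredNumbers t, (1 : ℝ) / ((r : ℕ) : ℝ) * SM (s ∪ t) A := by
    have hpos : ∀ r : Nat.factoredNumbers t, 0 < (1 : ℝ) / ((r : ℕ) : ℝ) := fun r =>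
      div_pos one_pos (by exact_mod_cast Nat.pos_of_ne_zero (Nat.ne_zero_of_mem_factoredNumbers r.2))
    refine Summable.tsum_lt_tsum (i := ⟨1, one_mem t⟩) (fun r => mul_le_mul_of_nonneg_left (hcon r r.2).le (hpos r).le)
      (mul_lt_mul_of_pos_left (hcon _ (one_mem t)) (hpos _)) ?_ ((fn_summable t).mul_right _)
    exact Summable.of_nonneg_of_le (fun r => mul_nonneg (hpos r).le (SM_nonneg _ _))
      (fun r => mul_le_of_le_one_right (hpos r).le (SM_le_one _ _)) (fn_summable t)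
  rw [tsum_mul_right, mul_comm, h5] at h6
  exact lt_irrefl _ h6

/-- almost all of the mass lies on a finite set -/
theorem sm_tail (s : Finset ℕ) (hs : ∀ p ∈ s, p.Prime) {η : ℝ} (hη : 0 < η) :
    ∃ F : Finset ℕ, ∀ A : Set ℕ, SM s A ≤ SM s (A ∩ (F : Set ℕ)) + η := by
  classical
  have hW := W_pos s
  have hsum := (fn_summable s).hasSum
  have hev := (hsum.eventually (lt_mem_nhds (sub_lt_self (∑' m : Nat.factoredNumbers s, (1 : ℝ) / ((m : ℕ) : ℝ))
    (mul_pos hη hW)))).exists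
  obtain ⟨F, hF⟩ := hev
  refine ⟨F.image Subtype.val, fun A => ?_⟩
  have hsF : Summable (fun m : Nat.factoredNumbers s => if m ∈ F then (1 : ℝ) / ((m : ℕ) : ℝ) else 0) :=
    summable_of_ne_finset_zero (s := F) fun m hm => if_neg hm
  have htF : ∑' m : Nat.factoredNumbers s, (if m ∈ F then (1 : ℝ) / ((m : ℕ) : ℝ) else 0) =
      ∑ m ∈ F, (1 : ℝ) / ((m : ℕ) : ℝ) := by
    rw [tsum_eq_sum (s := F) fun m hm => if_neg hm]
    exact Finset.sum_congr rfl fun m hm => if_pos hm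
  have hle : ∑' m : Nat.factoredNumbers s, A.indicator (fun m : ℕ => (1 : ℝ) / m) (m : ℕ) ≤
      ∑' m : Nat.factoredNumbers s, ((A ∩ ((F.image Subtype.val : Finset ℕ) : Set ℕ)).indicator (fun m : ℕ => (1 : ℝ) / m) (m : ℕ) +
        ((1 : ℝ) / ((m : ℕ) : ℝ) - if m ∈ F then (1 : ℝ) / ((m : ℕ) : ℝ) else 0)) := by
    refine (ind_summable s A).tsum_le_tsum (fun m => ?_) ((ind_summable s _).add ((fn_summable s).sub hsF))
    by_cases hm : m ∈ F
    · rw [if_pos hm, sub_self, add_zero]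
      by_cases hA : (m : ℕ) ∈ A
      · have h1 : (m : ℕ) ∈ A ∩ ((F.image Subtype.val : Finset ℕ) : Set ℕ) :=
          ⟨hA, Finset.mem_coe.2 (Finset.mem_image_of_mem _ hm)⟩
        rw [Set.indicator_of_mem hA, Set.indicator_of_mem h1]
      · rw [Set.indicator_of_notMem hA]
        exact ind_nonneg _ _
    · rw [if_neg hm, sub_zero]
      have h1 := ind_le A (m : ℕ)
      have h2 := ind_nonneg (A ∩ ((F.image Subtype.val : Finset ℕ) : Set ℕ)) (m : ℕ)
      linarith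
  rw [Summable.tsum_add (ind_summable s _) ((fn_summable s).sub hsF), Summable.tsum_sub (fn_summable s) hsF, htF,
    SM_mul, SM_mul] at hle
  have h3 : SM s A * (∑' m : Nat.factoredNumbers s, (1 : ℝ) / ((m : ℕ) : ℝ)) ≤
      (SM s (A ∩ ((F.image Subtype.val : Finset ℕ) : Set ℕ)) + η) * ∑' m : Nat.factoredNumbers s, (1 : ℝ) / ((m : ℕ) : ℝ) := by
    rw [add_mul]
    linarith
  exact le_of_mul_le_mul_right h3 hW

end Pool.Agent.LogAll
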