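import Mathlib

/-!
# Uniform version: definitions

`SM s` is the probability on the positive integers with all prime factors in `s` giving `m` a mass
proportional to `1 / m` (the exponents of the primes of `s` are independent geometric variables).
-/

set_option autoImplicit false

namespace Pool.Agent.LogAll

open Polynomial

/-- the probability proportional to `1 / m` on the integers with all prime factors in `s` -/
noncomputable def SM (s : Finset ℕ) (A : Set ℕ) : ℝ :=
  (∑' m : Nat.factoredNumbers s, A.indicator (fun m : ℕ => (1 : ℝ) / m) (m : ℕ)) /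
    (∑' m : Nat.factoredNumbers s, (1 : ℝ) / ((m : ℕ) : ℝ))

/-- finitely additive probabilities covariant for the dilations by the elements of `s` -/
structure IsMeanOn (s : Finset ℕ) (μ : Set ℕ → ℝ) : Prop where
  nonneg : ∀ A, 0 ≤ μ A
  mono : ∀ A B, A ⊆ B → μ A ≤ μ B
  add : ∀ A B, Disjoint A B → μ (A ∪ B) = μ A + μ B
  univ : μ Set.univ = 1
  supp : μ (Nat.factoredNumbers s)ᶜ = 0
  dil : ∀ p ∈ s, ∀ A : Set ℕ, μ ((fun a => p * a) '' A) = μ A / p
  quad : ∀ (P : Finset ℕ) (A : Set ℕ) (t c : ℝ),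
    0 ≤ t ^ 2 * μ A + ∑ p ∈ P, ∑ q ∈ P, μ ({a | p ∣ a} ∩ {a | q ∣ a}) + c ^ 2
      + 2 * t * ∑ p ∈ P, μ (A ∩ {a | p ∣ a}) - 2 * t * c * μ A - 2 * c * ∑ p ∈ P, μ {a | p ∣ a}

/-- `ζ` is a root of a nonzero polynomial of degree at most `D` with coefficients in `M` -/
def BadK {k K : Type*} [Field k] [Field K] [Algebra k K] (M : Submodule k K) (D : ℕ) (ζ : K) :
    Prop :=
  ∃ P : K[X], P ≠ 0 ∧ P.natDegree ≤ D ∧ (∀ i, P.coeff i ∈ M) ∧ P.eval ζ = 0

end Pool.Agent.LogAll
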