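import Pool.Agent.Lib_MP_1eadae_lu.UDefs
import Pool.Agent.Lib_LogRel.DC
import Pool.Agent.Lib_MP_1eadae_la.LogP

/-!
# Piece UE: an ultrapower of the complex numbers
-/

set_option autoImplicit false

namespace Pool.Agent.LogAll

open Pool.Agent.LogRel Polynomial

/-- ultrapower of the complex numbers (a new type, to avoid a second structure of rational vector
space) -/
def KS (φ : Ultrafilter ℕ) : Type := Filter.Germ (φ : Filter ℕ) ℂ

noncomputable instance (φ : Ultrafilter ℕ) : Field (KS φ) :=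
  inferInstanceAs (Field (Filter.Germ (φ : Filter ℕ) ℂ))

/-- class of a sequence -/
def KS.mk (φ : Ultrafilter ℕ) (g : ℕ → ℂ) : KS φ := ((g : Filter.Germ (φ : Filter ℕ) ℂ))

theorem KS.mk_surj (φ : Ultrafilter ℕ) (x : KS φ) : ∃ g, KS.mk φ g = x :=
  Filter.Germ.inductionOn (l := (φ : Filter ℕ)) x fun g => ⟨g, rfl⟩

theorem KS.mk_eq {φ : Ultrafilter ℕ} {g h : ℕ → ℂ} :
    KS.mk φ g = KS.mk φ h ↔ ∀ᶠ n in (φ : Filter ℕ), g n = h n :=
  Filter.Germ.coe_eq

theorem KS.mk_add {φ : Ultrafilter ℕ} {g h : ℕ → ℂ} :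
    KS.mk φ g + KS.mk φ h = KS.mk φ (fun n => g n + h n) := rfl

theorem KS.mk_mul {φ : Ultrafilter ℕ} {g h : ℕ → ℂ} :
    KS.mk φ g * KS.mk φ h = KS.mk φ (fun n => g n * h n) := rfl

theorem KS.mk_zero {φ : Ultrafilter ℕ} : (0 : KS φ) = KS.mk φ (fun _ => 0) := rfl

theorem KS.mk_one {φ : Ultrafilter ℕ} : (1 : KS φ) = KS.mk φ (fun _ => 1) := rfl

private theorem KS.mk_neg' {φ : Ultrafilter ℕ} {g : ℕ → ℂ} :
    - KS.mk φ g = KS.mk φ (fun n => - g n) := rfl

private theorem KS.mk_inv' {φ : Ultrafilter ℕ} {g : ℕ → ℂ} :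
    (KS.mk φ g)⁻¹ = KS.mk φ (fun n => (g n)⁻¹) := rfl

private theorem KS.natCast' {φ : Ultrafilter ℕ} (m : ℕ) :
    ((m : ℕ) : KS φ) = KS.mk φ (fun _ => (m : ℂ)) := by
  induction m with
  | zero => rw [Nat.cast_zero, Nat.cast_zero, KS.mk_zero]
  | succ m ih => rw [Nat.cast_succ, ih, KS.mk_one, KS.mk_add, Nat.cast_succ]

private theorem KS.mk_pow' {φ : Ultrafilter ℕ} {g : ℕ → ℂ} (m : ℕ) :
    (KS.mk φ g) ^ m = KS.mk φ (fun n => g n ^ m) := by
  induction m with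
  | zero => simp only [pow_zero]; rw [KS.mk_one]
  | succ m ih => simp only [pow_succ]; rw [ih, KS.mk_mul]

private theorem KS.mk_sum' {φ : Ultrafilter ℕ} {ι : Type} (s : Finset ι) (g : ι → ℕ → ℂ) :
    ∑ i ∈ s, KS.mk φ (g i) = KS.mk φ (fun n => ∑ i ∈ s, g i n) := by
  classical
  induction s using Finset.induction_on with
  | empty => simp only [Finset.sum_empty]; rw [KS.mk_zero]
  | insert i s hi ih =>
    simp only [Finset.sum_insert hi]
    rw [ih, KS.mk_add]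

instance (φ : Ultrafilter ℕ) : CharZero (KS φ) := by
  refine ⟨fun a b h => ?_⟩
  have h1 : KS.mk φ (fun _ => (a : ℂ)) = KS.mk φ (fun _ => (b : ℂ)) := by
    rw [← KS.natCast', ← KS.natCast']
    exact h
  obtain ⟨n, hn⟩ := (KS.mk_eq.1 h1).exists
  exact Nat.cast_injective hn

instance (φ : Ultrafilter ℕ) : IsAlgClosed (KS φ) := by
  refine IsAlgClosed.of_exists_root _ fun p hp hirr => ?_
  choose c hc using fun i : ℕ => KS.mk_surj φ (p.coeff i)
  have hd : p.natDegree ≠ 0 := hirr.natDegree_pos.ne'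
  have hroot : ∀ n : ℕ, ∃ z : ℂ, z ^ p.natDegree + ∑ i : Fin p.natDegree, c i n * z ^ (i : ℕ) = 0 := by
    intro n
    have h1 := degree_sum_fin_lt (fun i : Fin p.natDegree => c i n)
    have h2 : degree (X ^ p.natDegree + ∑ i : Fin p.natDegree, C (c i n) * X ^ (i : ℕ)) =
        p.natDegree := by
      rw [degree_add_eq_left_of_degree_lt, degree_X_pow]
      rw [degree_X_pow]
      exact h1
    obtain ⟨z, hz⟩ := IsAlgClosed.exists_root (X ^ p.natDegree +
      ∑ i : Fin p.natDegree, C (c i n) * X ^ (i : ℕ)) (by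
        rw [h2]
        exact_mod_cast hd)
    refine ⟨z, ?_⟩
    have h3 := hz.eq_zero
    rw [eval_add, eval_pow, eval_X, eval_finsetSum] at h3
    simpa using h3
  choose z hz using hroot
  refine ⟨KS.mk φ z, ?_⟩
  rw [hp.as_sum, eval_add, eval_pow, eval_X, eval_finsetSum, KS.mk_pow', Finset.sum_range]
  have h4 : ∀ i : Fin p.natDegree, eval (KS.mk φ z) (C (p.coeff i) * X ^ (i : ℕ)) =
      KS.mk φ (fun n => c i n * z n ^ (i : ℕ)) := by
    intro i
    rw [eval_mul, eval_C, eval_pow, eval_X, KS.mk_pow', ← hc, KS.mk_mul]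
  rw [Finset.sum_congr rfl fun i _ => h4 i, KS.mk_sum', KS.mk_add, KS.mk_zero]
  exact congrArg (KS.mk φ) (funext hz)

/-- the subfield of the classes of sequences of algebraic numbers -/
noncomputable def kS (φ : Ultrafilter ℕ) : Subfield (KS φ) where
  carrier := {x | ∃ g : ℕ → Qb, x = KS.mk φ (fun n => (g n : ℂ))}
  mul_mem' := by
    rintro _ _ ⟨g, rfl⟩ ⟨h, rfl⟩
    exact ⟨fun n => g n * h n, KS.mk_mul⟩
  one_mem' := ⟨fun _ => 1, KS.mk_one⟩
  add_mem' := by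
    rintro _ _ ⟨g, rfl⟩ ⟨h, rfl⟩
    exact ⟨fun n => g n + h n, KS.mk_add⟩
  zero_mem' := ⟨fun _ => 0, KS.mk_zero⟩
  neg_mem' := by
    rintro _ ⟨g, rfl⟩
    exact ⟨fun n => - g n, KS.mk_neg'⟩
  inv_mem' := by
    rintro _ ⟨g, rfl⟩
    exact ⟨fun n => (g n)⁻¹, KS.mk_inv'⟩

theorem mem_kS {φ : Ultrafilter ℕ} {x : KS φ} :
    x ∈ kS φ ↔ ∃ g : ℕ → Qb, x = KS.mk φ (fun n => (g n : ℂ)) := Iff.rfl

/-- constant class of a logarithm -/
noncomputable def lamS (φ : Ultrafilter ℕ) (a : ℕ) : KS φ := KS.mk φ (fun _ => Complex.log (a : ℂ))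

theorem lamS_mul (φ : Ultrafilter ℕ) (a b : ℕ) (ha : 0 < a) (hb : 0 < b) :
    lamS φ (a * b) = lamS φ a + lamS φ b := by
  unfold lamS
  rw [KS.mk_add]
  refine congrArg (KS.mk φ) (funext fun _ => ?_)
  rw [← Complex.natCast_log, ← Complex.natCast_log, ← Complex.natCast_log, Nat.cast_mul,
    Real.log_mul (Nat.cast_ne_zero.2 ha.ne') (Nat.cast_ne_zero.2 hb.ne'), Complex.ofReal_add]

end Pool.Agent.LogAll
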