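import Pool.Agent.Lib_MP_1eadae_lu.UE
import Pool.Agent.Lib_MP_1eadae_la.RankA

/-!
# Piece UE2: independence and rank bound in the ultrapower
-/

set_option autoImplicit false

namespace Pool.Agent.LogAll

open Pool.Agent.LogRel Polynomial

/-- constant sequences -/
private noncomputable def cst (φ : Ultrafilter ℕ) : ℂ →+* KS φ where
  toFun c := KS.mk φ (fun _ => c)
  map_one' := KS.mk_one.symm
  map_mul' _ _ := KS.mk_mul.symm
  map_zero' := KS.mk_zero.symm
  map_add' _ _ := KS.mk_add.symm

private theorem cst_apply (φ : Ultrafilter ℕ) (c : ℂ) : cst φ c = KS.mk φ (fun _ => c) := rfl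

private theorem lamS_eq (φ : Ultrafilter ℕ) (a : ℕ) : lamS φ a = cst φ (Complex.log (a : ℂ)) := rfl

private theorem mk_sum (φ : Ultrafilter ℕ) {ι : Type} (s : Finset ι) (g : ι → ℕ → ℂ) :
    ∑ i ∈ s, KS.mk φ (g i) = KS.mk φ (fun n => ∑ i ∈ s, g i n) := by
  classical
  induction s using Finset.induction_on with
  | empty => simp [KS.mk_zero]
  | insert a s ha ih =>
    rw [Finset.sum_insert ha, ih, KS.mk_add]
    congr 1
    funext n
    rw [Finset.sum_insert ha]

/-- (`linInd_log` in LogP; a finite relation holds at one index) -/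
theorem indS (φ : Ultrafilter ℕ) :
    LinearIndependent ℚ (fun p : Nat.Primes => lamS φ (p : ℕ)) := by
  have h := linInd_log.map' (cst φ).toRatAlgHom.toLinearMap
    (LinearMap.ker_eq_bot.2 (cst φ).injective)
  exact h

/-- elements of a finite dimensional space as classes of combinations of fixed sequences -/
private theorem exists_rep (φ : Ultrafilter ℕ) (A : Submodule (kS φ) (KS φ))
    [FiniteDimensional (kS φ) A] :
    ∃ α : Fin (Module.finrank (kS φ) A) → ℕ → ℂ, ∀ a ∈ A,
      ∃ c : Fin (Module.finrank (kS φ) A) → ℕ → Qb,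
        a = KS.mk φ (fun m => ∑ i, (c i m : ℂ) * α i m) := by
  set b := Module.finBasis (kS φ) A with hb
  choose α hα using fun i => KS.mk_surj φ (b i : KS φ)
  refine ⟨α, fun a ha => ?_⟩
  choose c hc using fun i => (mem_kS (φ := φ)).1 (b.repr ⟨a, ha⟩ i).2
  refine ⟨c, ?_⟩
  have h1 := congrArg (Subtype.val) (b.sum_repr ⟨a, ha⟩)
  rw [← mk_sum φ Finset.univ (fun i m => (c i m : ℂ) * α i m)]
  rw [AddSubmonoidClass.coe_finsetSum] at h1
  have h2 : ∀ i, (((b.repr ⟨a, ha⟩) i • b i : A) : KS φ) =
      KS.mk φ (fun m => (c i m : ℂ) * α i m) := by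
    intro i
    rw [← KS.mk_mul, hα i, ← hc i]
    rfl
  calc a = ∑ i, (((b.repr ⟨a, ha⟩) i • b i : A) : KS φ) := h1.symm
    _ = _ := Finset.sum_congr rfl fun i _ => h2 i

/-- The rank bound `rank_le` in the ultrapower: write generators of A, B and all relations as classes
of sequences; they hold at one index n, where `rank_le` applies to the spans of the values
(exp (log a - log b) is rational, `isAlgebraic_exp_clog`; the dimension of the span of the values is
at most the number of generators and d (d - 1) + b is monotone). -/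
theorem rankS (φ : Ultrafilter ℕ) (A B : Submodule (kS φ) (KS φ))
    (hA : FiniteDimensional (kS φ) A) (hB : FiniteDimensional (kS φ) B) :
    ∃ n₀ : ℕ, ∀ (n : ℕ) (v v' : Fin n → ℕ), (∀ j, 0 < v j) → (∀ j, 0 < v' j) →
      LinearIndependent ℚ (fun j => lamS φ (v j) - lamS φ (v' j)) →
      (∀ j, ∃ a ∈ A, a ≠ 0 ∧ a * (lamS φ (v j) - lamS φ (v' j)) ∈ B) → n ≤ n₀ := by
  obtain ⟨α, hα⟩ := exists_rep φ A
  obtain ⟨β, hβ⟩ := exists_rep φ B
  refine ⟨Module.finrank (kS φ) A * (Module.finrank (kS φ) A - 1) + Module.finrank (kS φ) B,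
    fun n v v' hv hv' hli h => ?_⟩
  choose a haA ha0 haB using h
  choose c hc using fun j => hα (a j) (haA j)
  choose e he using fun j => hβ _ (haB j)
  -- logarithms in the complex numbers
  have hli' : LinearIndependent ℚ (fun j => Complex.log (v j : ℂ) - Complex.log (v' j : ℂ)) := by
    refine LinearIndependent.of_comp (cst φ).toRatAlgHom.toLinearMap ?_
    have h1 : (⇑((cst φ).toRatAlgHom.toLinearMap) ∘
        fun j => Complex.log (v j : ℂ) - Complex.log (v' j : ℂ)) =
        fun j => lamS φ (v j) - lamS φ (v' j) := by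
      funext j
      change cst φ (Complex.log (v j : ℂ) - Complex.log (v' j : ℂ)) = _
      rw [map_sub]
      rfl
    rw [h1]
    exact hli
  -- the relations at almost all indices
  have hev : ∀ j, ∀ᶠ m in (φ : Filter ℕ), (∑ i, (c j i m : ℂ) * α i m ≠ 0) ∧
      (∑ i, (c j i m : ℂ) * α i m) * (Complex.log (v j : ℂ) - Complex.log (v' j : ℂ)) =
        ∑ i, (e j i m : ℂ) * β i m := by
    intro j
    refine Filter.Eventually.and ?_ ?_
    · rw [Ultrafilter.eventually_not]
      intro h0
      apply ha0 j
      rw [hc j, KS.mk_zero, KS.mk_eq]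
      exact h0
    · have h1 := he j
      rw [hc j, lamS_eq, lamS_eq, ← map_sub, cst_apply, KS.mk_mul, KS.mk_eq] at h1
      exact h1
  obtain ⟨m, hm⟩ := (Filter.eventually_all.2 hev).exists
  set Am : Submodule Qb ℂ := Submodule.span Qb (Set.range fun i => α i m) with hAm
  set Bm : Submodule Qb ℂ := Submodule.span Qb (Set.range fun i => β i m) with hBm
  have hAf : FiniteDimensional Qb Am := FiniteDimensional.span_of_finite Qb (Set.finite_range _)
  have hBf : FiniteDimensional Qb Bm := FiniteDimensional.span_of_finite Qb (Set.finite_range _)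
  have hA1 : Module.finrank Qb Am ≤ Module.finrank (kS φ) A := by
    have := finrank_range_le_card (R := Qb) (fun i => α i m)
    simpa [Set.finrank] using this
  have hB1 : Module.finrank Qb Bm ≤ Module.finrank (kS φ) B := by
    have := finrank_range_le_card (R := Qb) (fun i => β i m)
    simpa [Set.finrank] using this
  have hexp : ∀ j, IsAlgebraic ℚ
      (Complex.exp (Complex.log (v j : ℂ) - Complex.log (v' j : ℂ))) := by
    intro j
    rw [Complex.exp_sub, div_eq_mul_inv]
    exact (isAlgebraic_exp_clog (hv j)).mul (isAlgebraic_exp_clog (hv' j)).inv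
  have key := rank_le (fun j => Complex.log (v j : ℂ) - Complex.log (v' j : ℂ)) hli' hexp Am Bm
    hAf hBf (fun j => ⟨∑ i, (c j i m : ℂ) * α i m, ?_, (hm j).1, ?_⟩)
  · refine key.trans (Nat.add_le_add ?_ hB1)
    exact Nat.mul_le_mul hA1 (Nat.sub_le_sub_right hA1 1)
  · refine Submodule.sum_mem _ fun i _ => ?_
    have : (c j i m : ℂ) * α i m = c j i m • α i m := rfl
    rw [this]
    exact Submodule.smul_mem _ _ (Submodule.subset_span ⟨i, rfl⟩)
  · rw [(hm j).2]
    refine Submodule.sum_mem _ fun i _ => ?_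
    have : (e j i m : ℂ) * β i m = e j i m • β i m := rfl
    rw [this]
    exact Submodule.smul_mem _ _ (Submodule.subset_span ⟨i, rfl⟩)

end Pool.Agent.LogAll
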