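import Pool.Agent.Lib_MP_1eadae_lu.UZ
import Pool.Agent.Lib_MP_1eadae_lu.UA2
import Pool.Agent.Lib_MP_1eadae_lu.UE2

/-!
# Piece UU: the uniform theorem
-/

set_option autoImplicit false

namespace Pool.Agent.LogAll

open Polynomial Pool.Agent.LogRel

/-- the ring homomorphism from sequences to classes -/
private noncomputable def uuH (φ : Ultrafilter ℕ) : (ℕ → ℂ) →+* KS φ where
  toFun := KS.mk φ
  map_one' := KS.mk_one.symm
  map_mul' _ _ := KS.mk_mul.symm
  map_zero' := KS.mk_zero.symm
  map_add' _ _ := KS.mk_add.symm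

private theorem uuH_apply (φ : Ultrafilter ℕ) (g : ℕ → ℂ) : uuH φ g = KS.mk φ g := rfl

private theorem uu_eq_zero {φ : Ultrafilter ℕ} {g : ℕ → ℂ} :
    uuH φ g = 0 ↔ ∀ᶠ n in (φ : Filter ℕ), g n = 0 := by
  rw [uuH_apply, KS.mk_zero, KS.mk_eq]

/-- coefficients in the span pass to classes -/
private theorem uu_mem {d : ℕ} (φ : Ultrafilter ℕ) (w : ℕ → Fin d → ℂ) (g : ℕ → ℂ)
    (hg : ∀ᶠ n in (φ : Filter ℕ), g n ∈ Submodule.span Qb (Set.range (w n))) :
    KS.mk φ g ∈ Submodule.span (kS φ) (Set.range fun b : Fin d => KS.mk φ (fun n => w n b)) := by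
  classical
  have h1 : ∀ n, ∃ c : Fin d → Qb, g n ∈ Submodule.span Qb (Set.range (w n)) →
      ∑ b, c b • w n b = g n := by
    intro n
    by_cases h : g n ∈ Submodule.span Qb (Set.range (w n))
    · obtain ⟨c, hc⟩ := (Submodule.mem_span_range_iff_exists_fun Qb).mp h
      exact ⟨c, fun _ => hc⟩
    · exact ⟨0, fun h' => absurd h' h⟩
  choose c hc using h1
  have h2 : KS.mk φ g = KS.mk φ (fun n => ∑ b, ((c n b : Qb) : ℂ) * w n b) := by
    rw [KS.mk_eq]
    filter_upwards [hg] with n hn
    rw [← hc n hn]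
    rfl
  have h3 : KS.mk φ (fun n => ∑ b, ((c n b : Qb) : ℂ) * w n b) =
      ∑ b, KS.mk φ (fun n => ((c n b : Qb) : ℂ)) * KS.mk φ (fun n => w n b) := by
    have h4 : (fun n => ∑ b, ((c n b : Qb) : ℂ) * w n b) =
        ∑ b, ((fun n => ((c n b : Qb) : ℂ)) * (fun n => w n b) : ℕ → ℂ) := by
      funext n
      rw [Finset.sum_apply]
      rfl
    rw [h4, ← uuH_apply, map_sum]
    refine Finset.sum_congr rfl fun b _ => ?_
    rw [map_mul]
    rfl
  rw [h2, h3]
  refine Submodule.sum_mem _ fun b _ => ?_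
  have h5 : KS.mk φ (fun n => ((c n b : Qb) : ℂ)) ∈ kS φ := mem_kS.mpr ⟨fun n => c n b, rfl⟩
  exact Submodule.smul_mem _ (⟨_, h5⟩ : kS φ) (Submodule.subset_span ⟨b, rfl⟩)

/-- roots of polynomials pass to classes -/
private theorem uu_bad {d D : ℕ} (φ : Ultrafilter ℕ) (w : ℕ → Fin d → ℂ) (g : ℕ → ℂ)
    (hg : ∀ᶠ n in (φ : Filter ℕ), BadK (Submodule.span Qb (Set.range (w n))) D (g n)) :
    BadK (Submodule.span (kS φ) (Set.range fun b : Fin d => KS.mk φ (fun n => w n b))) D
      (KS.mk φ g) := by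
  classical
  have h1 : ∀ n, ∃ P : ℂ[X], BadK (Submodule.span Qb (Set.range (w n))) D (g n) →
      P ≠ 0 ∧ P.natDegree ≤ D ∧ (∀ i, P.coeff i ∈ Submodule.span Qb (Set.range (w n))) ∧
        P.eval (g n) = 0 := by
    intro n
    by_cases h : BadK (Submodule.span Qb (Set.range (w n))) D (g n)
    · obtain ⟨P, hP⟩ := h
      exact ⟨P, fun _ => hP⟩
    · exact ⟨0, fun h' => absurd h' h⟩
  choose P hP using h1
  let Q : (KS φ)[X] := ∑ i ∈ Finset.range (D + 1), monomial i (KS.mk φ (fun n => (P n).coeff i))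
  have hQc : ∀ i, Q.coeff i = if i ∈ Finset.range (D + 1) then KS.mk φ (fun n => (P n).coeff i)
      else 0 := by
    intro i
    change (∑ i ∈ Finset.range (D + 1), monomial i (KS.mk φ (fun n => (P n).coeff i))).coeff i = _
    rw [finsetSum_coeff]
    simp only [coeff_monomial]
    rw [Finset.sum_ite_eq']
  refine ⟨Q, ?_, ?_, ?_, ?_⟩
  · intro hQ
    have h2 : ∀ i ∈ Finset.range (D + 1), ∀ᶠ n in (φ : Filter ℕ), (P n).coeff i = 0 := by
      intro i hi
      have h3 := hQc i
      rw [hQ, coeff_zero, if_pos hi] at h3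
      exact uu_eq_zero.mp (by rw [uuH_apply]; exact h3.symm)
    have h4 := (Filter.eventually_all_finset _).mpr h2
    obtain ⟨n, hn1, hn2⟩ := (h4.and hg).exists
    obtain ⟨hP1, hP2, -, -⟩ := hP n hn2
    apply hP1
    ext i
    rw [coeff_zero]
    by_cases hi : i ∈ Finset.range (D + 1)
    · exact hn1 i hi
    · rw [Finset.mem_range] at hi
      exact coeff_eq_zero_of_natDegree_lt (by omega)
  · rw [natDegree_le_iff_coeff_eq_zero]
    intro i hi
    rw [hQc, if_neg]
    rw [Finset.mem_range]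
    omega
  · intro i
    rw [hQc]
    split_ifs with hi
    · apply uu_mem
      filter_upwards [hg] with n hn
      exact (hP n hn).2.2.1 i
    · exact Submodule.zero_mem _
  · have h5 : Q.eval (KS.mk φ g) =
        uuH φ (fun n => ∑ i ∈ Finset.range (D + 1), (P n).coeff i * (g n) ^ i) := by
      change (∑ i ∈ Finset.range (D + 1), monomial i (KS.mk φ (fun n => (P n).coeff i))).eval _ = _
      rw [eval_finset_sum]
      have h6 : (fun n => ∑ i ∈ Finset.range (D + 1), (P n).coeff i * (g n) ^ i) =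
          ∑ i ∈ Finset.range (D + 1), ((fun n => (P n).coeff i) * g ^ i : ℕ → ℂ) := by
        funext n
        rw [Finset.sum_apply]
        rfl
      rw [h6, map_sum]
      refine Finset.sum_congr rfl fun i _ => ?_
      rw [eval_monomial, map_mul, map_pow]
      rfl
    rw [h5, uu_eq_zero]
    filter_upwards [hg] with n hn
    obtain ⟨-, hP2, -, hP4⟩ := hP n hn
    rw [← eval_eq_sum_range' (by omega)]
    exact hP4

/-- Uniform version. Proof: otherwise for each z there are w_z, u_z with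
SM (primesBelow z) {v | 0 < v ∧ BadK (span w_z) D (log v + u_z)} > ε. Let φ be a nonprincipal
ultrafilter on ℕ (`Filter.hyperfilter`), K = KS φ, k = kS φ, M = the k-span of the classes of the
sequences n ↦ w_n b. `mainZ` (with lamS, indS, rankS) gives z such that for all u in K
SM (primesBelow z) {v | 0 < v ∧ BadK M D (lamS v + u)} < ε / 2. For n ≥ z split primesBelow n =
primesBelow z ∪ t_n: by `sm_split` there is r_n > 0 with
SM (primesBelow z) V_n > ε, V_n = {v | 0 < v r_n ∧ BadK (span w_n) D (log v + log r_n + u_n)}.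
u := class of log r_n + u_n. F from `sm_tail` with η = ε / 2: SM (V_n ∩ F) > ε / 2. The sets V_n ∩ F
take finitely many values, so for φ-almost all n they are one set V; each v in V satisfies
BadK M D (lamS v + u): the coefficients of the polynomials P_n are combinations of the w_n b with
coefficients in Qb, pass to classes, for some i the coefficient of index i is nonzero for φ-almost
all n. Contradiction. -/
theorem uni (d D : ℕ) {ε : ℝ} (hε : 0 < ε) : ∃ z : ℕ, ∀ (w : Fin d → ℂ) (u : ℂ),
    SM (Nat.primesBelow z) {v : ℕ | 0 < v ∧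
      BadK (Submodule.span Qb (Set.range w)) D (Complex.log (v : ℂ) + u)} ≤ ε := by
  classical
  by_contra hcon
  push Not at hcon
  choose w u hwu using hcon
  let φ : Ultrafilter ℕ := Filter.hyperfilter ℕ
  let M : Submodule (kS φ) (KS φ) :=
    Submodule.span (kS φ) (Set.range fun b : Fin d => KS.mk φ (fun n => w n b))
  have hM : FiniteDimensional (kS φ) M := FiniteDimensional.span_of_finite _ (Set.finite_range _)
  obtain ⟨z, hz⟩ := mainZ (lamS φ) (lamS_mul φ) (indS φ) (rankS φ) M hM D (half_pos hε)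
  have hpz : ∀ p ∈ Nat.primesBelow z, p.Prime := fun p hp => Nat.prime_of_mem_primesBelow hp
  have h1 : ∀ n, ∃ r : ℕ, 0 < r ∧ (z ≤ n → ε < SM (Nat.primesBelow z) {v | v * r ∈
      {v : ℕ | 0 < v ∧ BadK (Submodule.span Qb (Set.range (w n))) D
        (Complex.log (v : ℂ) + u n)}}) := by
    intro n
    by_cases hn : z ≤ n
    · have hsub : Nat.primesBelow z ⊆ Nat.primesBelow n := by
        intro p hp
        rw [Nat.mem_primesBelow] at hp ⊢
        exact ⟨by omega, hp.2⟩
      obtain ⟨r, hr, hr2⟩ := sm_split (Nat.primesBelow z) (Nat.primesBelow n \ Nat.primesBelow z)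
        hpz (fun p hp => Nat.prime_of_mem_primesBelow (Finset.mem_sdiff.mp hp).1)
        Finset.disjoint_sdiff {v : ℕ | 0 < v ∧ BadK (Submodule.span Qb (Set.range (w n))) D
        (Complex.log (v : ℂ) + u n)}
      rw [Finset.union_sdiff_of_subset hsub] at hr2
      exact ⟨r, Nat.pos_of_ne_zero (Nat.ne_zero_of_mem_factoredNumbers hr),
        fun _ => (hwu n).trans_le hr2⟩
    · exact ⟨1, one_pos, fun h => absurd h hn⟩
  choose r hr0 hr using h1
  obtain ⟨F, hF⟩ := sm_tail (Nat.primesBelow z) hpz (half_pos hε)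
  let V : ℕ → Set ℕ := fun n => {v | v * r n ∈
      {v : ℕ | 0 < v ∧ BadK (Submodule.span Qb (Set.range (w n))) D (Complex.log (v : ℂ) + u n)}}
  have hV : ∀ n, z ≤ n → ε / 2 < SM (Nat.primesBelow z) (V n ∩ F) := by
    intro n hn
    have h2 := hF (V n)
    have h3 : ε < SM (Nat.primesBelow z) (V n) := hr n hn
    linarith
  have h4 : (⋃ T ∈ (F.powerset : Set (Finset ℕ)), {n | (V n ∩ F : Set ℕ) = (T : Set ℕ)}) ∈ φ := by
    have h5 : (⋃ T ∈ (F.powerset : Set (Finset ℕ)), {n | (V n ∩ F : Set ℕ) = (T : Set ℕ)}) =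
        Set.univ := by
      rw [Set.eq_univ_iff_forall]
      intro n
      rw [Set.mem_iUnion₂]
      refine ⟨F.filter (fun v => v ∈ V n), ?_, ?_⟩
      · rw [Finset.mem_coe, Finset.mem_powerset]
        exact Finset.filter_subset _ _
      · change (V n ∩ F : Set ℕ) = _
        ext v
        rw [Finset.coe_filter]
        constructor
        · rintro ⟨ha, hb⟩
          exact ⟨hb, ha⟩
        · rintro ⟨ha, hb⟩
          exact ⟨hb, ha⟩
    rw [h5]
    exact Filter.univ_mem
  rw [Ultrafilter.finite_biUnion_mem_iff (Finset.finite_toSet _)] at h4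
  obtain ⟨T, -, hT⟩ := h4
  have hT' : ∀ᶠ n in (φ : Filter ℕ), (V n ∩ F : Set ℕ) = (T : Set ℕ) := hT
  have hz' : ∀ᶠ n in (φ : Filter ℕ), z ≤ n :=
    Nat.hyperfilter_le_atTop (Filter.eventually_ge_atTop z)
  obtain ⟨n, hn1, hn2⟩ := (hT'.and hz').exists
  have h6 := hV n hn2
  rw [hn1] at h6
  have h7 : (T : Set ℕ) ⊆ {v | 0 < v ∧ BadK M D (lamS φ v +
      KS.mk φ (fun n => Complex.log (r n : ℂ) + u n))} := by
    intro v hv
    have h8 : ∀ᶠ n in (φ : Filter ℕ), v ∈ V n := by
      filter_upwards [hT'] with n hn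
      rw [← hn] at hv
      exact hv.1
    obtain ⟨n', hn'⟩ := h8.exists
    have hv0 : 0 < v := Nat.pos_of_ne_zero (by
      rintro rfl
      have := hn'.1
      rw [zero_mul] at this
      exact lt_irrefl _ this)
    refine ⟨hv0, ?_⟩
    have h9 : lamS φ v + KS.mk φ (fun n => Complex.log (r n : ℂ) + u n) =
        KS.mk φ (fun n => Complex.log ((v * r n : ℕ) : ℂ) + u n) := by
      unfold lamS
      rw [KS.mk_add]
      congr 1
      funext n
      rw [← Complex.natCast_log, ← Complex.natCast_log, ← Complex.natCast_log, Nat.cast_mul,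
        Real.log_mul (by positivity) (by have := hr0 n; positivity)]
      push_cast
      ring
    rw [h9]
    apply uu_bad
    filter_upwards [h8] with n hn
    exact hn.2
  have h10 := (sm_mean (Nat.primesBelow z) hpz).mono _ _ h7
  have h11 := hz (KS.mk φ (fun n => Complex.log (r n : ℂ) + u n))
  linarith

end Pool.Agent.LogAll
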